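import Pool.Agent.P.MP_2c2d1a_pr.Blocks

/-! The final assembly from the blocks. -/

open MeasureTheory Filter Topology
open scoped ENNReal

namespace PV2c

theorem asm (hDet : BDet) (hFin : BFin) (hPar : BPar) (hProb : BProb)
    (n : ℕ) (hn : 2 ≤ n) (lam : ℝ) (hlam : 0 < lam)
    (Ω : Type) [MeasurableSpace Ω] (P : Measure Ω) [IsProbabilityMeasure P]
    (Z : Ω → Set (Hyp n)) (hZ : IsPPP P Z (ENNReal.ofReal lam • hvol n)) :
    ∀ᵐ ω ∂P, (dual (Z ω)).Connected ∧ (∀ v, ((dual (Z ω)).neighborSet v).Finite) ∧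
      (Z ω).Infinite ∧ ∀ ρ : Z ω, Tendsto (isoInf (dual (Z ω)) ρ) atTop (𝓝 0) := by
  let i0 : Fin n := ⟨0, by omega⟩
  let i1 : Fin n := ⟨1, by omega⟩
  have h01 : i0 ≠ i1 := by simp [i0, i1]
  have key : ∀ m : ℕ, ∀ᵐ ω ∂P, 1 ≤ m → ∃ a b : ℕ, m ≤ a ∧ m * b ≤ a ∧
      Thin (dual (Z ω)) (fun v => coshDist (orig n) v.1) m a b := by
    intro m
    by_cases hm : 1 ≤ m
    swap
    · exact Eventually.of_forall fun _ h => absurd h hm
    rw [ae_iff, ← measureReal_eq_zero_iff]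
    refine le_antisymm (le_of_forall_pos_le_add fun ε hε => ?_) measureReal_nonneg
    obtain ⟨L, hL0, hL⟩ : ∃ L : ℝ, 0 ≤ L ∧ Real.exp (-L) ≤ ε / 2 := by
      refine ⟨2 / ε, by positivity, ?_⟩
      rw [Real.exp_neg, inv_le_comm₀ (Real.exp_pos _) (by positivity), inv_div]
      linarith [Real.add_one_le_exp (2 / ε)]
    obtain ⟨N, k, T, K, ρ, τ, hk, hT, hτ, hτk, hnτ, hρ, hTb, hmk, hmb, hLp, hδ⟩ :=
      hPar n m lam (ε / 2 / (L + 1)) L (by omega) hm hlam (by positivity) hL0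
    have h1 := hProb n i0 i1 lam hlam Ω P Z hZ N k T K ρ τ L _ hk hT hτ hτk hρ hL0 hLp hδ
    have h2 : (L + 1) * (ε / 2 / (L + 1)) = ε / 2 := by field_simp
    rw [h2] at h1
    refine le_trans (measureReal_mono ?_) (h1.trans (by linarith))
    intro ω hω hgood
    obtain ⟨z, hz, hg⟩ := hgood
    refine hω fun _ => ⟨k ^ 2, ((N + 1) * K + 2 * k) * K, hmk, hmb, ?_⟩
    refine hDet n i0 i1 h01 (Z ω) (pos i0 N z) N k T K ρ τ m ?_ hk hτ hτk hnτ hρ
      (by exact_mod_cast hm) hTb hg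
    intro l
    unfold pos
    split_ifs
    · have hz' : (z : ℝ) ≤ 2 ^ N := by exact_mod_cast hz.le
      rw [abs_of_nonneg (by positivity)]
      have : ((1 : ℝ) / 2) ^ N * 2 ^ N = 1 := by rw [← mul_pow]; norm_num
      have h3 : ((1 : ℝ) / 2) ^ N * z ≤ (1 / 2) ^ N * 2 ^ N := by gcongr
      linarith
    · simp
  filter_upwards [ae_all_iff.2 key] with ω hω
  obtain ⟨h1, h2, h3, h4⟩ := hFin (Z ω) (dual (Z ω)) _ hω
  exact ⟨h1, h2, Set.infinite_coe_iff.1 h3, h4⟩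

end PV2c
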