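import Pool.Agent.P.MP_2c2d1a_pr.Defs

/-! Auxiliary definitions and the blocks of the proof. -/

open MeasureTheory Filter Topology
open scoped ENNReal unitInterval

namespace PV2c

variable {n : ℕ}

/-- A coordinate box: `|u - c| ≤ r` in every coordinate and `α ≤ h ≤ β`. -/
def CBox (c : Fin n → ℝ) (r α β : ℝ) : Set (Hyp n) :=
  {y | (∀ l, |y.1.1 l - c l| ≤ r) ∧ α ≤ y.1.2 ∧ y.1.2 ≤ β}

/-- The bounded region of size `T` around the point `(t, 2^(-j))`. -/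
def Fat (t : Fin n → ℝ) (j : ℕ) (T : ℝ) : Set (Hyp n) :=
  CBox t (T * (1 / 2) ^ j) ((1 / 2) ^ j / T) (T * (1 / 2) ^ j)

/-- Some point is equidistant from `x` and `x'` and strictly farther from all other points. -/
def Strict (Z : Set (Hyp n)) (x x' : Hyp n) : Prop :=
  ∃ y, coshDist y x = coshDist y x' ∧ ∀ z ∈ Z, z ≠ x → z ≠ x' → coshDist y x < coshDist y z

/-- The base point `(0, 1)`. -/
def orig (n : ℕ) : Hyp n := ⟨(0, 1), one_pos⟩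

theorem geo_pos (x y : Hyp n) (θ : I) : 0 < (1 - (θ : ℝ)) * x.1.2 ^ 2 + θ * y.1.2 ^ 2 +
    θ * (1 - θ) * ∑ l, (x.1.1 l - y.1.1 l) ^ 2 := by
  have h0 := θ.2.1
  have h1 := θ.2.2
  have hx := pow_pos x.2 2
  have hy := pow_pos y.2 2
  have hs : 0 ≤ (θ : ℝ) * (1 - θ) * ∑ l, (x.1.1 l - y.1.1 l) ^ 2 :=
    mul_nonneg (mul_nonneg h0 (by linarith)) (Finset.sum_nonneg fun _ _ => sq_nonneg _)
  rcases le_total (x.1.2 ^ 2) (y.1.2 ^ 2) with h | h <;> nlinarith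

/-- The geodesic segment from `x` to `y`, a straight segment in the coordinates
`(u, |u|^2 + h^2)`. -/
noncomputable def geo (x y : Hyp n) (θ : I) : Hyp n :=
  ⟨(fun l => (1 - (θ : ℝ)) * x.1.1 l + θ * y.1.1 l,
    Real.sqrt ((1 - (θ : ℝ)) * x.1.2 ^ 2 + θ * y.1.2 ^ 2 +
      θ * (1 - θ) * ∑ l, (x.1.1 l - y.1.1 l) ^ 2)), Real.sqrt_pos.2 (geo_pos x y θ)⟩

/-- Every point of `A` has a point of `Z` within `coshDist ≤ R`. -/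
def Vac (Z : Set (Hyp n)) (A : Set (Hyp n)) (R : ℝ) : Prop :=
  ∀ y ∈ A, ∃ w ∈ Z, coshDist y w ≤ R

/-- The box that holds the cluster, at scale `s` and position `t`. -/
def BB (t : Fin n → ℝ) (s : ℝ) : Set (Hyp n) := CBox t (2 * s) s (4 * s)

/-- The `2k` small boxes of the cluster: along direction `i0` at height `2s` and along
direction `i1` at height `3s`. -/
def WW (i0 i1 : Fin n) (t : Fin n → ℝ) (s τ : ℝ) (k : ℕ) : Fin k ⊕ Fin k → Set (Hyp n)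
  | Sum.inl i => CBox (fun l => t l + if l = i0 then s * ((i : ℝ) / (4 * k)) else 0)
      (s * τ) (s * (2 - τ)) (s * (2 + τ))
  | Sum.inr j => CBox (fun l => t l + if l = i1 then s * ((j : ℝ) / (4 * k)) else 0)
      (s * τ) (s * (3 - τ)) (s * (3 + τ))

/-- The positions of the candidate clusters. -/
noncomputable def pos (i0 : Fin n) (N z : ℕ) : Fin n → ℝ :=
  fun l => if l = i0 then 5 * (1 / 2) ^ N * z else 0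

/-- The boxes of the vacancy net, indexed by `(j, m, v)`. -/
def QQ (t : Fin n → ℝ) (T : ℕ) (ρ : ℝ) (a : ℕ × ℕ × (Fin n → ℤ)) : Set (Hyp n) :=
  CBox (fun l => t l + (1 / 2) ^ a.1 / T * a.2.2 l) (ρ * ((1 / 2) ^ a.1 / T * a.2.1))
    ((1 / 2) ^ a.1 / T * a.2.1) (2 * ((1 / 2) ^ a.1 / T * a.2.1))

/-- The index set of the vacancy net. -/
noncomputable def QI (n N T : ℕ) : Finset (ℕ × ℕ × (Fin n → ℤ)) :=
  Finset.range (N + 1) ×ˢ Finset.Icc 1 (T ^ 2) ×ˢ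
    Fintype.piFinset fun _ => Finset.Icc (-(T ^ 2 : ℤ)) (T ^ 2)

/-- The good configuration at position `t`. -/
def GoodAt (Z : Set (Hyp n)) (i0 i1 : Fin n) (t : Fin n → ℝ) (N k T K : ℕ) (ρ τ : ℝ) : Prop :=
  (∀ w, (Z ∩ WW i0 i1 t ((1 / 2) ^ N) τ k w).encard = 1) ∧
  (Z ∩ (BB t ((1 / 2) ^ N) \ ⋃ w, WW i0 i1 t ((1 / 2) ^ N) τ k w)).encard = 0 ∧
  (∀ a ∈ QI n N T, (Z ∩ (QQ t T ρ a \ BB t ((1 / 2) ^ N))).Nonempty) ∧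
  ∀ j ∈ Finset.range (N + 1), (Z ∩ (Fat t j T \ BB t ((1 / 2) ^ N))).encard < K

/-- Sets of small boundary through a common vertex, for all roots with `φ ≤ R0`. -/
def Thin {V : Type} (G : SimpleGraph V) (φ : V → ℝ) (R0 : ℝ) (a b : ℕ) : Prop :=
  ∃ v0 : V, ∀ ρ : V, φ ρ ≤ R0 → ∃ S : Finset V, ρ ∈ S ∧ v0 ∈ S ∧
    (G.induce (S : Set V)).Connected ∧ (a : ℕ∞) ≤ evol G S ∧ evol G S < ⊤ ∧
    ebdry G S ≤ (b : ℕ∞)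

/-! ### Blocks -/

/-- Volume of boxes. -/
def BVol : Prop := ∀ (n : ℕ) (c : Fin n → ℝ) (r α β : ℝ), 0 ≤ r → 0 < α → α ≤ β →
  MeasurableSet (CBox c r α β) ∧
  ENNReal.ofReal ((2 * r) ^ n * (β - α) / β ^ (n + 1)) ≤ hvol n (CBox c r α β) ∧
  hvol n (CBox c r α β) ≤ ENNReal.ofReal ((2 * r) ^ n * (β - α) / α ^ (n + 1))

/-- One candidate: the planted event and one more disjoint set. -/
def BOne : Prop := ∀ (Ω X : Type) [MeasurableSpace Ω] [MeasurableSpace X] (P : Measure Ω)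
  [IsProbabilityMeasure P] (Z : Ω → Set X) (μ : Measure X), IsPPP P Z μ →
  ∀ (ι : Type) [Fintype ι] (B : Set X) (W : ι → Set X) (b v : ℝ), 0 ≤ b → 0 ≤ v →
  MeasurableSet B → μ B ≤ ENNReal.ofReal b → (∀ i, MeasurableSet (W i)) → (∀ i, W i ⊆ B) →
  (∀ i j, i ≠ j → Disjoint (W i) (W j)) → (∀ i, ENNReal.ofReal v ≤ μ (W i)) →
  ∀ Ev : Set Ω, Ev = {ω | (∀ i, (Z ω ∩ W i).encard = 1) ∧ (Z ω ∩ (B \ ⋃ i, W i)).encard = 0} →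
  MeasurableSet Ev ∧
  (v * Real.exp (-b)) ^ Fintype.card ι * Real.exp (-b) ≤ P.real Ev ∧
  (∀ (Q : Set X) (q : ℝ), MeasurableSet Q → μ Q < ⊤ → ENNReal.ofReal q ≤ μ Q →
    P.real (Ev ∩ {ω | ¬ (Z ω ∩ (Q \ B)).Nonempty}) ≤ P.real Ev * Real.exp (b - q)) ∧
  (∀ (C : Set X) (m : ℝ) (K : ℕ), MeasurableSet C → 0 ≤ m → μ C ≤ ENNReal.ofReal m →
    P.real (Ev ∩ {ω | ¬ (Z ω ∩ (C \ B)).encard < K}) ≤ P.real Ev * (Real.exp m / 2 ^ K))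

/-- The planted events of disjoint candidates are independent. -/
def BInd : Prop := ∀ (Ω X : Type) [MeasurableSpace Ω] [MeasurableSpace X] (P : Measure Ω)
  [IsProbabilityMeasure P] (Z : Ω → Set X) (μ : Measure X), IsPPP P Z μ →
  ∀ (ι : Type) [Fintype ι] (M : ℕ) (B : ℕ → Set X) (W : ℕ → ι → Set X),
  (∀ z, MeasurableSet (B z)) → (∀ z, μ (B z) < ⊤) → (∀ z z', z ≠ z' → Disjoint (B z) (B z')) →
  (∀ z i, MeasurableSet (W z i)) → (∀ z i, W z i ⊆ B z) →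
  (∀ z i j, i ≠ j → Disjoint (W z i) (W z j)) →
  ∀ Ev : ℕ → Set Ω, (∀ z, Ev z = {ω | (∀ i, (Z ω ∩ W z i).encard = 1) ∧
    (Z ω ∩ (B z \ ⋃ i, W z i)).encard = 0}) →
  P.real (⋂ z ∈ Finset.range M, (Ev z)ᶜ) ≤ Real.exp (-∑ z ∈ Finset.range M, P.real (Ev z))

/-- Many candidates: some candidate succeeds and is not spoiled. -/
def BMany : Prop := ∀ (Ω : Type) [MeasurableSpace Ω] (P : Measure Ω) [IsProbabilityMeasure P]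
  (M0 : ℕ) (Ev Bad : ℕ → Set Ω) (p L δ : ℝ), 0 ≤ L → 0 ≤ δ → L ≤ M0 * p →
  (∀ z < M0, p ≤ P.real (Ev z)) → (∀ z < M0, P.real (Ev z ∩ Bad z) ≤ P.real (Ev z) * δ) →
  (∀ M ≤ M0, P.real (⋂ z ∈ Finset.range M, (Ev z)ᶜ) ≤
    Real.exp (-∑ z ∈ Finset.range M, P.real (Ev z))) →
  P.real {ω | ¬ ∃ z < M0, ω ∈ Ev z ∧ ω ∉ Bad z} ≤ Real.exp (-L) + (L + 1) * δ

/-- The cluster is a complete bipartite graph of strict neighbours. -/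
def BClu : Prop := ∀ (n : ℕ) (i0 i1 : Fin n), i0 ≠ i1 → ∀ (t : Fin n → ℝ) (s τ : ℝ) (k : ℕ),
  0 < s → 0 < τ → 1 ≤ k → τ * (800 * (k : ℝ) ^ 2) ≤ 1 → n * τ ≤ 1 →
  ∀ (Z : Set (Hyp n)) (c : Fin k ⊕ Fin k → Hyp n), (∀ w, c w ∈ WW i0 i1 t s τ k w) →
  (∀ z ∈ Z, z ∈ BB t s → ∃ w, z = c w) → ∀ i j, Strict Z (c (Sum.inl i)) (c (Sum.inr j))

/-- The small boxes are disjoint and inside the big box; the big boxes are disjoint. -/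
def BDis : Prop := ∀ (n : ℕ) (i0 i1 : Fin n),
  (∀ (t : Fin n → ℝ) (s τ : ℝ) (k : ℕ), 0 < s → 0 < τ → 1 ≤ k → τ * (800 * (k : ℝ) ^ 2) ≤ 1 →
    (∀ w, WW i0 i1 t s τ k w ⊆ BB t s) ∧
    ∀ w w', w ≠ w' → Disjoint (WW i0 i1 t s τ k w) (WW i0 i1 t s τ k w')) ∧
  ∀ N z z' : ℕ, z ≠ z' →
    Disjoint (BB (pos i0 N z) ((1 / 2) ^ N)) (BB (pos i0 N z') ((1 / 2) ^ N))

/-- The vacancy net works, and its size. -/
def BNet : Prop := ∀ (n N T : ℕ), 1 ≤ T →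
  (QI n N T).card = (N + 1) * (T ^ 2 * (2 * T ^ 2 + 1) ^ n) ∧
  ∀ (t : Fin n → ℝ) (ρ : ℝ) (Z : Set (Hyp n)), 0 ≤ ρ →
  (∀ a ∈ QI n N T, (Z ∩ QQ t T ρ a).Nonempty) →
  ∀ j ≤ N, Vac Z (Fat t j T) (1 + (n * (ρ + 1) ^ 2 + 1) / 2)

/-- The geodesic from a root to the cluster stays in the bounded regions. -/
def BPath : Prop := ∀ (n N : ℕ) (t : Fin n → ℝ) (A : ℝ), 1 ≤ A → ∀ x ∈ Fat t 0 A,
  ∀ y ∈ Fat t N A, ∀ θ : I, ∃ j ≤ N, geo x y θ ∈ Fat t j (4 * (n + 1) * A ^ 3)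

/-- A generic end point: the geodesic meets no triple tie after its start. -/
def BGen : Prop := ∀ (n : ℕ) (F : Set (Hyp n)), F.Finite → ∀ (x a : Hyp n) (O : Set (Hyp n)),
  O ∈ 𝓝 a → ∃ y ∈ O, ∀ θ : I, 0 < (θ : ℝ) → ∀ x1 ∈ F, ∀ x2 ∈ F, ∀ x3 ∈ F,
  x1 ≠ x2 → x1 ≠ x3 → x2 ≠ x3 → coshDist (geo x y θ) x1 = coshDist (geo x y θ) x2 →
  coshDist (geo x y θ) x1 ≠ coshDist (geo x y θ) x3

/-- Connection along a geodesic through strict neighbours. -/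
def BConn : Prop := ∀ (n : ℕ) (Z F : Set (Hyp n)), F.Finite → F ⊆ Z → ∀ x ∈ F, ∀ a ∈ F,
  ∀ (O : Set (Hyp n)) (R : ℝ), O ∈ 𝓝 a →
  (∀ y ∈ O, ∀ θ : I, (∃ w ∈ Z, coshDist (geo x y θ) w ≤ R) ∧
    ∀ w ∈ Z, coshDist (geo x y θ) w ≤ R → w ∈ F) →
  ∀ S : Set (Hyp n), x ∈ S → (∀ p ∈ F, ∀ q ∈ F, p ∈ S → p ≠ q → Strict Z p q → q ∈ S) → a ∈ S

/-- Neighbours are near, and strict neighbours are neighbours. -/
def BNbr : Prop := ∀ (n : ℕ) (Z : Set (Hyp n)) (t : Fin n → ℝ) (j : ℕ) (T1 T R : ℝ),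
  1 ≤ T1 → 1 ≤ R → 16 * (R + 2) ^ 2 * T1 ≤ T → Vac Z (Fat t j T) R →
  ∀ x ∈ Z, x ∈ Fat t j T1 → ∀ x' : Hyp n,
  (Face Z x x' → x' ∈ Fat t j T) ∧
  ((Z ∩ Fat t j T).Finite → Strict Z x x' → Face Z x x')

/-- The graph lemma. -/
def BGraph : Prop := ∀ (V : Type) (G : SimpleGraph V) (F : Set V) (f K k : ℕ)
  (c : Fin k ⊕ Fin k → V), Function.Injective c → F.encard ≤ f → (∀ w, c w ∈ F) →
  (∀ i j, G.Adj (c (Sum.inl i)) (c (Sum.inr j))) →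
  (∀ x ∈ F, (G.neighborSet x \ Set.range c).encard ≤ K) →
  ∀ ρ ∈ F, ∀ i0 : Fin k,
  (∀ S : Set V, ρ ∈ S → (∀ p ∈ F, ∀ q ∈ F, p ∈ S → G.Adj p q → q ∈ S) → c (Sum.inl i0) ∈ S) →
  ∃ S : Finset V, ρ ∈ S ∧ c (Sum.inl i0) ∈ S ∧ (G.induce (S : Set V)).Connected ∧
    ((k ^ 2 : ℕ) : ℕ∞) ≤ evol G S ∧ evol G S < ⊤ ∧ ebdry G S ≤ ((f * K : ℕ) : ℕ∞)

/-- The deterministic assembly. -/
def BDet : Prop := ∀ (n : ℕ) (i0 i1 : Fin n), i0 ≠ i1 → ∀ (Z : Set (Hyp n)) (t : Fin n → ℝ)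
  (N k T K : ℕ) (ρ τ R0 : ℝ), (∀ l, |t l| ≤ 5) → 1 ≤ k → 0 < τ → τ * (800 * (k : ℝ) ^ 2) ≤ 1 →
  n * τ ≤ 1 → 0 ≤ ρ → 1 ≤ R0 →
  256 * (n + 1) * (n * (ρ + 1) ^ 2 + 4) ^ 3 * (4 * R0 + 32) ^ 3 ≤ (T : ℝ) →
  GoodAt Z i0 i1 t N k T K ρ τ →
  Thin (dual Z) (fun v => coshDist (orig n) v.1) R0 (k ^ 2) (((N + 1) * K + 2 * k) * K)

/-- From thin sets at every level to the conclusion. -/
def BFin : Prop := ∀ (V : Type) (G : SimpleGraph V) (φ : V → ℝ),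
  (∀ m : ℕ, 1 ≤ m → ∃ a b : ℕ, m ≤ a ∧ m * b ≤ a ∧ Thin G φ m a b) →
  G.Connected ∧ (∀ v, (G.neighborSet v).Finite) ∧ Infinite V ∧
    ∀ ρ : V, Tendsto (isoInf G ρ) atTop (𝓝 0)

/-- The choice of the parameters. -/
def BPar : Prop := ∀ (n m : ℕ) (lam δ L : ℝ), 1 ≤ n → 1 ≤ m → 0 < lam → 0 < δ → 0 ≤ L →
  ∃ (N k T K : ℕ) (ρ τ : ℝ), 1 ≤ k ∧ 1 ≤ T ∧ 0 < τ ∧ τ * (800 * (k : ℝ) ^ 2) ≤ 1 ∧ n * τ ≤ 1 ∧
  0 ≤ ρ ∧ 256 * (n + 1) * (n * (ρ + 1) ^ 2 + 4) ^ 3 * (4 * m + 32) ^ 3 ≤ (T : ℝ) ∧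
  m ≤ k ^ 2 ∧ m * (((N + 1) * K + 2 * k) * K) ≤ k ^ 2 ∧
  L ≤ 2 ^ N * ((lam * (τ / 2) ^ (n + 1) * Real.exp (-(lam * (3 * 4 ^ n)))) ^ (2 * k) *
    Real.exp (-(lam * (3 * 4 ^ n)))) ∧
  (((N + 1) * (T ^ 2 * (2 * T ^ 2 + 1) ^ n) : ℕ) : ℝ) *
      Real.exp (lam * (3 * 4 ^ n) - lam * (ρ ^ n / 2)) +
    (N + 1) * (Real.exp (lam * (2 ^ n * (T : ℝ) ^ (2 * n + 2))) / 2 ^ K) ≤ δ

/-- The probability that no position is good. -/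
def BProb : Prop := ∀ (n : ℕ) (i0 i1 : Fin n) (lam : ℝ), 0 < lam →
  ∀ (Ω : Type) [MeasurableSpace Ω] (P : Measure Ω) [IsProbabilityMeasure P]
  (Z : Ω → Set (Hyp n)), IsPPP P Z (ENNReal.ofReal lam • hvol n) →
  ∀ (N k T K : ℕ) (ρ τ L δ : ℝ), 1 ≤ k → 1 ≤ T → 0 < τ → τ * (800 * (k : ℝ) ^ 2) ≤ 1 →
  0 ≤ ρ → 0 ≤ L →
  L ≤ 2 ^ N * ((lam * (τ / 2) ^ (n + 1) * Real.exp (-(lam * (3 * 4 ^ n)))) ^ (2 * k) *
    Real.exp (-(lam * (3 * 4 ^ n)))) →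
  (((N + 1) * (T ^ 2 * (2 * T ^ 2 + 1) ^ n) : ℕ) : ℝ) *
      Real.exp (lam * (3 * 4 ^ n) - lam * (ρ ^ n / 2)) +
    (N + 1) * (Real.exp (lam * (2 ^ n * (T : ℝ) ^ (2 * n + 2))) / 2 ^ K) ≤ δ →
  P.real {ω | ¬ ∃ z < 2 ^ N, GoodAt (Z ω) i0 i1 (pos i0 N z) N k T K ρ τ} ≤
    Real.exp (-L) + (L + 1) * δ

end PV2c
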