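import Pool.Agent.P.MP_2c2d1a_pr.Blocks

/-! The cluster is a complete bipartite graph of strict neighbours. -/

open MeasureTheory Filter Topology
open scoped ENNReal unitInterval

namespace PV2c

variable {n : ℕ}

theorem clu_sum (i0 i1 : Fin n) (hi : i0 ≠ i1) (ε : Fin n → ℝ) (τ p q : ℝ) (hτ : 0 < τ)
    (hn : n * τ ≤ 1) (hε : ∀ l, |ε l| ≤ τ) (hp : |p| ≤ 1 / 4) (hq : |q| ≤ 1 / 4) :
    p ^ 2 + q ^ 2 - τ ≤ ∑ l, (ε l + (if l = i0 then p else 0) + (if l = i1 then q else 0)) ^ 2 ∧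
    ∑ l, (ε l + (if l = i0 then p else 0) + (if l = i1 then q else 0)) ^ 2
      ≤ p ^ 2 + q ^ 2 + 2 * τ := by
  have key : ∀ (e r : ℝ), |e| ≤ τ → |r| ≤ 1 / 4 →
      r ^ 2 - τ / 2 ≤ (e + r) ^ 2 ∧ (e + r) ^ 2 ≤ τ ^ 2 + (r ^ 2 + τ / 2) := by
    intro e r he hr
    have h1 : |e * r| ≤ τ * (1 / 4) := by
      rw [abs_mul]; exact mul_le_mul he hr (abs_nonneg _) hτ.le
    have h2 : e ^ 2 ≤ τ ^ 2 := sq_le_sq' (abs_le.1 he).1 (abs_le.1 he).2
    have h3 := abs_le.1 h1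
    constructor <;> nlinarith [sq_nonneg e, h3.1, h3.2]
  have sq0 : ∀ l, (ε l) ^ 2 ≤ τ ^ 2 := fun l => sq_le_sq' (abs_le.1 (hε l)).1 (abs_le.1 (hε l)).2
  constructor
  · have h : ∀ l ∈ (Finset.univ : Finset (Fin n)),
        (if l = i0 then p ^ 2 - τ / 2 else 0) + (if l = i1 then q ^ 2 - τ / 2 else 0) ≤
        (ε l + (if l = i0 then p else 0) + (if l = i1 then q else 0)) ^ 2 := by
      intro l _
      by_cases h0 : l = i0
      · have h1 : l ≠ i1 := h0 ▸ hi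
        simp only [h0, if_true, if_neg (h0 ▸ h1 : i0 ≠ i1), add_zero]
        exact (key _ _ (hε i0) hp).1
      · by_cases h1 : l = i1
        · simp only [h1, if_true, if_neg hi.symm, add_zero, zero_add]
          exact (key _ _ (hε i1) hq).1
        · simp only [if_neg h0, if_neg h1, add_zero]
          exact sq_nonneg _
    have := Finset.sum_le_sum h
    rw [Finset.sum_add_distrib, Finset.sum_ite_eq', Finset.sum_ite_eq'] at this
    simp only [Finset.mem_univ, if_true] at this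
    linarith
  · have h : ∀ l ∈ (Finset.univ : Finset (Fin n)),
        (ε l + (if l = i0 then p else 0) + (if l = i1 then q else 0)) ^ 2 ≤
        τ ^ 2 + ((if l = i0 then p ^ 2 + τ / 2 else 0) +
          (if l = i1 then q ^ 2 + τ / 2 else 0)) := by
      intro l _
      by_cases h0 : l = i0
      · simp only [h0, if_true, if_neg hi, add_zero]
        exact (key _ _ (hε i0) hp).2
      · by_cases h1 : l = i1
        · simp only [h1, if_true, if_neg hi.symm, add_zero, zero_add]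
          exact (key _ _ (hε i1) hq).2
        · simp only [if_neg h0, if_neg h1, add_zero]
          exact sq0 l
    have := Finset.sum_le_sum h
    rw [Finset.sum_add_distrib, Finset.sum_add_distrib, Finset.sum_ite_eq', Finset.sum_ite_eq',
      Finset.sum_const, Finset.card_univ, Fintype.card_fin, nsmul_eq_mul] at this
    simp only [Finset.mem_univ, if_true] at this
    have h2 : (n : ℝ) * τ ^ 2 ≤ τ := by nlinarith
    linarith

theorem clu_other (H τ h h' D D' q e2 : ℝ) (hH : 2 ≤ H) (hH' : H ≤ 3) (hτ : 0 < τ)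
    (hτ' : τ ≤ 1 / 800) (h1 : H - τ ≤ h) (h2 : h ≤ H + τ) (h3 : H - τ ≤ h') (h4 : h' ≤ H + τ)
    (hD : D ≤ q + 2 * τ) (hD' : q + 49 * τ ≤ D') (hq : 0 ≤ q) (hq' : q ≤ 1 / 16)
    (he : 5.7 ≤ e2) (he' : e2 ≤ 6.3) :
    h' * (D + h ^ 2 + e2) < h * (D' + h' ^ 2 + e2) := by
  have a1 : (H - τ) * (q + 49 * τ) ≤ h * D' :=
    mul_le_mul h1 hD' (by positivity) (by linarith)
  have a2 : h' * D ≤ (H + τ) * (q + 2 * τ) :=
    (mul_le_mul_of_nonneg_left hD (by linarith)).trans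
      (mul_le_mul_of_nonneg_right h4 (by positivity))
  have a3 : 3 ≤ h * h' := by nlinarith
  have a4 : h * h' ≤ 9.1 := by nlinarith
  have a5 : |(h' - h) * (h * h' - e2)| ≤ (2 * τ) * 3.4 := by
    rw [abs_mul]
    refine mul_le_mul (abs_le.2 ⟨by linarith, by linarith⟩)
      (abs_le.2 ⟨by linarith, by linarith⟩) (abs_nonneg _) (by positivity)
  have a6 := (abs_le.1 a5).1
  have a7 : τ * q ≤ τ * (1 / 16) := mul_le_mul_of_nonneg_left hq' hτ.le
  have a8 : τ * τ ≤ τ * (1 / 800) := mul_le_mul_of_nonneg_left hτ' hτ.le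
  have a9 : τ * 2 ≤ τ * H := mul_le_mul_of_nonneg_left hH hτ.le
  nlinarith

theorem clu_eta (τ ha hb Da Db : ℝ) (hτ : 0 < τ) (hτ' : τ ≤ 1 / 800)
    (h1 : 2 - τ ≤ ha) (h2 : ha ≤ 2 + τ) (h3 : 3 - τ ≤ hb) (h4 : hb ≤ 3 + τ)
    (hDa : 0 ≤ Da) (hDa' : Da ≤ 1 / 16 + 2 * τ) (hDb : 0 ≤ Db) (hDb' : Db ≤ 1 / 16 + 2 * τ) :
    ∃ e2 : ℝ, 5.7 ≤ e2 ∧ e2 ≤ 6.3 ∧ hb * (Da + ha ^ 2 + e2) = ha * (Db + hb ^ 2 + e2) ∧
      Da + ha ^ 2 + e2 ≤ 5.2 * ha := by
  have hd : 0.99 ≤ hb - ha := by linarith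
  have hd0 : hb - ha ≠ 0 := by linarith
  have b1 : Db * ha ≤ 0.14 := by nlinarith
  have b2 : Da * hb ≤ 0.2 := by nlinarith
  have b3 : 0 ≤ Db * ha := mul_nonneg hDb (by linarith)
  have b4 : 0 ≤ Da * hb := mul_nonneg hDa (by linarith)
  have b5 : 5.99 ≤ ha * hb := by nlinarith
  have b6 : ha * hb ≤ 6.01 := by nlinarith
  have c1 : (Db * ha - Da * hb) / (hb - ha) ≤ 0.2 := by
    rw [div_le_iff₀ (by linarith)]; nlinarith
  have c2 : -0.25 ≤ (Db * ha - Da * hb) / (hb - ha) := by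
    rw [le_div_iff₀ (by linarith)]; nlinarith
  refine ⟨ha * hb + (Db * ha - Da * hb) / (hb - ha), by linarith, by linarith, ?_, ?_⟩
  · field_simp
    ring
  · nlinarith

theorem clu_cosh (c0 : Fin n → ℝ) (s e : ℝ) (hs : 0 < s) (he : 0 < e) (x : Hyp n) :
    coshDist (⟨(c0, s * e), mul_pos hs he⟩ : Hyp n) x =
      (∑ l, ((x.1.1 l - c0 l) / s) ^ 2 + (x.1.2 / s) ^ 2 + e ^ 2) / (2 * e * (x.1.2 / s)) := by
  have hx := x.2
  have h : ∑ l, ((x.1.1 l - c0 l) / s) ^ 2 = (∑ l, (c0 l - x.1.1 l) ^ 2) / s ^ 2 := by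
    rw [Finset.sum_div]
    refine Finset.sum_congr rfl fun l _ => ?_
    rw [div_pow]; ring
  rw [h]
  simp only [coshDist]
  field_simp
  ring

theorem clu_lt (e h h' P P' : ℝ) (he : 0 < e) (hh : 0 < h) (hh' : 0 < h')
    (hlt : h' * P < h * P') : P / (2 * e * h) < P' / (2 * e * h') := by
  rw [div_lt_div_iff₀ (by positivity) (by positivity)]
  nlinarith

theorem clu_idx (k : ℕ) (hk : 1 ≤ k) (i : Fin k) :
    0 ≤ ((i : ℕ) : ℝ) / (4 * k) ∧ ((i : ℕ) : ℝ) / (4 * k) ≤ 1 / 4 := by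
  have hk' : (0 : ℝ) < k := by exact_mod_cast hk
  have hi : ((i : ℕ) : ℝ) ≤ k := by exact_mod_cast i.2.le
  refine ⟨by positivity, ?_⟩
  rw [div_le_iff₀ (by positivity)]
  linarith

theorem clu_gap (k : ℕ) (hk : 1 ≤ k) (τ : ℝ) (hτk : τ * (800 * (k : ℝ) ^ 2) ≤ 1) (i i' : Fin k)
    (h : i' ≠ i) : 50 * τ ≤ (((i' : ℕ) : ℝ) / (4 * k) - ((i : ℕ) : ℝ) / (4 * k)) ^ 2 := by
  have hk' : (0 : ℝ) < k := by exact_mod_cast hk
  have h1 : (1 : ℝ) ≤ (((i' : ℕ) : ℝ) - ((i : ℕ) : ℝ)) ^ 2 := by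
    have hne : ((i' : ℕ) : ℤ) - ((i : ℕ) : ℤ) ≠ 0 := by
      intro h0
      apply h
      apply Fin.ext
      omega
    have h2 : (1 : ℤ) ≤ (((i' : ℕ) : ℤ) - ((i : ℕ) : ℤ)) ^ 2 := by
      have := sq_pos_of_ne_zero hne
      omega
    exact_mod_cast h2
  rw [← sub_div, div_pow, le_div_iff₀ (by positivity)]
  nlinarith

theorem clu_box (c : Fin n → ℝ) (s τ H : ℝ) (hs : 0 < s) (x : Hyp n)
    (hx : x ∈ CBox c (s * τ) (s * (H - τ)) (s * (H + τ))) :
    (∀ l, |(x.1.1 l - c l) / s| ≤ τ) ∧ H - τ ≤ x.1.2 / s ∧ x.1.2 / s ≤ H + τ := by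
  obtain ⟨h1, h2, h3⟩ := hx
  refine ⟨fun l => ?_, ?_, ?_⟩
  · rw [abs_div, abs_of_pos hs, div_le_iff₀ hs]
    have := h1 l
    linarith
  · rw [le_div_iff₀ hs]; linarith
  · rw [div_le_iff₀ hs]; linarith

theorem bClu : BClu := by
  intro n i0 i1 hi t s τ k hs hτ hk hτk hn Z c hc hZ i j
  have hk' : (1 : ℝ) ≤ k := by exact_mod_cast hk
  have hτ' : τ ≤ 1 / 800 := by
    have h1 : (1 : ℝ) ≤ (k : ℝ) ^ 2 := one_le_pow₀ hk'
    have h2 := mul_le_mul_of_nonneg_left h1 hτ.le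
    linarith
  set al : Fin k → ℝ := fun i => ((i : ℕ) : ℝ) / (4 * k) with hal
  have hal0 : ∀ i, 0 ≤ al i := fun i => (clu_idx k hk i).1
  have hal1 : ∀ i, al i ≤ 1 / 4 := fun i => (clu_idx k hk i).2
  have halsq : ∀ i, al i ^ 2 ≤ 1 / 16 := fun i => by nlinarith [hal0 i, hal1 i]
  set c0 : Fin n → ℝ := fun l =>
    t l + (if l = i0 then s * al i else 0) + (if l = i1 then s * al j else 0) with hc0
  set D : Hyp n → ℝ := fun x => ∑ l, ((x.1.1 l - c0 l) / s) ^ 2 with hD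
  have hD0 : ∀ x, 0 ≤ D x := fun x => Finset.sum_nonneg fun _ _ => sq_nonneg _
  have hA : ∀ i' : Fin k, ((al i' - al i) ^ 2 + al j ^ 2 - τ ≤ D (c (Sum.inl i')) ∧
      D (c (Sum.inl i')) ≤ (al i' - al i) ^ 2 + al j ^ 2 + 2 * τ) ∧
      2 - τ ≤ (c (Sum.inl i')).1.2 / s ∧ (c (Sum.inl i')).1.2 / s ≤ 2 + τ := by
    intro i'
    obtain ⟨h1, h2⟩ := clu_box _ s τ 2 hs _ (hc (Sum.inl i'))
    refine ⟨?_, h2⟩
    have := clu_sum i0 i1 hi _ τ (al i' - al i) (-al j) hτ hn h1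
      (abs_le.2 ⟨by linarith [hal0 i', hal1 i], by linarith [hal0 i, hal1 i']⟩)
      (abs_le.2 ⟨by linarith [hal1 j], by linarith [hal0 j]⟩)
    have e : D (c (Sum.inl i')) = ∑ l, (((c (Sum.inl i')).1.1 l -
        (t l + if l = i0 then s * (((i' : ℕ) : ℝ) / (4 * k)) else 0)) / s +
        (if l = i0 then al i' - al i else 0) + (if l = i1 then -al j else 0)) ^ 2 := by
      refine Finset.sum_congr rfl fun l _ => ?_
      congr 1
      simp only [hc0, hal]
      split_ifs <;> field_simp <;> ring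
    rw [e]
    rw [neg_sq] at this
    exact this
  have hB : ∀ j' : Fin k, (al i ^ 2 + (al j' - al j) ^ 2 - τ ≤ D (c (Sum.inr j')) ∧
      D (c (Sum.inr j')) ≤ al i ^ 2 + (al j' - al j) ^ 2 + 2 * τ) ∧
      3 - τ ≤ (c (Sum.inr j')).1.2 / s ∧ (c (Sum.inr j')).1.2 / s ≤ 3 + τ := by
    intro j'
    obtain ⟨h1, h2⟩ := clu_box _ s τ 3 hs _ (hc (Sum.inr j'))
    refine ⟨?_, h2⟩
    have := clu_sum i0 i1 hi _ τ (-al i) (al j' - al j) hτ hn h1
      (abs_le.2 ⟨by linarith [hal1 i], by linarith [hal0 i]⟩)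
      (abs_le.2 ⟨by linarith [hal0 j', hal1 j], by linarith [hal0 j, hal1 j']⟩)
    have e : D (c (Sum.inr j')) = ∑ l, (((c (Sum.inr j')).1.1 l -
        (t l + if l = i1 then s * (((j' : ℕ) : ℝ) / (4 * k)) else 0)) / s +
        (if l = i0 then -al i else 0) + (if l = i1 then al j' - al j else 0)) ^ 2 := by
      refine Finset.sum_congr rfl fun l _ => ?_
      congr 1
      simp only [hc0, hal]
      split_ifs <;> field_simp <;> ring
    rw [e]
    rw [neg_sq] at this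
    exact this
  obtain ⟨⟨-, a2⟩, a3, a4⟩ := hA i
  obtain ⟨⟨-, b2⟩, b3, b4⟩ := hB j
  rw [sub_self] at a2 b2
  obtain ⟨e2, he1, he2, he3, he4⟩ := clu_eta τ _ _ (D (c (Sum.inl i))) (D (c (Sum.inr j)))
    hτ hτ' a3 a4 b3 b4 (hD0 _) (by linarith [halsq j]) (hD0 _) (by linarith [halsq i])
  have he : 0 < Real.sqrt e2 := Real.sqrt_pos.2 (by linarith)
  have hsq : Real.sqrt e2 ^ 2 = e2 := Real.sq_sqrt (by linarith)
  have hpos : ∀ x : Hyp n, 0 < x.1.2 / s := fun x => div_pos x.2 hs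
  have hcosh : ∀ x : Hyp n, coshDist (⟨(c0, s * Real.sqrt e2), mul_pos hs he⟩ : Hyp n) x =
      (D x + (x.1.2 / s) ^ 2 + e2) / (2 * Real.sqrt e2 * (x.1.2 / s)) := by
    intro x
    rw [clu_cosh c0 s _ hs he x, hsq]
  have heq : coshDist (⟨(c0, s * Real.sqrt e2), mul_pos hs he⟩ : Hyp n) (c (Sum.inl i)) =
      coshDist (⟨(c0, s * Real.sqrt e2), mul_pos hs he⟩ : Hyp n) (c (Sum.inr j)) := by
    rw [hcosh, hcosh, div_eq_div_iff (by have := hpos (c (Sum.inl i)); positivity)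
      (by have := hpos (c (Sum.inr j)); positivity)]
    linear_combination (2 * Real.sqrt e2) * he3
  refine ⟨⟨(c0, s * Real.sqrt e2), mul_pos hs he⟩, heq, fun z hz hza hzb => ?_⟩
  by_cases hBB : z ∈ BB t s
  · obtain ⟨w, rfl⟩ := hZ z hz hBB
    rcases w with i' | j'
    · have hne : i' ≠ i := fun h => hza (by rw [h])
      obtain ⟨⟨p1, -⟩, p3, p4⟩ := hA i'
      have g := clu_gap k hk τ hτk i i' hne
      rw [hcosh, hcosh]
      refine clu_lt _ _ _ _ _ he (hpos _) (hpos _) ?_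
      exact clu_other 2 τ _ _ _ _ (al j ^ 2) e2 le_rfl (by norm_num) hτ hτ' a3 a4 p3 p4
        (by linarith) (by simp only [hal] at p1 ⊢; linarith) (sq_nonneg _) (halsq j) he1 he2
    · have hne : j' ≠ j := fun h => hzb (by rw [h])
      obtain ⟨⟨p1, -⟩, p3, p4⟩ := hB j'
      have g := clu_gap k hk τ hτk j j' hne
      rw [heq, hcosh, hcosh]
      refine clu_lt _ _ _ _ _ he (hpos _) (hpos _) ?_
      exact clu_other 3 τ _ _ _ _ (al i ^ 2) e2 (by norm_num) le_rfl hτ hτ' b3 b4 p3 p4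
        (by linarith) (by simp only [hal] at p1 ⊢; linarith) (sq_nonneg _) (halsq i) he1 he2
  · have hz5 : 5.2 * (z.1.2 / s) < D z + (z.1.2 / s) ^ 2 + e2 := by
      have d0 := hD0 z
      have hp := hpos z
      by_cases q1 : s ≤ z.1.2
      · by_cases q2 : z.1.2 ≤ 4 * s
        · have q3 : ∃ l, 2 * s < |z.1.1 l - t l| := by
            by_contra hcon
            push Not at hcon
            exact hBB ⟨hcon, q1, q2⟩
          obtain ⟨l, hl⟩ := q3
          have q4 : |c0 l - t l| ≤ s * (1 / 4) := by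
            have u1 := mul_le_mul_of_nonneg_left (hal1 i) hs.le
            have u2 := mul_le_mul_of_nonneg_left (hal1 j) hs.le
            have u3 := mul_nonneg hs.le (hal0 i)
            have u4 := mul_nonneg hs.le (hal0 j)
            simp only [hc0]
            by_cases h0 : l = i0
            · simp only [h0, if_true, if_neg hi]
              exact abs_le.2 ⟨by linarith, by linarith⟩
            · by_cases h1 : l = i1
              · simp only [h1, if_true, if_neg hi.symm]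
                exact abs_le.2 ⟨by linarith, by linarith⟩
              · simp only [if_neg h0, if_neg h1]
                exact abs_le.2 ⟨by linarith, by linarith⟩
          have q5 : 1.75 ≤ |(z.1.1 l - c0 l) / s| := by
            rw [abs_div, abs_of_pos hs, le_div_iff₀ hs]
            have := abs_sub_le (z.1.1 l) (c0 l) (t l)
            linarith
          have q6 : 3 ≤ ((z.1.1 l - c0 l) / s) ^ 2 := by
            rw [← sq_abs]; nlinarith
          have q7 : ((z.1.1 l - c0 l) / s) ^ 2 ≤ D z :=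
            Finset.single_le_sum (f := fun l => ((z.1.1 l - c0 l) / s) ^ 2)
              (fun _ _ => sq_nonneg _) (Finset.mem_univ l)
          nlinarith [sq_nonneg (z.1.2 / s - 2.6)]
        · have : 4 < z.1.2 / s := by rw [lt_div_iff₀ hs]; linarith
          nlinarith
      · have : z.1.2 / s < 1 := by rw [div_lt_iff₀ hs]; linarith
        nlinarith
    rw [hcosh, hcosh]
    refine clu_lt _ _ _ _ _ he (hpos _) (hpos _) ?_
    have r1 := mul_le_mul_of_nonneg_left he4 (hpos z).le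
    have r2 := mul_lt_mul_of_pos_left hz5 (hpos (c (Sum.inl i)))
    nlinarith

end PV2c
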