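import Pool.Agent.P.MP_2c2d1a_pr.Blocks

/-! Connection along a geodesic through strict neighbours. -/

open Filter Topology
open scoped unitInterval

namespace PV2c

variable {n : ℕ}

theorem conn_cont (z : Hyp n) : Continuous fun y : Hyp n => coshDist y z := by
  unfold coshDist
  refine continuous_const.add (Continuous.div (by fun_prop) (by fun_prop) fun y => ?_)
  exact (mul_pos (mul_pos two_pos y.2) z.2).ne'

theorem conn_geo (x y : Hyp n) : Continuous (geo x y) := by
  unfold geo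
  refine Continuous.subtype_mk ?_ _
  fun_prop

theorem conn_zero (x y : Hyp n) : geo x y 0 = x := by
  refine Subtype.ext (Prod.ext (funext fun l => ?_) ?_)
  · simp [geo]
  · simp [geo, Real.sqrt_sq x.2.le]

theorem conn_one (x y : Hyp n) : geo x y 1 = y := by
  refine Subtype.ext (Prod.ext (funext fun l => ?_) ?_)
  · simp [geo]
  · simp [geo, Real.sqrt_sq y.2.le]

theorem conn_lt {x z : Hyp n} (h : z ≠ x) : coshDist x x < coshDist x z := by
  have e : coshDist x x = 1 := by simp [coshDist]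
  rw [e, coshDist, lt_add_iff_pos_right]
  refine div_pos ?_ (mul_pos (mul_pos two_pos x.2) z.2)
  have h1 : 0 ≤ ∑ l, (x.1.1 l - z.1.1 l) ^ 2 := Finset.sum_nonneg fun _ _ => sq_nonneg _
  by_contra h0
  have h2 := sq_nonneg (x.1.2 - z.1.2)
  have h3 : ∑ l, (x.1.1 l - z.1.1 l) ^ 2 = 0 := by linarith
  have h4 : (x.1.2 - z.1.2) ^ 2 = 0 := by linarith
  refine h (Subtype.ext (Prod.ext (funext fun l => ?_) ?_))
  · have := (Finset.sum_eq_zero_iff_of_nonneg fun _ _ => sq_nonneg _).1 h3 l (Finset.mem_univ l)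
    linarith [pow_eq_zero_iff two_ne_zero |>.1 this]
  · linarith [pow_eq_zero_iff two_ne_zero |>.1 h4]

theorem bConn : BGen → BConn := by
  intro hG n Z F hF hFZ x hx a ha O R hO hvac S hxS hS
  by_contra haS
  have hO' : ∀ᶠ y in 𝓝 a, ∀ z ∈ F, z ≠ a → coshDist y a < coshDist y z :=
    (eventually_all_finite hF).2 fun z _ => by
      by_cases e : z = a
      · exact .of_forall fun _ h => absurd e h
      · exact (((conn_cont a).continuousAt.eventually_lt (conn_cont z).continuousAt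
          (conn_lt e))).mono fun _ h _ => h
  obtain ⟨y, ⟨hy1, hy2⟩, hgen⟩ := hG n F hF x a _ (inter_mem hO hO')
  let N : Hyp n → Set I := fun p =>
    {θ | ∀ z ∈ F, coshDist (geo x y θ) p ≤ coshDist (geo x y θ) z}
  have hN : ∀ p, IsClosed (N p) := fun p => by
    have : N p = ⋂ z ∈ F, {θ | coshDist (geo x y θ) p ≤ coshDist (geo x y θ) z} := by
      ext θ
      simp [N]
    rw [this]
    exact isClosed_biInter fun z _ => isClosed_le ((conn_cont p).comp (conn_geo x y))
      ((conn_cont z).comp (conn_geo x y))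
  have hle : ∀ {u z : Hyp n}, coshDist u u ≤ coshDist u z := fun {u z} => by
    by_cases e : z = u
    · rw [e]
    · exact (conn_lt e).le
  obtain ⟨θ, -, h1, h2⟩ := isPreconnected_closed_iff.1 (isPreconnected_univ (α := I))
    (⋃ p ∈ F ∩ S, N p) (⋃ p ∈ F \ S, N p)
    ((hF.inter_of_left S).isClosed_biUnion fun p _ => hN p)
    ((hF.subset Set.sdiff_subset).isClosed_biUnion fun p _ => hN p)
    (fun θ _ => by
      obtain ⟨p, hp, hm⟩ := Set.exists_min_image F (fun z => coshDist (geo x y θ) z) hF ⟨x, hx⟩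
      by_cases e : p ∈ S
      · exact .inl (Set.mem_biUnion (⟨hp, e⟩ : p ∈ F ∩ S) hm)
      · exact .inr (Set.mem_biUnion (⟨hp, e⟩ : p ∈ F \ S) hm))
    ⟨0, trivial, Set.mem_biUnion (⟨hx, hxS⟩ : x ∈ F ∩ S) fun z _ => by
      rw [conn_zero]
      exact hle⟩
    ⟨1, trivial, Set.mem_biUnion (⟨ha, haS⟩ : a ∈ F \ S) fun z hz => by
      rw [conn_one]
      by_cases e : z = a
      · rw [e]
      · exact (hy2 z hz e).le⟩
  obtain ⟨p, ⟨hpF, hpS⟩, hp⟩ := Set.mem_iUnion₂.1 h1
  obtain ⟨q, ⟨hqF, hqS⟩, hq⟩ := Set.mem_iUnion₂.1 h2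
  have hpq : p ≠ q := fun e => hqS (e ▸ hpS)
  have hθ : 0 < (θ : ℝ) := lt_of_le_of_ne θ.2.1 fun e => by
    have e0 : θ = 0 := Subtype.ext e.symm
    have := hq x hx
    rw [e0, conn_zero] at this
    exact absurd this (not_le.2 (conn_lt fun e1 => hqS (e1 ▸ hxS)))
  have e1 := le_antisymm (hp q hqF) (hq p hpF)
  refine hqS (hS p hpF q hqF hpS hpq ⟨geo x y θ, e1, fun z hz h3 h4 => ?_⟩)
  obtain ⟨⟨w, hw, hwR⟩, h5⟩ := hvac y hy1 θ
  by_cases e : z ∈ F
  · exact lt_of_le_of_ne (hp z e) (hgen θ hθ p hpF q hqF z e hpq h3.symm h4.symm e1)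
  · exact ((hp w (h5 w hw hwR)).trans hwR).trans_lt (not_le.1 fun h => e (h5 z hz h))

end PV2c
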