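import Mathlib

/-!
Definitions for MP_2c2d1a_pr: hyperbolic space of dimension d = n + 1 in the upper half-space
model, Poisson point processes, Voronoi cells, the dual graph and anchored expansion.
-/

open MeasureTheory Filter Topology
open scoped ENNReal

namespace PV2c

/-- Hyperbolic space of dimension `n + 1`: points `(u, h)` with `u` in `R^n` and `h > 0`. -/
abbrev Hyp (n : ℕ) := {p : (Fin n → ℝ) × ℝ // 0 < p.2}

variable {n : ℕ}

/-- The hyperbolic cosine of the hyperbolic distance in the upper half-space model. -/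
noncomputable def coshDist (x y : Hyp n) : ℝ :=
  1 + (∑ l, (x.1.1 l - y.1.1 l) ^ 2 + (x.1.2 - y.1.2) ^ 2) / (2 * x.1.2 * y.1.2)

/-- The hyperbolic distance. -/
noncomputable def hdist (x y : Hyp n) : ℝ := Real.arcosh (coshDist x y)

/-- The Riemannian volume `h^(-(n+1)) du dh`. -/
noncomputable def hvol (n : ℕ) : Measure (Hyp n) :=
  (Measure.comap Subtype.val (volume : Measure ((Fin n → ℝ) × ℝ))).withDensity
    fun p => ENNReal.ofReal (1 / p.1.2 ^ (n + 1))

/-- The Poisson probability of the value `k` for the mean `m`. -/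
noncomputable def poi (m : ℝ) (k : ℕ) : ℝ := Real.exp (-m) * m ^ k / (k.factorial : ℝ)

/-- `Z` is a Poisson point process with intensity `μ`: the counts are random variables, and the
counts in disjoint measurable sets of finite intensity are independent Poisson variables. -/
structure IsPPP {Ω X : Type*} [MeasurableSpace Ω] [MeasurableSpace X] (P : Measure Ω)
    (Z : Ω → Set X) (μ : Measure X) : Prop where
  meas : ∀ A : Set X, MeasurableSet A → ∀ k : ℕ, MeasurableSet {ω | (Z ω ∩ A).encard = k}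
  law : ∀ (m : ℕ) (A : Fin m → Set X) (k : Fin m → ℕ), (∀ i, MeasurableSet (A i)) →
    (∀ i, μ (A i) < ⊤) → (∀ i j, i ≠ j → Disjoint (A i) (A j)) →
    P {ω | ∀ i, (Z ω ∩ A i).encard = k i} = ∏ i, ENNReal.ofReal (poi (μ (A i)).toReal (k i))

/-- The Voronoi cell of `x`. -/
def cell (Z : Set (Hyp n)) (x : Hyp n) : Set (Hyp n) :=
  {y | ∀ x' ∈ Z, hdist y x ≤ hdist y x'}

/-- The bisector of `x` and `x'`, a hyperplane when `x ≠ x'`. -/
def bisector (x x' : Hyp n) : Set (Hyp n) := {y | hdist y x = hdist y x'}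

/-- The two cells meet in a face of dimension `d - 1`: their intersection, a subset of the
bisector, contains a nonempty relatively open piece of the bisector. -/
def Face (Z : Set (Hyp n)) (x x' : Hyp n) : Prop :=
  ∃ U : Set (Hyp n), IsOpen U ∧ (U ∩ bisector x x').Nonempty ∧
    U ∩ bisector x x' ⊆ cell Z x ∩ cell Z x'

theorem Face.symm {Z : Set (Hyp n)} {x x' : Hyp n} (h : Face Z x x') : Face Z x' x := by
  obtain ⟨U, hU, hne, hsub⟩ := h
  have e : bisector x' x = bisector x x' := by
    ext y; simp only [bisector, Set.mem_ofPred_eq]; exact eq_comm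
  exact ⟨U, hU, e ▸ hne, by rw [e, Set.inter_comm (cell Z x')]; exact hsub⟩

/-- The dual graph of the Voronoi tessellation of `Z`. -/
def dual (Z : Set (Hyp n)) : SimpleGraph Z where
  Adj x x' := x ≠ x' ∧ Face Z x.1 x'.1
  symm := ⟨fun _ _ h => ⟨h.1.symm, h.2.symm⟩⟩
  loopless := ⟨fun _ h => h.1 rfl⟩

/-- `|S|_E`, the sum of the degrees. -/
noncomputable def evol {V : Type*} (G : SimpleGraph V) (S : Finset V) : ℕ∞ :=
  ∑ v ∈ S, (G.neighborSet v).encard

/-- The number of edges with exactly one endpoint in `S`. -/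
noncomputable def ebdry {V : Type*} (G : SimpleGraph V) (S : Finset V) : ℕ∞ :=
  {e ∈ G.edgeSet | ∃ a b, e = s(a, b) ∧ a ∈ S ∧ b ∉ S}.encard

/-- The infimum of `|∂S| / |S|_E` over connected `S` containing `ρ` with `m ≤ |S|_E < ∞`. -/
noncomputable def isoInf {V : Type*} (G : SimpleGraph V) (ρ : V) (m : ℕ) : ℝ≥0∞ :=
  ⨅ (S : Finset V) (_ : ρ ∈ S) (_ : (G.induce (S : Set V)).Connected)
    (_ : (m : ℕ∞) ≤ evol G S) (_ : evol G S < ⊤), (ebdry G S : ℝ≥0∞) / (evol G S : ℝ≥0∞)

end PV2c
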