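import Pool.Agent.P.MP_2c2d1a_pr.Geo

/-! The deterministic assembly. -/

open MeasureTheory Filter Topology
open scoped ENNReal unitInterval

namespace PV2c

variable {n : ℕ}

theorem det_bb_sub (t : Fin n → ℝ) (N : ℕ) : BB t ((1 / 2) ^ N) ⊆ Fat t N 4 := by
  have hp : (0 : ℝ) < (1 / 2) ^ N := by positivity
  exact cbox_mono (by linarith) (by linarith) le_rfl

theorem det_root {t : Fin n → ℝ} (ht : ∀ l, |t l| ≤ 5) {R0 : ℝ} (hR : 1 ≤ R0) {x : Hyp n}
    (hx : coshDist (orig n) x ≤ R0) : x ∈ Fat t 0 (4 * R0 + 32) := by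
  have h0 : orig n ∈ Fat (0 : Fin n → ℝ) 0 1 := by
    refine ⟨fun l => ?_, ?_, ?_⟩ <;> simp [orig]
  obtain ⟨h1, h2, h3⟩ := fat_closure le_rfl h0 hx
  simp only [pow_zero, mul_one, Pi.zero_apply, sub_zero] at h1 h2 h3
  refine ⟨fun l => ?_, ?_, ?_⟩
  · simp only [pow_zero, mul_one]
    have := abs_sub (x.1.1 l) (t l)
    linarith [h1 l, ht l]
  · simp only [pow_zero]
    refine le_trans ?_ h2
    gcongr
    linarith
  · simp only [pow_zero, mul_one]
    linarith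

theorem det_encard_biUnion {α : Type} (s : Finset ℕ) (A : ℕ → Set α) (K : ℕ)
    (h : ∀ j ∈ s, (A j).encard ≤ K) : (⋃ j ∈ s, A j).encard ≤ ((s.card * K : ℕ) : ℕ∞) := by
  classical
  induction s using Finset.induction_on with
  | empty => simp
  | insert a s ha ih =>
    rw [Finset.set_biUnion_insert, Finset.card_insert_of_notMem ha]
    refine (Set.encard_union_le _ _).trans ?_
    have h1 := h a (Finset.mem_insert_self _ _)
    have h2 := ih fun j hj => h j (Finset.mem_insert_of_mem hj)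
    refine (add_le_add h1 h2).trans (le_of_eq ?_)
    push_cast
    ring

theorem bDet : BClu → BDis → BNet → BPath → BConn → BNbr → BGraph → BDet := by
  intro hClu hDis hNet hPath hConn hNbr hGraph n i0 i1 h01 Z t N k T K ρ τ R0 ht hk hτ hτk hnτ
    hρ hR0 hT hG
  obtain ⟨g1, g2, g3, g4⟩ := hG
  set s : ℝ := (1 / 2) ^ N with hs
  have hs0 : 0 < s := by positivity
  set R : ℝ := 1 + (n * (ρ + 1) ^ 2 + 1) / 2 with hR
  set A : ℝ := 4 * R0 + 32 with hA
  set T0 : ℝ := 4 * (n + 1) * A ^ 3 with hT0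
  set T1 : ℝ := 4 * R * T0 with hT1
  have hn0 : (0 : ℝ) ≤ n := Nat.cast_nonneg n
  have hq : 0 ≤ (n : ℝ) * (ρ + 1) ^ 2 := by positivity
  have hR1 : 1 ≤ R := by rw [hR]; linarith
  have hA1 : 32 ≤ A := by rw [hA]; linarith
  have hA3 : A ≤ A ^ 3 := le_self_pow₀ (by linarith) (by norm_num)
  have hAT0 : A ≤ T0 := by rw [hT0]; nlinarith
  have hT01 : T0 ≤ T1 := by rw [hT1]; nlinarith
  have hT1T' : 16 * (R + 2) ^ 2 * T1 ≤ T := by
    refine le_trans ?_ hT
    have e1 : R + 2 ≤ n * (ρ + 1) ^ 2 + 4 := by rw [hR]; linarith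
    have e2 : (R + 2) ^ 2 * R ≤ (n * (ρ + 1) ^ 2 + 4) ^ 3 := by
      calc (R + 2) ^ 2 * R ≤ (R + 2) ^ 2 * (R + 2) := by gcongr; linarith
        _ = (R + 2) ^ 3 := by ring
        _ ≤ _ := by gcongr
    calc 16 * (R + 2) ^ 2 * T1 = 256 * (n + 1) * ((R + 2) ^ 2 * R) * A ^ 3 := by
          rw [hT1, hT0]; ring
      _ ≤ _ := by gcongr
  have hT1T : T1 ≤ T := by
    refine le_trans ?_ hT1T'
    have : 1 ≤ 16 * (R + 2) ^ 2 := by nlinarith
    nlinarith
  have hT11 : 1 ≤ T1 := by linarith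
  have hTn : 1 ≤ T := by
    have : (1 : ℝ) ≤ T := by linarith
    exact_mod_cast this
  obtain ⟨hWB, hWD⟩ := (hDis n i0 i1).1 t s τ k hs0 hτ hk hτk
  -- the cluster points
  have hc : ∀ w, ∃ p, Z ∩ WW i0 i1 t s τ k w = {p} := fun w => Set.encard_eq_one.1 (g1 w)
  choose c hc using hc
  have hcZ : ∀ w, c w ∈ Z ∧ c w ∈ WW i0 i1 t s τ k w := fun w => by
    have : c w ∈ Z ∩ WW i0 i1 t s τ k w := by rw [hc w]; rfl
    exact this
  have hZB : ∀ z ∈ Z, z ∈ BB t s → ∃ w, z = c w := by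
    intro z hz hzB
    by_contra hne
    rw [Set.encard_eq_zero] at g2
    have : z ∈ Z ∩ (BB t s \ ⋃ w, WW i0 i1 t s τ k w) := by
      refine ⟨hz, hzB, ?_⟩
      intro hu
      obtain ⟨w, hw⟩ := Set.mem_iUnion.1 hu
      have : z ∈ Z ∩ WW i0 i1 t s τ k w := ⟨hz, hw⟩
      rw [hc w] at this
      exact hne ⟨w, this⟩
    rw [g2] at this
    exact this
  have hinj : Function.Injective c := by
    intro w w' h
    by_contra hne
    exact Set.disjoint_left.1 (hWD w w' hne) (hcZ w).2 (h ▸ (hcZ w').2)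
  have hstrict := hClu n i0 i1 h01 t s τ k hs0 hτ hk hτk hnτ Z c (fun w => (hcZ w).2) hZB
  have hvac : ∀ j ≤ N, Vac Z (Fat t j T) R :=
    (hNet n N T hTn).2 t ρ Z hρ fun a ha => (g3 a ha).mono fun _ h => ⟨h.1, h.2.1⟩
  have hrc : (Set.range c).encard ≤ ((2 * k : ℕ) : ℕ∞) := by
    rw [← Set.image_univ]
    refine (Set.encard_image_le _ _).trans (le_of_eq ?_)
    rw [Set.encard_univ, ENat.card_eq_coe_fintype_card]
    simp [two_mul]
  have hcnt : ∀ j ≤ N, (Z ∩ (Fat t j T \ BB t s)).encard ≤ K := fun j hj =>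
    (g4 j (Finset.mem_range.2 (Nat.lt_succ_of_le hj))).le
  have hfin : ∀ j ≤ N, (Z ∩ Fat t j T).Finite := by
    intro j hj
    have h1 : (Z ∩ (Fat t j T \ BB t s)).Finite := Set.finite_of_encard_le_coe (hcnt j hj)
    refine (h1.union (Set.finite_range c)).subset fun z hz => ?_
    by_cases hb : z ∈ BB t s
    · obtain ⟨w, rfl⟩ := hZB z hz.1 hb
      exact Or.inr ⟨w, rfl⟩
    · exact Or.inl ⟨hz.1, hz.2, hb⟩
  set F0 : Set (Hyp n) := {y | y ∈ Z ∧ ∃ j ≤ N, y ∈ Fat t j T1} with hF0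
  have hF0card : F0.encard ≤ (((N + 1) * K + 2 * k : ℕ) : ℕ∞) := by
    have h1 : F0 ⊆ (⋃ j ∈ Finset.range (N + 1), Z ∩ (Fat t j T \ BB t s)) ∪ Set.range c := by
      rintro z ⟨hz, j, hj, hzj⟩
      by_cases hb : z ∈ BB t s
      · obtain ⟨w, rfl⟩ := hZB z hz hb
        exact Or.inr ⟨w, rfl⟩
      · refine Or.inl (Set.mem_biUnion (Finset.mem_coe.2 (Finset.mem_range.2
          (Nat.lt_succ_of_le hj))) ⟨hz, fat_mono (by linarith) hT1T hzj, hb⟩)
    refine (Set.encard_le_encard h1).trans ((Set.encard_union_le _ _).trans ?_)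
    have h2 := det_encard_biUnion (Finset.range (N + 1)) (fun j => Z ∩ (Fat t j T \ BB t s)) K
      fun j hj => hcnt j (Nat.lt_succ_iff.1 (Finset.mem_range.1 hj))
    rw [Finset.card_range] at h2
    refine (add_le_add h2 hrc).trans (le_of_eq ?_)
    push_cast
    ring
  have hF0fin : F0.Finite := Set.finite_of_encard_le_coe hF0card
  have hcF : ∀ w, c w ∈ F0 := fun w => ⟨(hcZ w).1, N, le_rfl,
    fat_mono (by norm_num) (by linarith) (det_bb_sub t N (hWB w (hcZ w).2))⟩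
  have hadj : ∀ p ∈ F0, ∀ q, Strict Z p q → Face Z p q := by
    rintro p ⟨hp, j, hj, hpj⟩ q hpq
    exact (hNbr n Z t j T1 T R hT11 hR1 hT1T' (hvac j hj) p hp hpj q).2 (hfin j hj) hpq
  let c' : Fin k ⊕ Fin k → Z := fun w => ⟨c w, (hcZ w).1⟩
  let F : Set Z := {v | v.1 ∈ F0}
  let k0 : Fin k := ⟨0, hk⟩
  refine ⟨c' (Sum.inl k0), fun ρ0 hρ0 => ?_⟩
  have hroot : ρ0.1 ∈ Fat t 0 A := det_root ht hR0 hρ0
  have hρF : ρ0.1 ∈ F0 := ⟨ρ0.2, 0, Nat.zero_le _, fat_mono (by linarith) (by linarith) hroot⟩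
  refine hGraph Z (dual Z) F ((N + 1) * K + 2 * k) K k c' ?_ ?_ (fun w => hcF w) ?_ ?_ ρ0 hρF k0 ?_
  · intro w w' h
    exact hinj (congrArg Subtype.val h)
  · rw [← Subtype.val_injective.encard_image]
    refine le_trans (Set.encard_le_encard ?_) hF0card
    rintro _ ⟨v, hv, rfl⟩
    exact hv
  · intro i j
    refine ⟨fun h => ?_, hadj _ (hcF _) _ (hstrict i j)⟩
    have := hinj (congrArg Subtype.val h)
    simp at this
  · rintro x ⟨hx, j, hj, hxj⟩
    rw [← Subtype.val_injective.encard_image]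
    refine le_trans (Set.encard_le_encard ?_) (hcnt j hj)
    rintro _ ⟨v, ⟨hv, hvc⟩, rfl⟩
    refine ⟨v.2, (hNbr n Z t j T1 T R hT11 hR1 hT1T' (hvac j hj) x.1 hx hxj v.1).1 hv.2, ?_⟩
    intro hb
    obtain ⟨w, hw⟩ := hZB v.1 v.2 hb
    exact hvc ⟨w, Subtype.ext hw.symm⟩
  · intro S hρS hS
    have hO : {y | coshDist (c (Sum.inl k0)) y < 2} ∈ 𝓝 (c (Sum.inl k0)) := by
      refine (isOpen_lt (continuous_coshDist_right _) continuous_const).mem_nhds ?_
      simp [coshDist_self]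
    have key := hConn n Z F0 hF0fin (fun _ h => h.1) ρ0.1 hρF (c (Sum.inl k0)) (hcF _) _ R hO
      ?_ (Subtype.val '' S) ⟨ρ0, hρS, rfl⟩ ?_
    · obtain ⟨v, hv, hv'⟩ := key
      have : v = c' (Sum.inl k0) := Subtype.ext hv'
      exact this ▸ hv
    · intro y hy θ
      have hy1 : y ∈ Fat t N (4 * 2 * 4) :=
        fat_closure (by norm_num) (det_bb_sub t N (hWB _ (hcZ _).2)) (le_of_lt hy)
      have hy2 : y ∈ Fat t N A := fat_mono (by norm_num) (by linarith) hy1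
      obtain ⟨j, hj, hgeo⟩ := hPath n N t A (by linarith) ρ0.1 hroot y hy2 θ
      refine ⟨hvac j hj _ (fat_mono (by linarith) (by linarith) hgeo), fun w hw hwR => ?_⟩
      exact ⟨hw, j, hj, fat_closure (by linarith) hgeo hwR⟩
    · rintro p hp q hq ⟨v, hv, rfl⟩ hne hpq
      refine ⟨⟨q, hq.1⟩, hS v hp ⟨q, hq.1⟩ hq hv ⟨fun h => hne (congrArg Subtype.val h), ?_⟩, rfl⟩
      exact hadj _ hp _ hpq

end PV2c
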