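import Pool.Agent.P.MP_2c2d1a_pr.Blocks

/-! The small boxes are disjoint and inside the big box; the big boxes are disjoint. -/

namespace PV2c

theorem dis_tau {τ : ℝ} {k : ℕ} (hτ : 0 < τ) (hk : 1 ≤ k) (h : τ * (800 * (k : ℝ) ^ 2) ≤ 1) :
    τ * (800 * (k : ℝ)) ≤ 1 ∧ τ ≤ 1 / 800 := by
  have hk1 : (1 : ℝ) ≤ k := by exact_mod_cast hk
  have h1 : τ * (800 * (k : ℝ)) ≤ τ * (800 * (k : ℝ) ^ 2) := by
    apply mul_le_mul_of_nonneg_left _ hτ.le
    nlinarith
  have h2 : τ * 800 ≤ τ * (800 * (k : ℝ)) := by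
    apply mul_le_mul_of_nonneg_left _ hτ.le
    nlinarith
  constructor
  · linarith
  · linarith

theorem dis_frac {k : ℕ} (i : Fin k) :
    0 ≤ ((i : ℕ) : ℝ) / (4 * k) ∧ ((i : ℕ) : ℝ) / (4 * k) ≤ 1 / 4 := by
  have hi : ((i : ℕ) : ℝ) < k := by exact_mod_cast i.2
  have h0 : (0 : ℝ) ≤ ((i : ℕ) : ℝ) := Nat.cast_nonneg _
  have hk : (0 : ℝ) < k := lt_of_le_of_lt h0 hi
  refine ⟨by positivity, ?_⟩
  rw [div_le_div_iff₀ (by positivity) (by norm_num)]
  linarith

theorem dis_coord {s τ x t e : ℝ} (hs : 0 < s) (hτ : τ ≤ 1 / 800) (he0 : 0 ≤ e)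
    (he : e ≤ s * (1 / 4)) (h : |x - (t + e)| ≤ s * τ) : |x - t| ≤ 2 * s := by
  have h1 := abs_le.1 h
  have h2 : s * τ ≤ s * (1 / 800) := mul_le_mul_of_nonneg_left hτ hs.le
  rw [abs_le]
  constructor <;> linarith [h1.1, h1.2]

theorem dis_gap {s τ x t : ℝ} {k : ℕ} (hs : 0 < s) (hτ : τ * (800 * (k : ℝ)) ≤ 1)
    (i i' : Fin k) (h : |x - (t + s * (((i : ℕ) : ℝ) / (4 * k)))| ≤ s * τ)
    (h' : |x - (t + s * (((i' : ℕ) : ℝ) / (4 * k)))| ≤ s * τ) : i = i' := by
  have hi : ((i : ℕ) : ℝ) < k := by exact_mod_cast i.2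
  have h0 : (0 : ℝ) ≤ ((i : ℕ) : ℝ) := Nat.cast_nonneg _
  have hk : (0 : ℝ) < k := lt_of_le_of_lt h0 hi
  have key : ∀ a b : ℕ, |x - (t + s * ((a : ℝ) / (4 * k)))| ≤ s * τ →
      |x - (t + s * ((b : ℝ) / (4 * k)))| ≤ s * τ → ¬ a < b := by
    intro a b ha hb hab
    have hab' : (a : ℝ) + 1 ≤ b := by exact_mod_cast hab
    have h1 := (abs_le.1 ha).2
    have h2 := (abs_le.1 hb).1
    have h3 : s * ((b : ℝ) / (4 * k)) - s * ((a : ℝ) / (4 * k)) ≤ 2 * (s * τ) := by linarith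
    have h4 : (b : ℝ) / (4 * k) - (a : ℝ) / (4 * k) ≤ 2 * τ := by
      have : s * ((b : ℝ) / (4 * k) - (a : ℝ) / (4 * k)) ≤ s * (2 * τ) := by linarith
      exact le_of_mul_le_mul_left this hs
    rw [← sub_div, div_le_iff₀ (by positivity)] at h4
    nlinarith
  apply Fin.ext
  have a1 := key i i' h h'
  have a2 := key i' i h' h
  omega

theorem bDis : BDis := by
  intro n i0 i1
  refine ⟨?_, ?_⟩
  · intro t s τ k hs hτ hk h
    obtain ⟨h1, h2⟩ := dis_tau hτ hk h
    have h3 : s * τ ≤ s * (1 / 800) := mul_le_mul_of_nonneg_left h2 hs.le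
    have h4 : 0 < s * τ := mul_pos hs hτ
    refine ⟨?_, ?_⟩
    · rintro (i | j) y ⟨hu, ha, hb⟩
      · refine ⟨fun l => ?_, by nlinarith, by nlinarith⟩
        refine dis_coord hs h2 ?_ ?_ (hu l)
        · split_ifs
          · exact mul_nonneg hs.le (dis_frac i).1
          · exact le_rfl
        · split_ifs
          · exact mul_le_mul_of_nonneg_left (dis_frac i).2 hs.le
          · positivity
      · refine ⟨fun l => ?_, by nlinarith, by nlinarith⟩
        refine dis_coord hs h2 ?_ ?_ (hu l)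
        · split_ifs
          · exact mul_nonneg hs.le (dis_frac j).1
          · exact le_rfl
        · split_ifs
          · exact mul_le_mul_of_nonneg_left (dis_frac j).2 hs.le
          · positivity
    · rintro (i | j) (i' | j') hne
      · rw [Set.disjoint_left]
        rintro y ⟨hu, -, -⟩ ⟨hu', -, -⟩
        have a := hu i0
        have b := hu' i0
        simp only [if_true] at a b
        exact hne (congrArg Sum.inl (dis_gap hs h1 i i' a b))
      · rw [Set.disjoint_left]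
        rintro y ⟨-, -, hb⟩ ⟨-, ha, -⟩
        nlinarith
      · rw [Set.disjoint_left]
        rintro y ⟨-, ha, -⟩ ⟨-, -, hb⟩
        nlinarith
      · rw [Set.disjoint_left]
        rintro y ⟨hu, -, -⟩ ⟨hu', -, -⟩
        have a := hu i1
        have b := hu' i1
        simp only [if_true] at a b
        exact hne (congrArg Sum.inr (dis_gap hs h1 j j' a b))
  · intro N z z' hne
    have hs : (0 : ℝ) < (1 / 2) ^ N := by positivity
    have key : ∀ (a b : ℕ) (x : ℝ), |x - 5 * (1 / 2) ^ N * (a : ℝ)| ≤ 2 * (1 / 2) ^ N →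
        |x - 5 * (1 / 2) ^ N * (b : ℝ)| ≤ 2 * (1 / 2) ^ N → ¬ a < b := by
      intro a b x ha hb hab
      have hab' : (a : ℝ) + 1 ≤ b := by exact_mod_cast hab
      have h1 := (abs_le.1 ha).2
      have h2 := (abs_le.1 hb).1
      nlinarith
    rw [Set.disjoint_left]
    rintro y ⟨hu, -, -⟩ ⟨hu', -, -⟩
    have a := hu i0
    have b := hu' i0
    simp only [pos, if_true] at a b
    have a1 := key z z' _ a b
    have a2 := key z' z _ b a
    omega

end PV2c
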