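import Pool.Agent.P.MP_2c2d1a_pr.Vol

/-! Existence of the Poisson point process. -/

open MeasureTheory ProbabilityTheory Filter Topology
open scoped ENNReal NNReal

namespace PV2c

abbrev ExI : Type := Σ _ : ℕ, ℕ

abbrev ExO (X : Type) : Type := (ℕ → ℕ) × (ExI → X)

section Ex

variable {X : Type} [MeasurableSpace X]

def exZ (ω : ExO X) : Set X := {x | ∃ p : ExI, p.2 < ω.1 p.1 ∧ ω.2 p = x}

noncomputable def exP (c : ℕ → ℝ≥0) (ν : ℕ → Measure X) [∀ j, IsProbabilityMeasure (ν j)] :
    Measure (ExO X) :=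
  (Measure.infinitePi fun j => poissonMeasure (c j)).prod (Measure.infinitePi fun p : ExI => ν p.1)

instance exP_prob (c : ℕ → ℝ≥0) (ν : ℕ → Measure X) [∀ j, IsProbabilityMeasure (ν j)] :
    IsProbabilityMeasure (exP c ν) := by
  unfold exP; infer_instance

def exT (N : ℕ → ℕ) (J : ℕ) : Finset ExI := (Finset.range J).sigma fun j => Finset.range (N j)

theorem ex_prod {ι Y : Type} [MeasurableSpace Y] (μ : ι → Measure Y)
    [∀ i, IsProbabilityMeasure (μ i)] (s : Finset ι) (f : ι → Y → ℂ) (hf : ∀ i, Measurable (f i)) :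
    ∫ y, ∏ i ∈ s, f i (y i) ∂Measure.infinitePi μ = ∏ i ∈ s, ∫ y, f i y ∂μ i := by
  have h1 : ∀ y : ι → Y, ∏ i ∈ s, f i (y i) = (fun z : (∀ _ : s, Y) => ∏ i : s, f i (z i))
      (s.restrict y) := fun y => by
    simp only [Finset.restrict]
    exact (Finset.prod_coe_sort s fun i => f i (y i)).symm
  simp_rw [h1]
  rw [integral_restrict_infinitePi (μ := μ) (s := s)
    (f := fun z : (∀ _ : s, Y) => ∏ i : s, f i (z i)),
    integral_fintype_prod_eq_prod (fun (i : s) => f i)]
  · exact Finset.prod_coe_sort s fun i => ∫ y, f i y ∂μ i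
  · refine Measurable.aestronglyMeasurable (Finset.measurable_prod _ fun i _ => ?_)
    exact (hf i.1).comp (measurable_pi_apply (X := fun _ : s => Y) i)

theorem ex_pois (r : ℝ≥0) (φ : ℂ) :
    ∫ a, φ ^ a ∂poissonMeasure r = Complex.exp (r * (φ - 1)) := by
  rw [integral_poissonMeasure r]
  calc ∑' a : ℕ, (Real.exp (-r) * r ^ a / a.factorial : ℝ) • φ ^ a
      = ∑' a : ℕ, ((Real.exp (-r) : ℝ) : ℂ) * ((r * φ) ^ a / a.factorial) := by
        congr with a
        rw [Complex.real_smul]
        push_cast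
        rw [mul_pow]
        ring
    _ = ((Real.exp (-r) : ℝ) : ℂ) * ∑' a : ℕ, ((r * φ) ^ a / a.factorial) := tsum_mul_left
    _ = ((Real.exp (-r) : ℝ) : ℂ) * Complex.exp (r * φ) := by
        rw [(NormedSpace.expSeries_div_hasSum_exp ((r : ℂ) * φ)).tsum_eq, Complex.exp_eq_exp_ℂ]
    _ = Complex.exp (r * (φ - 1)) := by
        rw [Complex.ofReal_exp, ← Complex.exp_add]
        push_cast
        ring_nf

theorem ex_sel {Ω β : Type} [MeasurableSpace Ω] [MeasurableSpace β] (N : Ω → ℕ)
    (hN : Measurable N) (G : ℕ → Ω → β) (hG : ∀ a, Measurable (G a)) :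
    Measurable fun ω => G (N ω) ω := by
  have h : Measurable fun q : Ω × ℕ => G q.2 q.1 := measurable_from_prod_countable_left hG
  exact h.comp (measurable_id.prodMk hN)

theorem ex_meas_prod (f : X → ℂ) (hf : Measurable f) (J : ℕ) :
    Measurable fun ω : ExO X => ∏ p ∈ exT ω.1 J, f (ω.2 p) := by
  have h : ∀ ω : ExO X, ∏ p ∈ exT ω.1 J, f (ω.2 p) =
      ∏ j ∈ Finset.range J, ∏ i ∈ Finset.range (ω.1 j), f (ω.2 ⟨j, i⟩) := fun ω => by
    unfold exT
    rw [Finset.prod_sigma]
  simp_rw [h]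
  refine Finset.measurable_prod _ fun j _ => ?_
  refine ex_sel (fun ω : ExO X => ω.1 j) ((measurable_pi_apply j).comp measurable_fst)
    (fun a ω => ∏ i ∈ Finset.range a, f (ω.2 ⟨j, i⟩)) fun a => ?_
  exact Finset.measurable_prod _ fun i _ =>
    hf.comp ((measurable_pi_apply _).comp measurable_snd)

theorem ex_meas_sum (f : X → ℝ) (hf : Measurable f) (J : ℕ) :
    Measurable fun ω : ExO X => ∑ p ∈ exT ω.1 J, f (ω.2 p) := by
  have h : ∀ ω : ExO X, ∑ p ∈ exT ω.1 J, f (ω.2 p) =
      ∑ j ∈ Finset.range J, ∑ i ∈ Finset.range (ω.1 j), f (ω.2 ⟨j, i⟩) := fun ω => by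
    unfold exT
    rw [Finset.sum_sigma]
  simp_rw [h]
  refine Finset.measurable_sum _ fun j _ => ?_
  refine ex_sel (fun ω : ExO X => ω.1 j) ((measurable_pi_apply j).comp measurable_fst)
    (fun a ω => ∑ i ∈ Finset.range a, f (ω.2 ⟨j, i⟩)) fun a => ?_
  exact Finset.measurable_sum _ fun i _ =>
    hf.comp ((measurable_pi_apply _).comp measurable_snd)

theorem ex_char (c : ℕ → ℝ≥0) (ν : ℕ → Measure X) [∀ j, IsProbabilityMeasure (ν j)]
    (f : X → ℂ) (hf : Measurable f) (hb : ∀ x, ‖f x‖ ≤ 1) (J : ℕ) :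
    ∫ ω, ∏ p ∈ exT ω.1 J, f (ω.2 p) ∂exP c ν =
      ∏ j ∈ Finset.range J, Complex.exp (c j * (∫ x, f x ∂ν j - 1)) := by
  have hi : Integrable (fun ω : ExO X => ∏ p ∈ exT ω.1 J, f (ω.2 p)) (exP c ν) := by
    refine Integrable.of_bound (ex_meas_prod f hf J).aestronglyMeasurable 1
      (Eventually.of_forall fun ω => ?_)
    rw [norm_prod]
    exact Finset.prod_le_one (fun _ _ => norm_nonneg _) fun _ _ => hb _
  unfold exP at hi ⊢
  rw [integral_prod _ hi]
  have h1 : ∀ N : ℕ → ℕ, ∫ y, ∏ p ∈ exT N J, f (y p) ∂(Measure.infinitePi fun p : ExI => ν p.1) =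
      ∏ j ∈ Finset.range J, (∫ x, f x ∂ν j) ^ N j := fun N => by
    rw [ex_prod (fun p : ExI => ν p.1) (exT N J) (fun _ => f) fun _ => hf]
    unfold exT
    rw [Finset.prod_sigma]
    simp
  simp_rw [h1]
  rw [ex_prod (fun j => poissonMeasure (c j)) (Finset.range J)
    (fun j a => (∫ x, f x ∂ν j) ^ a) fun _ => measurable_from_top]
  exact Finset.prod_congr rfl fun j _ => ex_pois _ _

noncomputable def exS {m : ℕ} (A : Fin m → Set X) (J : ℕ) (ω : ExO X) : Fin m → ℝ :=
  fun l => ∑ p ∈ exT ω.1 J, (A l).indicator (fun _ => (1 : ℝ)) (ω.2 p)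

theorem exS_meas {m : ℕ} (A : Fin m → Set X) (hA : ∀ l, MeasurableSet (A l)) (J : ℕ) :
    Measurable (exS A J) :=
  measurable_pi_lambda _ fun l => ex_meas_sum _ (measurable_const.indicator (hA l)) J

noncomputable def exR (c : ℕ → ℝ≥0) (ν : ℕ → Measure X) (B : Set X) (J : ℕ) : ℝ≥0 :=
  ∑ j ∈ Finset.range J, c j * (ν j B).toNNReal

omit [MeasurableSpace X] in
theorem ex_point {m : ℕ} (A : Fin m → Set X) (hd : ∀ i j, i ≠ j → Disjoint (A i) (A j))
    (t : Fin m → ℝ) (x : X) :
    Complex.exp (((∑ l, t l * (A l).indicator (fun _ => (1 : ℝ)) x : ℝ) : ℂ) * Complex.I) =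
      1 + ∑ l, (A l).indicator (fun _ => Complex.exp (t l * Complex.I) - 1) x := by
  by_cases h : ∃ l, x ∈ A l
  · obtain ⟨l, hl⟩ := h
    have hn : ∀ b, b ≠ l → x ∉ A b := fun b hb hx => Set.disjoint_left.1 (hd b l hb) hx hl
    rw [Finset.sum_eq_single l (fun b _ hb => by simp [hn b hb]) (by simp),
      Finset.sum_eq_single l (fun b _ hb => by simp [hn b hb]) (by simp)]
    simp [hl]
  · push Not at h
    simp [h]

theorem ex_law (c : ℕ → ℝ≥0) (ν : ℕ → Measure X) [∀ j, IsProbabilityMeasure (ν j)]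
    {m : ℕ} (A : Fin m → Set X) (hA : ∀ l, MeasurableSet (A l))
    (hd : ∀ i j, i ≠ j → Disjoint (A i) (A j)) (J : ℕ) :
    (exP c ν).map (exS A J) =
      Measure.pi fun l => (poissonMeasure (exR c ν (A l) J)).map (Nat.cast : ℕ → ℝ) := by
  haveI : IsProbabilityMeasure ((exP c ν).map (exS A J)) :=
    Measure.isProbabilityMeasure_map (exS_meas A hA J).aemeasurable
  rw [← charFun_eq_pi_iff]
  intro t
  simp_rw [charFun_map_cast_poissonMeasure]
  have hm : Measurable (WithLp.toLp 2 : (Fin m → ℝ) → PiLp 2 fun _ : Fin m => ℝ) := by fun_prop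
  rw [Measure.map_map hm (exS_meas A hA J), charFun_apply,
    integral_map (hm.comp (exS_meas A hA J)).aemeasurable (by fun_prop)]
  set f : X → ℂ := fun x =>
    Complex.exp (((∑ l, t l * (A l).indicator (fun _ => (1 : ℝ)) x : ℝ) : ℂ) * Complex.I) with hf
  have hfm : Measurable f := by
    refine Complex.measurable_exp.comp (Measurable.mul_const (Complex.measurable_ofReal.comp ?_) _)
    exact Finset.measurable_sum _ fun l _ => (measurable_const.indicator (hA l)).const_mul _
  have h1 : ∀ ω : ExO X, Complex.exp (((inner ℝ (((WithLp.toLp 2 : (Fin m → ℝ) →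
      PiLp 2 fun _ : Fin m => ℝ) ∘ exS A J) ω) t : ℝ) : ℂ) * Complex.I) =
      ∏ p ∈ exT ω.1 J, f (ω.2 p) := fun ω => by
    rw [hf, ← Complex.exp_sum, ← Finset.sum_mul, ← Complex.ofReal_sum, Finset.sum_comm,
      PiLp.inner_apply]
    simp [exS, Finset.mul_sum]
  simp_rw [h1]
  rw [ex_char c ν f hfm (fun x => (Complex.norm_exp_ofReal_mul_I _).le) J]
  have h2 : ∀ j, ∫ x, f x ∂ν j - 1 =
      ∑ l, ((ν j (A l)).toNNReal : ℂ) * (Complex.exp (t l * Complex.I) - 1) := fun j => by
    have e : f = fun x => 1 + ∑ l, (A l).indicator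
        (fun _ => Complex.exp (t l * Complex.I) - 1) x := funext fun x => ex_point A hd _ x
    have hi : ∀ l, Integrable ((A l).indicator (fun _ => Complex.exp (t l * Complex.I) - 1))
        (ν j) := fun l => (integrable_const _).indicator (hA l)
    rw [e, integral_add (integrable_const _) (integrable_finset_sum _ fun l _ => hi l),
      integral_finset_sum _ fun l _ => hi l]
    simp only [integral_const, probReal_univ, one_smul, add_sub_cancel_left]
    refine Finset.sum_congr rfl fun l _ => ?_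
    rw [integral_indicator_const _ (hA l), Complex.real_smul]
    rfl
  simp_rw [h2]
  rw [← Complex.exp_sum, ← Complex.exp_sum]
  congr 1
  simp_rw [Finset.mul_sum]
  rw [Finset.sum_comm]
  refine Finset.sum_congr rfl fun l _ => ?_
  unfold exR
  push_cast
  rw [Finset.sum_mul]
  exact Finset.sum_congr rfl fun j _ => by ring

theorem ex_level (c : ℕ → ℝ≥0) (ν : ℕ → Measure X) [∀ j, IsProbabilityMeasure (ν j)]
    {m : ℕ} (A : Fin m → Set X) (hA : ∀ l, MeasurableSet (A l))
    (hd : ∀ i j, i ≠ j → Disjoint (A i) (A j)) (k : Fin m → ℕ) (J : ℕ) :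
    exP c ν (exS A J ⁻¹' {fun l => (k l : ℝ)}) =
      ∏ l, ENNReal.ofReal (poi (exR c ν (A l) J) (k l)) := by
  rw [← Measure.map_apply (exS_meas A hA J) (measurableSet_singleton _), ex_law c ν A hA hd J,
    ← Set.univ_pi_singleton, Measure.pi_pi]
  refine Finset.prod_congr rfl fun l _ => ?_
  rw [Measure.map_apply measurable_from_top (measurableSet_singleton _)]
  have : (Nat.cast : ℕ → ℝ) ⁻¹' {(k l : ℝ)} = {k l} := by
    ext a; simp
  rw [this, poissonMeasure_singleton]
  rfl

theorem ex_ev {α : Type} (F : ℕ → Finset α) (hF : Monotone F) (T : Set α)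
    (hT : ∀ a, a ∈ T ↔ ∃ J, a ∈ F J) (k : ℕ) :
    ∀ᶠ J in atTop, ((F J).card = k ↔ T.encard = k) := by
  have h1 : ∀ B : Finset α, (B : Set α) ⊆ T → ∀ᶠ J in atTop, B ⊆ F J := fun B hB => by
    have : ∀ᶠ J in atTop, ∀ a ∈ B, a ∈ F J := by
      rw [eventually_all_finset]
      intro a ha
      obtain ⟨J, hJ⟩ := (hT a).1 (hB ha)
      filter_upwards [eventually_ge_atTop J] with J' h using hF h hJ
    exact this
  by_cases hfin : T.Finite
  · filter_upwards [h1 hfin.toFinset (by simp)] with J hJ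
    have e : T = (F J : Set α) := by
      ext a
      exact ⟨fun ha => hJ (hfin.mem_toFinset.2 ha), fun ha => (hT a).2 ⟨J, ha⟩⟩
    rw [e, Set.encard_coe_eq_coe_finsetCard, Nat.cast_inj]
  · obtain ⟨B, hB, hc⟩ := Set.Infinite.exists_subset_card_eq hfin (k + 1)
    filter_upwards [h1 B hB] with J hJ
    have h2 := Finset.card_le_card hJ
    rw [Set.Infinite.encard_eq hfin]
    constructor
    · intro h; omega
    · intro h; exact absurd h (by simp)

theorem ex_ge [MeasurableEq X] (B : Set X) (hB : MeasurableSet B) (k : ℕ) :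
    MeasurableSet {ω : ExO X | (k : ℕ∞) ≤ (exZ ω ∩ B).encard} := by
  have e : {ω : ExO X | (k : ℕ∞) ≤ (exZ ω ∩ B).encard} = ⋃ q : Fin k → ExI,
      (⋂ a, ({ω : ExO X | (q a).2 < ω.1 (q a).1} ∩ {ω | ω.2 (q a) ∈ B})) ∩
        ⋂ a, ⋂ b, ⋂ _ : a ≠ b, {ω : ExO X | ω.2 (q a) = ω.2 (q b)}ᶜ := by
    ext ω
    simp only [Set.mem_ofPred_eq, Set.mem_iUnion, Set.mem_inter_iff, Set.mem_iInter,
      Set.mem_compl_iff]
    constructor
    · intro h
      obtain ⟨S, hS, hc⟩ := Set.exists_subset_encard_eq h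
      have hfin : S.Finite := Set.finite_of_encard_eq_coe hc
      have hcard : hfin.toFinset.card = k := by
        rw [hfin.encard_eq_coe_toFinset_card] at hc
        exact_mod_cast hc
      let g : Fin k → X := fun a => (hfin.toFinset.equivFinOfCardEq hcard).symm a
      have hg : ∀ a, g a ∈ S := fun a =>
        hfin.mem_toFinset.1 ((hfin.toFinset.equivFinOfCardEq hcard).symm a).2
      have hinj : Function.Injective g := fun a b hab =>
        (hfin.toFinset.equivFinOfCardEq hcard).symm.injective (Subtype.ext hab)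
      choose q hq using fun a => (hS (hg a)).1
      refine ⟨q, fun a => ⟨(hq a).1, ?_⟩, fun a b hab h' => hab (hinj ?_)⟩
      · rw [(hq a).2]; exact (hS (hg a)).2
      · rw [← (hq a).2, ← (hq b).2]; exact h'
    · rintro ⟨q, h1, h2⟩
      have hinj : Function.Injective fun a => ω.2 (q a) := fun a b hab => by
        by_contra hne
        exact h2 a b hne hab
      have h3 : Set.range (fun a => ω.2 (q a)) ⊆ exZ ω ∩ B := by
        rintro _ ⟨a, rfl⟩
        exact ⟨⟨q a, (h1 a).1, rfl⟩, (h1 a).2⟩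
      refine le_trans ?_ (Set.encard_le_encard h3)
      rw [← Set.image_univ, hinj.encard_image, Set.encard_univ]
      simp
  rw [e]
  refine MeasurableSet.iUnion fun q => MeasurableSet.inter (MeasurableSet.iInter fun a => ?_)
    (MeasurableSet.iInter fun a => MeasurableSet.iInter fun b => MeasurableSet.iInter fun _ => ?_)
  · exact (measurableSet_lt measurable_const ((measurable_pi_apply _).comp measurable_fst)).inter
      (((measurable_pi_apply _).comp measurable_snd) hB)
  · exact (measurableSet_eq_fun (f := fun ω : ExO X => ω.2 (q a)) (g := fun ω : ExO X => ω.2 (q b))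
      (by fun_prop) (by fun_prop)).compl

theorem ex_eq [MeasurableEq X] (B : Set X) (hB : MeasurableSet B) (k : ℕ) :
    MeasurableSet {ω : ExO X | (exZ ω ∩ B).encard = k} := by
  have e : {ω : ExO X | (exZ ω ∩ B).encard = k} = {ω : ExO X | (k : ℕ∞) ≤ (exZ ω ∩ B).encard} \
      {ω : ExO X | ((k + 1 : ℕ) : ℕ∞) ≤ (exZ ω ∩ B).encard} := by
    ext ω
    simp only [Set.mem_ofPred_eq, Set.mem_diff]
    generalize (exZ ω ∩ B).encard = e
    induction e using ENat.recTopCoe with
    | top => simp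
    | coe a => simp only [Nat.cast_inj, Nat.cast_le]; omega
  rw [e]
  exact (ex_ge B hB k).diff (ex_ge B hB (k + 1))

theorem ex_inj [MeasurableEq X] (c : ℕ → ℝ≥0) (ν : ℕ → Measure X)
    [∀ j, IsProbabilityMeasure (ν j)] (h0 : ∀ j x, ν j {x} = 0) :
    ∀ᵐ ω ∂exP c ν, Function.Injective ω.2 := by
  have h1 : ∀ᵐ y ∂(Measure.infinitePi fun p : ExI => ν p.1), Function.Injective y := by
    have h2 : ∀ᵐ y ∂(Measure.infinitePi fun p : ExI => ν p.1), ∀ p q : ExI, p ≠ q → y p ≠ y q := by
      rw [ae_all_iff]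
      intro p
      rw [ae_all_iff]
      intro q
      by_cases hpq : p = q
      · exact Eventually.of_forall fun _ h => absurd hpq h
      · have h3 : (Measure.infinitePi fun p : ExI => ν p.1)
            ((fun y : ExI → X => (y p, y q)) ⁻¹' Set.diagonal X) = 0 := by
          rw [← Measure.map_apply (by fun_prop) measurableSet_diagonal,
            Measure.infinitePi_map_eval_prod hpq, Measure.prod_apply measurableSet_diagonal]
          have : ∀ x : X, Prod.mk x ⁻¹' Set.diagonal X = {x} := fun x => by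
            ext z; simp [eq_comm]
          simp [this, h0]
        filter_upwards [measure_eq_zero_iff_ae_notMem.1 h3] with y hy _ using hy
    filter_upwards [h2] with y hy p q hpq
    by_contra hne
    exact hy p q hne hpq
  exact Measure.quasiMeasurePreserving_snd.ae h1

theorem ex_ppp [MeasurableEq X] (c : ℕ → ℝ≥0) (ν : ℕ → Measure X)
    [∀ j, IsProbabilityMeasure (ν j)] (h0 : ∀ j x, ν j {x} = 0) (μ : Measure X)
    (hμ : ∀ B, MeasurableSet B → μ B = ∑' j, (c j : ℝ≥0∞) * ν j B) :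
    IsPPP (exP c ν) exZ μ := by
  classical
  refine ⟨ex_eq, fun m A k hA hfin hd => ?_⟩
  have hE : MeasurableSet {ω : ExO X | ∀ i, (exZ ω ∩ A i).encard = k i} := by
    rw [Set.ofPred_forall]
    exact MeasurableSet.iInter fun i => ex_eq (A i) (hA i) (k i)
  have h1 := tendsto_measure_of_ae_tendsto_indicator_of_isFiniteMeasure (μ := exP c ν) atTop hE
    (As := fun J => exS A J ⁻¹' {fun l => (k l : ℝ)})
    (fun J => exS_meas A hA J (measurableSet_singleton _)) (by
      filter_upwards [ex_inj c ν h0] with ω hω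
      have h2 : ∀ᶠ J in atTop, ∀ l, (exS A J ω l = k l ↔ (exZ ω ∩ A l).encard = k l) := by
        rw [eventually_all]
        intro l
        have h3 := ex_ev (fun J => (exT ω.1 J).filter fun p => ω.2 p ∈ A l)
          (fun J J' h => Finset.filter_subset_filter _ (Finset.sigma_mono
            (Finset.range_mono h) fun _ => Finset.Subset.refl _))
          {p : ExI | p.2 < ω.1 p.1 ∧ ω.2 p ∈ A l} (fun p => by
            simp only [Set.mem_ofPred_eq, Finset.mem_filter, exT, Finset.mem_sigma,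
              Finset.mem_range]
            exact ⟨fun h => ⟨p.1 + 1, ⟨Nat.lt_succ_self _, h.1⟩, h.2⟩,
              fun ⟨_, h, h'⟩ => ⟨h.2, h'⟩⟩) (k l)
        have e : exZ ω ∩ A l = ω.2 '' {p : ExI | p.2 < ω.1 p.1 ∧ ω.2 p ∈ A l} := by
          ext x
          constructor
          · rintro ⟨⟨p, hp, rfl⟩, hx⟩
            exact ⟨p, ⟨hp, hx⟩, rfl⟩
          · rintro ⟨p, ⟨hp, hx⟩, rfl⟩
            exact ⟨⟨p, hp, rfl⟩, hx⟩
        filter_upwards [h3] with J hJ
        rw [e, hω.encard_image, ← hJ]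
        have e2 : exS A J ω l = (((exT ω.1 J).filter fun p => ω.2 p ∈ A l).card : ℝ) := by
          simp [exS, Set.indicator_apply, Finset.sum_boole]
        rw [e2, Nat.cast_inj]
      filter_upwards [h2] with J hJ
      simp only [Set.mem_preimage, Set.mem_singleton_iff, Set.mem_ofPred_eq, funext_iff]
      exact forall_congr' hJ)
  simp_rw [ex_level c ν A hA hd k] at h1
  refine tendsto_nhds_unique h1 ?_
  refine ENNReal.tendsto_finset_prod_of_ne_top _ (fun l _ => ?_) fun l _ => ENNReal.ofReal_ne_top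
  refine ENNReal.tendsto_ofReal ?_
  have hc : Continuous fun r : ℝ => poi r (k l) := by unfold poi; fun_prop
  refine (hc.tendsto _).comp ?_
  have h4 := (ENNReal.tendsto_toReal (hfin l).ne).comp
    (hμ (A l) (hA l) ▸ ENNReal.tendsto_nat_tsum fun j => (c j : ℝ≥0∞) * ν j (A l))
  refine h4.congr fun J => ?_
  have e : ∑ j ∈ Finset.range J, (c j : ℝ≥0∞) * ν j (A l) = (exR c ν (A l) J : ℝ≥0∞) := by
    unfold exR
    push_cast
    exact Finset.sum_congr rfl fun j _ => by rw [ENNReal.coe_toNNReal (measure_ne_top _ _)]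
  simp only [Function.comp]
  rw [e, ENNReal.coe_toReal]

theorem ex_general [MeasurableEq X] (μ : Measure X) [SFinite μ] (hne : μ ≠ 0)
    (h0 : ∀ x, μ {x} = 0) : ∃ (Ω : Type) (_ : MeasurableSpace Ω) (P : Measure Ω) (Z : Ω → Set X),
      IsProbabilityMeasure P ∧ IsPPP P Z μ := by
  classical
  have h1 : ∃ j0, sfiniteSeq μ j0 ≠ 0 := by
    by_contra h
    push Not at h
    apply hne
    rw [← sum_sfiniteSeq μ]
    simp [h]
  obtain ⟨j0, hj0⟩ := h1
  let g : ℕ → ℕ := fun j => if sfiniteSeq μ j = 0 then j0 else j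
  have hg : ∀ j, sfiniteSeq μ (g j) ≠ 0 := fun j => by
    by_cases h : sfiniteSeq μ j = 0 <;> simp [g, h, hj0]
  let ν : ℕ → Measure X := fun j => (sfiniteSeq μ (g j) Set.univ)⁻¹ • sfiniteSeq μ (g j)
  haveI : ∀ j, IsProbabilityMeasure (ν j) := fun j => ⟨by
    simp only [ν, Measure.smul_apply, smul_eq_mul]
    exact ENNReal.inv_mul_cancel (by simpa using hg j) (measure_ne_top _ _)⟩
  refine ⟨ExO X, inferInstance, exP (fun j => (sfiniteSeq μ j Set.univ).toNNReal) ν, exZ,
    inferInstance, ex_ppp _ ν (fun j x => ?_) μ fun B hB => ?_⟩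
  · have : sfiniteSeq μ (g j) {x} = 0 := le_antisymm ((sfiniteSeq_le μ _ _).trans (h0 x).le) bot_le
    simp [ν, this]
  · conv_lhs => rw [← sum_sfiniteSeq μ, Measure.sum_apply _ hB]
    refine tsum_congr fun j => ?_
    rw [ENNReal.coe_toNNReal (measure_ne_top _ _)]
    by_cases h : sfiniteSeq μ j = 0
    · simp [h]
    · have e : g j = j := by simp [g, h]
      simp only [ν, e, Measure.smul_apply, smul_eq_mul]
      rw [← mul_assoc, ENNReal.mul_inv_cancel (by simpa using h) (measure_ne_top _ _), one_mul]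

end Ex

theorem exists_ppp (n : ℕ) (lam : ℝ) (hlam : 0 < lam) :
    ∃ (Ω : Type) (_ : MeasurableSpace Ω) (P : Measure Ω) (Z : Ω → Set (Hyp n)),
      IsProbabilityMeasure P ∧ IsPPP P Z (ENNReal.ofReal lam • hvol n) := by
  have hE : MeasurableEmbedding (Subtype.val : Hyp n → (Fin n → ℝ) × ℝ) :=
    MeasurableEmbedding.subtype_coe (vol_ms n)
  haveI : SigmaFinite (Measure.comap (Subtype.val : Hyp n → (Fin n → ℝ) × ℝ) volume) :=
    SigmaFinite.of_map _ hE.measurable.aemeasurable (by rw [hE.map_comap]; infer_instance)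
  haveI : SFinite (hvol n) := by unfold hvol; infer_instance
  refine ex_general _ ?_ fun x => ?_
  · intro h
    have h1 := (bVol n 0 1 1 2 zero_le_one one_pos one_le_two).2.1
    have h2 : (ENNReal.ofReal lam • hvol n) (CBox 0 1 1 2) = 0 := by rw [h]; rfl
    rw [Measure.smul_apply, smul_eq_mul, mul_eq_zero] at h2
    rcases h2 with h2 | h2
    · exact absurd (ENNReal.ofReal_eq_zero.1 h2) (not_le.2 hlam)
    · rw [h2, nonpos_iff_eq_zero, ENNReal.ofReal_eq_zero] at h1
      exact absurd h1 (not_le.2 (by positivity))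
  · have h1 : hvol n {x} = 0 := by
      refine withDensity_absolutelyContinuous _ _ ?_
      rw [hE.comap_apply, Set.image_singleton]
      rw [Measure.volume_eq_prod, ← Set.singleton_prod_singleton, Measure.prod_prod]
      simp
    simp [h1]

end PV2c
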