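import Pool.Agent.P.MP_2c2d1a_pr.Blocks

/-! From thin sets at every level to the conclusion. -/

open MeasureTheory Filter Topology
open scoped ENNReal

namespace PV2c

theorem fin_reach {V : Type} {G : SimpleGraph V} {S : Finset V}
    (h : (G.induce (S : Set V)).Connected) {u v : V} (hu : u ∈ S) (hv : v ∈ S) :
    G.Reachable u v :=
  (h.preconnected ⟨u, hu⟩ ⟨v, hv⟩).map (SimpleGraph.Embedding.induce (S : Set V)).toHom

theorem fin_ratio (e v : ℕ∞) (M a b : ℕ) (hM : 1 ≤ M) (ha : M ≤ a) (hb : M * b ≤ a)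
    (he : e ≤ (b : ℕ∞)) (hv : (a : ℕ∞) ≤ v) : (e : ℝ≥0∞) / (v : ℝ≥0∞) ≤ (M : ℝ≥0∞)⁻¹ := by
  have h1 : (e : ℝ≥0∞) ≤ (b : ℝ≥0∞) := by
    have := ENat.toENNReal_le.2 he
    simpa using this
  have h2 : (a : ℝ≥0∞) ≤ (v : ℝ≥0∞) := by
    have := ENat.toENNReal_le.2 hv
    simpa using this
  have ha0 : (a : ℝ≥0∞) ≠ 0 := by
    have : a ≠ 0 := by omega
    exact_mod_cast this
  have hM0 : (M : ℝ≥0∞) ≠ 0 := by
    have : M ≠ 0 := by omega
    exact_mod_cast this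
  have h3 : (b : ℝ≥0∞) / (a : ℝ≥0∞) ≤ (M : ℝ≥0∞)⁻¹ := by
    rw [ENNReal.div_le_iff ha0 (ENNReal.natCast_ne_top a)]
    have h4 : (M : ℝ≥0∞) * (b : ℝ≥0∞) ≤ (a : ℝ≥0∞) := by exact_mod_cast hb
    calc (b : ℝ≥0∞) = (M : ℝ≥0∞)⁻¹ * ((M : ℝ≥0∞) * (b : ℝ≥0∞)) := by
          rw [← mul_assoc, ENNReal.inv_mul_cancel hM0 (ENNReal.natCast_ne_top M), one_mul]
      _ ≤ (M : ℝ≥0∞)⁻¹ * (a : ℝ≥0∞) := by gcongr
  exact (ENNReal.div_le_div h1 h2).trans h3

theorem bFin : BFin := by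
  intro V G φ H
  have key : ∀ (u v : V) (m : ℕ), ∃ M a b : ℕ, 1 ≤ M ∧ m ≤ M ∧ M ≤ a ∧ M * b ≤ a ∧
      φ u ≤ M ∧ φ v ≤ M ∧ Thin G φ M a b := by
    intro u v m
    obtain ⟨p, hp⟩ := exists_nat_ge (max (φ u) (φ v))
    obtain ⟨a, b, h1, h2, h3⟩ := H (p + m + 1) (by omega)
    have hpM : (p : ℝ) ≤ ((p + m + 1 : ℕ) : ℝ) := by
      have : p ≤ p + m + 1 := by omega
      exact_mod_cast this
    exact ⟨p + m + 1, a, b, by omega, by omega, h1, h2,
      ((le_max_left _ _).trans hp).trans hpM, ((le_max_right _ _).trans hp).trans hpM, h3⟩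
  obtain ⟨_, _, -, -, w, -⟩ := H 1 le_rfl
  have : Nonempty V := ⟨w⟩
  refine ⟨⟨fun u v => ?_⟩, fun v => ?_, ?_, fun ρ => ?_⟩
  · obtain ⟨M, a, b, -, -, -, -, hu, hv, v0, h⟩ := key u v 0
    obtain ⟨S, h1, h2, h3, -⟩ := h u hu
    obtain ⟨S', h1', h2', h3', -⟩ := h v hv
    exact (fin_reach h3 h1 h2).trans (fin_reach h3' h2' h1')
  · obtain ⟨M, a, b, -, -, -, -, hu, -, v0, h⟩ := key v v 0
    obtain ⟨S, h1, -, -, -, h5, -⟩ := h v hu
    have h6 : (G.neighborSet v).encard ≤ evol G S :=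
      Finset.single_le_sum (f := fun x => (G.neighborSet x).encard) (fun _ _ => zero_le) h1
    exact Set.encard_lt_top_iff.1 (h6.trans_lt h5)
  · rw [← not_finite_iff_infinite]
    intro hfin
    have := Fintype.ofFinite V
    obtain ⟨M, a, b, -, hm, ha, -, hu, -, v0, h⟩ :=
      key w w (Fintype.card V * Fintype.card V + 1)
    obtain ⟨S, -, -, -, h4, -⟩ := h w hu
    have h6 : evol G S ≤ ((Fintype.card V * Fintype.card V : ℕ) : ℕ∞) := by
      have h7 : ∀ x ∈ S, (G.neighborSet x).encard ≤ (Fintype.card V : ℕ∞) := by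
        intro x _
        have := Set.encard_le_encard (Set.subset_univ (G.neighborSet x))
        simpa using this
      have h8 := Finset.sum_le_card_nsmul S _ _ h7
      have h9 : (S.card : ℕ∞) ≤ (Fintype.card V : ℕ∞) := by exact_mod_cast S.card_le_univ
      calc evol G S ≤ S.card • (Fintype.card V : ℕ∞) := h8
        _ = (S.card : ℕ∞) * (Fintype.card V : ℕ∞) := by rw [nsmul_eq_mul]
        _ ≤ (Fintype.card V : ℕ∞) * (Fintype.card V : ℕ∞) := by gcongr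
        _ = ((Fintype.card V * Fintype.card V : ℕ) : ℕ∞) := by push_cast; rfl
    have h10 : a ≤ Fintype.card V * Fintype.card V := by exact_mod_cast h4.trans h6
    omega
  · have h0 : isoInf G ρ = fun _ => 0 := by
      funext m
      apply le_antisymm _ zero_le
      apply ge_of_tendsto' ENNReal.tendsto_inv_nat_nhds_zero
      intro r
      obtain ⟨M, a, b, h1, hm, ha, hb, hu, -, v0, h⟩ := key ρ ρ (m + r)
      obtain ⟨S, s1, -, s3, s4, s5, s6⟩ := h ρ hu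
      have s7 : (m : ℕ∞) ≤ evol G S := by
        refine le_trans ?_ s4
        have : m ≤ a := by omega
        exact_mod_cast this
      have s8 : isoInf G ρ m ≤ (ebdry G S : ℝ≥0∞) / (evol G S : ℝ≥0∞) :=
        iInf_le_of_le S (iInf_le_of_le s1 (iInf_le_of_le s3 (iInf_le_of_le s7 (iInf_le _ s5))))
      refine (s8.trans (fin_ratio _ _ M a b h1 ha hb s6 s4)).trans ?_
      apply ENNReal.inv_le_inv.2
      have : r ≤ M := by omega
      exact_mod_cast this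
    rw [h0]
    exact tendsto_const_nhds

end PV2c
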