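import Pool.Agent.P.MP_2c2d1a_pr.Blocks

/-! A generic end point of the geodesic. -/

open Filter Topology
open scoped unitInterval

namespace PV2c

variable {n : ℕ}

/-- The height of `y` times the hyperbolic cosine of the distance from `y` to `w`. -/
noncomputable def genPsi (y w : Hyp n) : ℝ :=
  (∑ l, (y.1.1 l - w.1.1 l) ^ 2 + y.1.2 ^ 2 + w.1.2 ^ 2) / (2 * w.1.2)

theorem gen_psi_eq (y w : Hyp n) : genPsi y w = y.1.2 * coshDist y w := by
  have hy := y.2.ne'
  have hw := w.2.ne'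
  unfold genPsi coshDist
  field_simp
  ring

theorem gen_psi_cont (w : Hyp n) : Continuous fun y : Hyp n => genPsi y w := by
  unfold genPsi
  fun_prop

theorem gen_psi_geo (x y w : Hyp n) (θ : I) :
    genPsi (geo x y θ) w = (1 - (θ : ℝ)) * genPsi x w + θ * genPsi y w := by
  have hw := w.2.ne'
  have hs : ∑ l, ((1 - (θ : ℝ)) * x.1.1 l + θ * y.1.1 l - w.1.1 l) ^ 2 =
      (1 - (θ : ℝ)) * ∑ l, (x.1.1 l - w.1.1 l) ^ 2 + θ * ∑ l, (y.1.1 l - w.1.1 l) ^ 2 -
        θ * (1 - θ) * ∑ l, (x.1.1 l - y.1.1 l) ^ 2 := by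
    rw [Finset.mul_sum, Finset.mul_sum, Finset.mul_sum, ← Finset.sum_add_distrib,
      ← Finset.sum_sub_distrib]
    exact Finset.sum_congr rfl fun l _ => by ring
  unfold genPsi
  simp only [geo]
  rw [hs, Real.sq_sqrt (geo_pos x y θ).le]
  field_simp
  ring

theorem gen_geo_zero (x y : Hyp n) : geo x y 0 = x := by
  apply Subtype.ext
  apply Prod.ext
  · funext l
    simp [geo]
  · simp [geo, Real.sqrt_sq x.2.le]

theorem gen_geo_cont (x y : Hyp n) : Continuous (geo x y) := by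
  unfold geo
  refine Continuous.subtype_mk ?_ _
  fun_prop

theorem gen_cosh_comm (x y : Hyp n) : coshDist x y = coshDist y x := by
  unfold coshDist
  have : ∑ l, (x.1.1 l - y.1.1 l) ^ 2 = ∑ l, (y.1.1 l - x.1.1 l) ^ 2 :=
    Finset.sum_congr rfl fun l _ => by ring
  rw [this]
  ring

theorem gen_cosh_self (x : Hyp n) : coshDist x x = 1 := by
  simp [coshDist]

theorem gen_cosh_gt {x y : Hyp n} (h : x ≠ y) : 1 < coshDist x y := by
  have hx := x.2
  have hy := y.2
  have hs : 0 ≤ ∑ l, (x.1.1 l - y.1.1 l) ^ 2 := Finset.sum_nonneg fun _ _ => sq_nonneg _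
  have hp : 0 < ∑ l, (x.1.1 l - y.1.1 l) ^ 2 + (x.1.2 - y.1.2) ^ 2 := by
    by_contra hc
    have h2 := sq_nonneg (x.1.2 - y.1.2)
    have h3 : ∑ l, (x.1.1 l - y.1.1 l) ^ 2 = 0 := by linarith
    have h4 : (x.1.2 - y.1.2) ^ 2 = 0 := by linarith
    rw [Finset.sum_eq_zero_iff_of_nonneg fun _ _ => sq_nonneg _] at h3
    apply h
    apply Subtype.ext
    apply Prod.ext
    · funext l
      have := h3 l (Finset.mem_univ l)
      exact sub_eq_zero.1 (pow_eq_zero_iff two_ne_zero |>.1 this)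
    · exact sub_eq_zero.1 (pow_eq_zero_iff two_ne_zero |>.1 h4)
  unfold coshDist
  have : 0 < (∑ l, (x.1.1 l - y.1.1 l) ^ 2 + (x.1.2 - y.1.2) ^ 2) / (2 * x.1.2 * y.1.2) := by
    positivity
  linarith

/-- The combination `a f + b g` of the two differences. -/
noncomputable def genPhi (x1 x2 x3 : Hyp n) (a b : ℝ) (y : Hyp n) : ℝ :=
  a * (genPsi y x1 - genPsi y x2) + b * (genPsi y x1 - genPsi y x3)

theorem gen_phi_ne {x1 x2 x3 : Hyp n} (h12 : x1 ≠ x2) (h13 : x1 ≠ x3) (h23 : x2 ≠ x3)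
    {a b : ℝ} (hab : a ≠ 0 ∨ b ≠ 0) : ∃ p, genPhi x1 x2 x3 a b p ≠ 0 := by
  by_contra hc
  push Not at hc
  have e1 := hc x1
  have e2 := hc x2
  have e3 := hc x3
  simp only [genPhi, gen_psi_eq, gen_cosh_self] at e1 e2 e3
  rw [gen_cosh_comm x2 x1] at e2
  rw [gen_cosh_comm x3 x1, gen_cosh_comm x3 x2] at e3
  have a1 := gen_cosh_gt h12
  have a2 := gen_cosh_gt h13
  have a3 := gen_cosh_gt h23
  set al := coshDist x1 x2
  set be := coshDist x1 x3
  set ga := coshDist x2 x3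
  have f1 : a * (1 - al) + b * (1 - be) = 0 := by
    apply mul_left_cancel₀ x1.2.ne'
    linear_combination e1
  have f2 : a * (al - 1) + b * (al - ga) = 0 := by
    apply mul_left_cancel₀ x2.2.ne'
    linear_combination e2
  have f3 : a * (be - ga) + b * (be - 1) = 0 := by
    apply mul_left_cancel₀ x3.2.ne'
    linear_combination e3
  have f4 : a * b * (ga - 1) = 0 := by
    linear_combination (-(1 / 2) * a) * f2 + (-(1 / 2) * b) * f3 + (-(1 / 2) * (a + b)) * f1
  have f5 : a * b = 0 := (mul_eq_zero.1 f4).resolve_right (by linarith)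
  rcases mul_eq_zero.1 f5 with h | h
  · have : b * (1 - be) = 0 := by rw [h] at f1; linarith
    have hb : b = 0 := (mul_eq_zero.1 this).resolve_right (by linarith)
    rcases hab with h' | h' <;> contradiction
  · have : a * (1 - al) = 0 := by rw [h] at f1; linarith
    have ha : a = 0 := (mul_eq_zero.1 this).resolve_right (by linarith)
    rcases hab with h' | h' <;> contradiction

theorem gen_phi_geo (x1 x2 x3 : Hyp n) (a b : ℝ) (x y : Hyp n) (θ : I) :
    genPhi x1 x2 x3 a b (geo x y θ) =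
      (1 - (θ : ℝ)) * genPhi x1 x2 x3 a b x + θ * genPhi x1 x2 x3 a b y := by
  simp only [genPhi, gen_psi_geo]
  ring

theorem gen_phi_open (x1 x2 x3 : Hyp n) (a b : ℝ) :
    IsOpen {y | genPhi x1 x2 x3 a b y ≠ 0} := by
  have h1 := gen_psi_cont x1
  have h2 := gen_psi_cont x2
  have h3 := gen_psi_cont x3
  have : Continuous (genPhi x1 x2 x3 a b) := by
    unfold genPhi
    fun_prop
  exact isOpen_ne_fun this continuous_const

theorem gen_phi_dense {x1 x2 x3 : Hyp n} (h12 : x1 ≠ x2) (h13 : x1 ≠ x3) (h23 : x2 ≠ x3)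
    {a b : ℝ} (hab : a ≠ 0 ∨ b ≠ 0) : Dense {y | genPhi x1 x2 x3 a b y ≠ 0} := by
  obtain ⟨p, hp⟩ := gen_phi_ne h12 h13 h23 hab
  intro q
  by_cases hq : genPhi x1 x2 x3 a b q = 0
  · rw [mem_closure_iff_nhds]
    intro O hO
    have h0 : geo q p ⁻¹' O ∈ 𝓝 (0 : I) := by
      apply (gen_geo_cont q p).continuousAt.preimage_mem_nhds
      rwa [gen_geo_zero]
    obtain ⟨ε, hε, hsub⟩ := Metric.mem_nhds_iff.1 h0
    have hm0 : 0 < min (ε / 2) 1 := lt_min (by linarith) one_pos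
    let θ : I := ⟨min (ε / 2) 1, hm0.le, min_le_right _ _⟩
    have hθ : θ ∈ Metric.ball (0 : I) ε := by
      rw [Metric.mem_ball, Subtype.dist_eq]
      simp only [θ, Set.Icc.coe_zero, dist_zero_right, Real.norm_eq_abs, abs_of_pos hm0]
      exact (min_le_left _ _).trans_lt (by linarith)
    refine ⟨geo q p θ, hsub hθ, ?_⟩
    show genPhi x1 x2 x3 a b (geo q p θ) ≠ 0
    rw [gen_phi_geo, hq, mul_zero, zero_add]
    exact mul_ne_zero hm0.ne' hp
  · exact subset_closure hq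

/-- The set of end points that are generic for one triple. -/
theorem gen_triple (x x1 x2 x3 : Hyp n) : ∃ G : Set (Hyp n), IsOpen G ∧ Dense G ∧
    ∀ y ∈ G, ∀ θ : I, 0 < (θ : ℝ) → x1 ≠ x2 → x1 ≠ x3 → x2 ≠ x3 →
      coshDist (geo x y θ) x1 = coshDist (geo x y θ) x2 →
      coshDist (geo x y θ) x1 ≠ coshDist (geo x y θ) x3 := by
  by_cases hd : x1 ≠ x2 ∧ x1 ≠ x3 ∧ x2 ≠ x3
  · obtain ⟨h12, h13, h23⟩ := hd
    have key : ∀ (y : Hyp n) (θ : I), coshDist (geo x y θ) x1 = coshDist (geo x y θ) x2 →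
        coshDist (geo x y θ) x1 = coshDist (geo x y θ) x3 →
        (1 - (θ : ℝ)) * (genPsi x x1 - genPsi x x2) + θ * (genPsi y x1 - genPsi y x2) = 0 ∧
        (1 - (θ : ℝ)) * (genPsi x x1 - genPsi x x3) + θ * (genPsi y x1 - genPsi y x3) = 0 := by
      intro y θ e2 e3
      have p1 := gen_psi_geo x y x1 θ
      have p2 := gen_psi_geo x y x2 θ
      have p3 := gen_psi_geo x y x3 θ
      rw [gen_psi_eq (geo x y θ)] at p1 p2 p3
      rw [← e2] at p2
      rw [← e3] at p3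
      exact ⟨by linear_combination p2 - p1, by linear_combination p3 - p1⟩
    by_cases h0 : genPsi x x1 - genPsi x x2 = 0 ∧ genPsi x x1 - genPsi x x3 = 0
    · refine ⟨_, gen_phi_open x1 x2 x3 1 0, gen_phi_dense h12 h13 h23 (Or.inl one_ne_zero), ?_⟩
      intro y hy θ hθ _ _ _ e2 e3
      obtain ⟨k1, -⟩ := key y θ e2 e3
      apply hy
      rw [h0.1, mul_zero, zero_add] at k1
      have := (mul_eq_zero.1 k1).resolve_left hθ.ne'
      simp only [genPhi, this]
      ring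
    · have hab : -(genPsi x x1 - genPsi x x3) ≠ 0 ∨ genPsi x x1 - genPsi x x2 ≠ 0 := by
        by_contra hc
        push Not at hc
        exact h0 ⟨hc.2, neg_eq_zero.1 hc.1⟩
      refine ⟨_, gen_phi_open x1 x2 x3 _ _, gen_phi_dense h12 h13 h23 hab, ?_⟩
      intro y hy θ hθ _ _ _ e2 e3
      obtain ⟨k1, k2⟩ := key y θ e2 e3
      apply hy
      apply mul_left_cancel₀ hθ.ne'
      simp only [genPhi]
      linear_combination (genPsi x x1 - genPsi x x2) * k2 - (genPsi x x1 - genPsi x x3) * k1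
  · refine ⟨Set.univ, isOpen_univ, dense_univ, ?_⟩
    intro y _ θ _ h12 h13 h23
    exact absurd ⟨h12, h13, h23⟩ hd

theorem gen_finite {X ι : Type*} [TopologicalSpace X] (G : ι → Set X) (ho : ∀ i, IsOpen (G i))
    (hd : ∀ i, Dense (G i)) (T : Set ι) (hT : T.Finite) : Dense (⋂ i ∈ T, G i) := by
  induction T, hT using Set.Finite.induction_on with
  | empty => simp
  | insert _ _ ih =>
    rw [Set.biInter_insert]
    exact (hd _).inter_of_isOpen_left ih (ho _)

theorem bGen : BGen := by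
  intro n F hF x a O hO
  choose G ho hd hG using fun t : Hyp n × Hyp n × Hyp n => gen_triple x t.1 t.2.1 t.2.2
  have hD := gen_finite G ho hd (F ×ˢ F ×ˢ F) (hF.prod (hF.prod hF))
  obtain ⟨y, hyG, hyO⟩ := hD.inter_nhds_nonempty hO
  refine ⟨y, hyO, ?_⟩
  intro θ hθ x1 h1 x2 h2 x3 h3 h12 h13 h23
  have := Set.mem_iInter₂.1 hyG (x1, x2, x3) ⟨h1, h2, h3⟩
  exact hG (x1, x2, x3) y this θ hθ h12 h13 h23

end PV2c
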