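import Pool.Agent.P.MP_2c2d1a_pr.Blocks

/-! Basic geometry of the upper half-space model. -/

open MeasureTheory Filter Topology
open scoped ENNReal unitInterval

namespace PV2c

variable {n : ℕ}

theorem sumsq_nonneg (x y : Hyp n) : 0 ≤ ∑ l, (x.1.1 l - y.1.1 l) ^ 2 :=
  Finset.sum_nonneg fun _ _ => sq_nonneg _

theorem den_pos (x y : Hyp n) : 0 < 2 * x.1.2 * y.1.2 :=
  mul_pos (mul_pos two_pos x.2) y.2

theorem one_le_coshDist (x y : Hyp n) : 1 ≤ coshDist x y := by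
  unfold coshDist
  have := div_nonneg (add_nonneg (sumsq_nonneg x y) (sq_nonneg (x.1.2 - y.1.2))) (den_pos x y).le
  linarith

theorem coshDist_pos (x y : Hyp n) : 0 < coshDist x y :=
  lt_of_lt_of_le one_pos (one_le_coshDist x y)

theorem coshDist_comm (x y : Hyp n) : coshDist x y = coshDist y x := by
  unfold coshDist
  have h : ∑ l, (x.1.1 l - y.1.1 l) ^ 2 = ∑ l, (y.1.1 l - x.1.1 l) ^ 2 :=
    Finset.sum_congr rfl fun l _ => by ring
  rw [h]; ring

theorem coshDist_self (x : Hyp n) : coshDist x x = 1 := by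
  simp [coshDist]

theorem one_lt_coshDist {x y : Hyp n} (h : x ≠ y) : 1 < coshDist x y := by
  by_contra hc
  have h1 : coshDist x y ≤ 1 := not_lt.1 hc
  unfold coshDist at h1
  have h2 : (∑ l, (x.1.1 l - y.1.1 l) ^ 2 + (x.1.2 - y.1.2) ^ 2) / (2 * x.1.2 * y.1.2) ≤ 0 := by
    linarith
  rw [div_le_iff₀ (den_pos x y), zero_mul] at h2
  have h3 := sumsq_nonneg x y
  have h4 := sq_nonneg (x.1.2 - y.1.2)
  have h5 : ∑ l, (x.1.1 l - y.1.1 l) ^ 2 = 0 := by linarith
  have h6 : (x.1.2 - y.1.2) ^ 2 = 0 := by linarith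
  rw [Finset.sum_eq_zero_iff_of_nonneg fun _ _ => sq_nonneg _] at h5
  apply h
  apply Subtype.ext
  apply Prod.ext
  · funext l
    have := pow_eq_zero_iff two_ne_zero |>.1 (h5 l (Finset.mem_univ l))
    linarith
  · have := pow_eq_zero_iff two_ne_zero |>.1 h6
    linarith

theorem hdist_le_iff (a b c d : Hyp n) : hdist a b ≤ hdist c d ↔ coshDist a b ≤ coshDist c d :=
  Real.arcosh_le_arcosh (coshDist_pos a b) (coshDist_pos c d)

theorem hdist_eq_iff (a b c d : Hyp n) : hdist a b = hdist c d ↔ coshDist a b = coshDist c d := by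
  rw [le_antisymm_iff, le_antisymm_iff, hdist_le_iff, hdist_le_iff]

theorem mem_cell_iff (Z : Set (Hyp n)) (x y : Hyp n) :
    y ∈ cell Z x ↔ ∀ z ∈ Z, coshDist y x ≤ coshDist y z := by
  simp only [cell, Set.mem_ofPred_eq, hdist_le_iff]

theorem mem_bisector_iff (x x' y : Hyp n) :
    y ∈ bisector x x' ↔ coshDist y x = coshDist y x' := by
  simp only [bisector, Set.mem_ofPred_eq, hdist_eq_iff]

theorem continuous_height : Continuous fun y : Hyp n => y.1.2 := by fun_prop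

theorem continuous_coshDist_left (x : Hyp n) : Continuous fun y : Hyp n => coshDist y x := by
  unfold coshDist
  refine continuous_const.add (Continuous.div (by fun_prop) (by fun_prop) fun y => (den_pos y x).ne')

theorem continuous_coshDist_right (x : Hyp n) : Continuous fun y : Hyp n => coshDist x y := by
  have : (fun y : Hyp n => coshDist x y) = fun y => coshDist y x := by
    funext y; exact coshDist_comm x y
  rw [this]; exact continuous_coshDist_left x

/-- `h_y * E(y, x)` without the fraction in `h_y`. -/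
theorem height_mul_coshDist (y x : Hyp n) : y.1.2 * coshDist y x =
    (∑ l, (y.1.1 l - x.1.1 l) ^ 2 + y.1.2 ^ 2 + x.1.2 ^ 2) / (2 * x.1.2) := by
  unfold coshDist
  have h1 := y.2.ne'
  have h2 := x.2.ne'
  field_simp
  ring

theorem coshDist_le_iff (x y : Hyp n) (R : ℝ) : coshDist x y ≤ R ↔
    ∑ l, (x.1.1 l - y.1.1 l) ^ 2 + x.1.2 ^ 2 + y.1.2 ^ 2 ≤ 2 * R * x.1.2 * y.1.2 := by
  unfold coshDist
  rw [← le_sub_iff_add_le', div_le_iff₀ (den_pos x y)]
  constructor <;> intro h <;> nlinarith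

theorem cbox_mono {c : Fin n → ℝ} {r r' α α' β β' : ℝ} (hr : r ≤ r') (ha : α' ≤ α)
    (hb : β ≤ β') : CBox c r α β ⊆ CBox c r' α' β' := fun _ hy =>
  ⟨fun l => (hy.1 l).trans hr, ha.trans hy.2.1, hy.2.2.trans hb⟩

theorem fat_mono {t : Fin n → ℝ} {j : ℕ} {T T' : ℝ} (hT : 0 < T) (h : T ≤ T') :
    Fat t j T ⊆ Fat t j T' := by
  have hp : (0 : ℝ) < (1 / 2) ^ j := by positivity
  exact cbox_mono (by gcongr) (by gcongr) (by gcongr)

theorem fat_closure {t : Fin n → ℝ} {j : ℕ} {T R : ℝ} (hT : 1 ≤ T) {y y' : Hyp n}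
    (hy : y ∈ Fat t j T) (h : coshDist y y' ≤ R) : y' ∈ Fat t j (4 * R * T) := by
  have hR : 1 ≤ R := (one_le_coshDist y y').trans h
  obtain ⟨h1, h2, h3⟩ := hy
  set s : ℝ := (1 / 2) ^ j with hs
  have hp : 0 < s := by positivity
  rw [coshDist_le_iff] at h
  have hD := sumsq_nonneg y y'
  have a := y.2
  have b := y'.2
  have e1 : y'.1.2 ≤ 2 * R * y.1.2 := by
    by_contra hc
    push Not at hc
    nlinarith [mul_lt_mul_of_pos_right hc b, sq_nonneg y.1.2]
  have e2 : y.1.2 ≤ 2 * R * y'.1.2 := by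
    by_contra hc
    push Not at hc
    nlinarith [mul_lt_mul_of_pos_right hc a, sq_nonneg y'.1.2]
  have e3 : 2 * R * y.1.2 ≤ 2 * R * (T * s) := by gcongr
  have hTs : 0 < T * s := by positivity
  refine ⟨fun l => ?_, ?_, ?_⟩
  · have f1 : (y.1.1 l - y'.1.1 l) ^ 2 ≤ ∑ l, (y.1.1 l - y'.1.1 l) ^ 2 :=
      Finset.single_le_sum (f := fun l => (y.1.1 l - y'.1.1 l) ^ 2) (fun _ _ => sq_nonneg _)
        (Finset.mem_univ l)
    have f2 : (y.1.1 l - y'.1.1 l) ^ 2 ≤ (2 * R * y.1.2) ^ 2 := by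
      have : 2 * R * y.1.2 * y'.1.2 ≤ 2 * R * y.1.2 * (2 * R * y.1.2) := by gcongr
      nlinarith [sq_nonneg y.1.2, sq_nonneg y'.1.2]
    have f3 : |y.1.1 l - y'.1.1 l| ≤ 2 * R * y.1.2 := abs_le_of_sq_le_sq' f2 (by positivity) |> abs_le.2
    have f4 := h1 l
    have f5 : |y'.1.1 l - t l| ≤ |y.1.1 l - y'.1.1 l| + |y.1.1 l - t l| := by
      have : y'.1.1 l - t l = -(y.1.1 l - y'.1.1 l) + (y.1.1 l - t l) := by ring
      rw [this]
      exact (abs_add_le _ _).trans (by rw [abs_neg])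
    nlinarith
  · rw [div_le_iff₀ (by positivity)]
    rw [div_le_iff₀ (by positivity)] at h2
    have : y.1.2 * T ≤ 2 * R * y'.1.2 * T := by gcongr
    have : 0 ≤ R * y'.1.2 * T := by positivity
    nlinarith
  · nlinarith

theorem geo_zero (x y : Hyp n) : geo x y 0 = x := by
  apply Subtype.ext
  apply Prod.ext
  · funext l; simp [geo]
  · simp [geo, Real.sqrt_sq x.2.le]

theorem geo_one (x y : Hyp n) : geo x y 1 = y := by
  apply Subtype.ext
  apply Prod.ext
  · funext l; simp [geo]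
  · simp [geo, Real.sqrt_sq y.2.le]

theorem continuous_geo (x y : Hyp n) : Continuous (geo x y) := by
  unfold geo
  refine Continuous.subtype_mk ?_ _
  fun_prop

theorem geo_fst (x y : Hyp n) (θ : I) (l : Fin n) :
    (geo x y θ).1.1 l = (1 - (θ : ℝ)) * x.1.1 l + θ * y.1.1 l := rfl

theorem geo_height_sq (x y : Hyp n) (θ : I) : (geo x y θ).1.2 ^ 2 =
    (1 - (θ : ℝ)) * x.1.2 ^ 2 + θ * y.1.2 ^ 2 + θ * (1 - θ) * ∑ l, (x.1.1 l - y.1.1 l) ^ 2 :=
  Real.sq_sqrt (geo_pos x y θ).le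

/-- `h_y * E(y, w)` is affine along the geodesic. -/
theorem geo_affine (x y w : Hyp n) (θ : I) :
    (geo x y θ).1.2 * coshDist (geo x y θ) w =
      (1 - (θ : ℝ)) * (x.1.2 * coshDist x w) + θ * (y.1.2 * coshDist y w) := by
  rw [height_mul_coshDist, height_mul_coshDist, height_mul_coshDist, geo_height_sq]
  have h : ∑ l, ((geo x y θ).1.1 l - w.1.1 l) ^ 2 =
      (1 - (θ : ℝ)) * ∑ l, (x.1.1 l - w.1.1 l) ^ 2 + θ * ∑ l, (y.1.1 l - w.1.1 l) ^ 2 -
        θ * (1 - θ) * ∑ l, (x.1.1 l - y.1.1 l) ^ 2 := by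
    rw [Finset.mul_sum, Finset.mul_sum, Finset.mul_sum, ← Finset.sum_add_distrib,
      ← Finset.sum_sub_distrib]
    refine Finset.sum_congr rfl fun l _ => ?_
    rw [geo_fst]; ring
  rw [h]
  have h2 := w.2.ne'
  field_simp
  ring

end PV2c
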