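import Pool.Agent.P.MP_2c2d1a_pr.Blocks

/-! The graph lemma. -/

namespace PV2c

theorem bGraph_encard_biUnion {α β : Type*} (S : Finset α) (A : α → Set β) (K : ℕ∞)
    (h : ∀ a ∈ S, (A a).encard ≤ K) : (⋃ a ∈ S, A a).encard ≤ (S.card : ℕ∞) * K := by
  classical
  induction S using Finset.induction_on with
  | empty => simp
  | insert a S ha ih =>
    rw [Finset.set_biUnion_insert, Finset.card_insert_of_notMem ha]
    calc (A a ∪ ⋃ x ∈ S, A x).encard ≤ (A a).encard + (⋃ x ∈ S, A x).encard :=
          Set.encard_union_le _ _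
      _ ≤ K + (S.card : ℕ∞) * K :=
          add_le_add (h a (Finset.mem_insert_self _ _))
            (ih fun b hb => h b (Finset.mem_insert_of_mem hb))
      _ = ((S.card + 1 : ℕ) : ℕ∞) * K := by push_cast; ring

theorem bGraph : BGraph := by
  classical
  intro V G F f K k c hc hF hcF hadj hdeg ρ hρ i0 hcl
  have hFfin : F.Finite := Set.finite_of_encard_le_coe hF
  set S0 : Set V := {x | Relation.ReflTransGen (fun p q => G.Adj p q ∧ q ∈ F) ρ x} with hS0
  have hsub : S0 ⊆ F := by
    intro x hx
    induction hx with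
    | refl => exact hρ
    | tail _ h _ => exact h.2
  have hfin : S0.Finite := hFfin.subset hsub
  have hρS : ρ ∈ S0 := Relation.ReflTransGen.refl
  have hstep : ∀ p ∈ S0, ∀ q ∈ F, G.Adj p q → q ∈ S0 := fun p hp q hq h =>
    Relation.ReflTransGen.tail hp ⟨h, hq⟩
  have h0 : c (Sum.inl i0) ∈ S0 := hcl S0 hρS fun p _ q hq hp h => hstep p hp q hq h
  have hr : ∀ j, c (Sum.inr j) ∈ S0 := fun j => hstep _ h0 _ (hcF _) (hadj i0 j)
  have hl : ∀ i, c (Sum.inl i) ∈ S0 := fun i => hstep _ (hr i0) _ (hcF _) (hadj i i0).symm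
  have hall : ∀ w, c w ∈ S0 := fun w => by
    cases w with
    | inl i => exact hl i
    | inr j => exact hr j
  refine ⟨hfin.toFinset, hfin.mem_toFinset.2 hρS, hfin.mem_toFinset.2 h0, ?_, ?_, ?_, ?_⟩
  · rw [hfin.coe_toFinset]
    have hreach : ∀ x (hx : x ∈ S0), (G.induce S0).Reachable ⟨ρ, hρS⟩ ⟨x, hx⟩ := by
      intro x hx
      induction hx with
      | refl => exact SimpleGraph.Reachable.refl _
      | tail h1 h2 ih =>
        refine (ih).trans (SimpleGraph.Adj.reachable ?_)
        exact h2.1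
    have : Nonempty S0 := ⟨⟨ρ, hρS⟩⟩
    exact ⟨fun a b => (hreach a.1 a.2).symm.trans (hreach b.1 b.2)⟩
  · have hinj : Function.Injective fun i : Fin k => c (Sum.inl i) :=
      hc.comp Sum.inl_injective
    have hinj' : Function.Injective fun j : Fin k => c (Sum.inr j) :=
      hc.comp Sum.inr_injective
    have hk : ∀ i, (k : ℕ∞) ≤ (G.neighborSet (c (Sum.inl i))).encard := by
      intro i
      have h1 : (k : ℕ∞) ≤ (Set.range fun j : Fin k => c (Sum.inr j)).encard := by
        simpa using hinj'.encard_range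
      refine h1.trans (Set.encard_le_encard ?_)
      rintro _ ⟨j, rfl⟩
      exact hadj i j
    calc ((k ^ 2 : ℕ) : ℕ∞) = ∑ _i : Fin k, (k : ℕ∞) := by
          simp [sq]
      _ ≤ ∑ i : Fin k, (G.neighborSet (c (Sum.inl i))).encard :=
          Finset.sum_le_sum fun i _ => hk i
      _ = ∑ v ∈ Finset.univ.image fun i : Fin k => c (Sum.inl i), (G.neighborSet v).encard := by
          rw [Finset.sum_image fun a _ b _ h => hinj h]
      _ ≤ evol G hfin.toFinset := by
          refine Finset.sum_le_sum_of_subset ?_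
          intro v hv
          obtain ⟨i, -, rfl⟩ := Finset.mem_image.1 hv
          exact hfin.mem_toFinset.2 (hl i)
  · unfold evol
    refine ENat.sum_lt_top.2 ?_
    intro v hv
    have hvF : v ∈ F := hsub (hfin.mem_toFinset.1 hv)
    have h1 : (G.neighborSet v \ Set.range c).Finite := Set.finite_of_encard_le_coe (hdeg v hvF)
    have h2 : (G.neighborSet v).Finite :=
      (h1.union (Set.finite_range c)).subset (by
        intro x hx
        by_cases h : x ∈ Set.range c
        · exact Or.inr h
        · exact Or.inl ⟨hx, h⟩)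
    exact h2.encard_lt_top
  · unfold ebdry
    have hcard : (hfin.toFinset.card : ℕ∞) ≤ f := by
      rw [← hfin.encard_eq_coe_toFinset_card]
      exact (Set.encard_le_encard hsub).trans hF
    calc {e ∈ G.edgeSet | ∃ a b, e = s(a, b) ∧ a ∈ hfin.toFinset ∧ b ∉ hfin.toFinset}.encard
        ≤ (⋃ a ∈ hfin.toFinset,
            (fun b => s(a, b)) '' (G.neighborSet a \ Set.range c)).encard := by
          refine Set.encard_le_encard ?_
          rintro e ⟨he, a, b, rfl, ha, hb⟩
          refine Set.mem_biUnion ha ⟨b, ⟨he, ?_⟩, rfl⟩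
          rintro ⟨w, rfl⟩
          exact hb (hfin.mem_toFinset.2 (hall w))
      _ ≤ (hfin.toFinset.card : ℕ∞) * K :=
          bGraph_encard_biUnion _ _ _ fun a ha =>
            (Set.encard_image_le _ _).trans (hdeg a (hsub (hfin.mem_toFinset.1 ha)))
      _ ≤ (f : ℕ∞) * K := mul_le_mul_left hcard _
      _ = ((f * K : ℕ) : ℕ∞) := by push_cast; rfl

end PV2c
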