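import Pool.Agent.P.MP_2c2d1a_pr.Blocks

/-! The planted events of disjoint candidates are independent. -/

open MeasureTheory ProbabilityTheory
open scoped ENNReal

namespace PV2c

/-- The law of the counts for an arbitrary finite index type. -/
theorem Ind_law {Ω X : Type} [MeasurableSpace Ω] [MeasurableSpace X] {P : Measure Ω}
    {Z : Ω → Set X} {μ : Measure X} (h : IsPPP P Z μ) {κ : Type} [Fintype κ] (A : κ → Set X)
    (k : κ → ℕ) (hm : ∀ i, MeasurableSet (A i)) (hf : ∀ i, μ (A i) < ⊤)
    (hd : ∀ i j, i ≠ j → Disjoint (A i) (A j)) :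
    P {ω | ∀ i, (Z ω ∩ A i).encard = k i} =
      ∏ i, ENNReal.ofReal (poi (μ (A i)).toReal (k i)) := by
  have e := (Fintype.equivFin κ).symm
  have h1 := h.law _ (fun i => A (e i)) (fun i => k (e i)) (fun i => hm _) (fun i => hf _)
    (fun i j hij => hd _ _ fun hh => hij (e.injective hh))
  have h2 : {ω | ∀ i, (Z ω ∩ A i).encard = k i} =
      {ω | ∀ i, (Z ω ∩ A (e i)).encard = k (e i)} := by
    ext ω
    exact ⟨fun hh i => hh _, fun hh i => by simpa using hh (e.symm i)⟩
  rw [h2, h1]
  exact e.prod_comp fun i => ENNReal.ofReal (poi (μ (A i)).toReal (k i))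

/-- Events that prescribe counts in pairwise disjoint sets are independent. -/
theorem Ind_indep {Ω X : Type} [MeasurableSpace Ω] [MeasurableSpace X] {P : Measure Ω}
    [IsProbabilityMeasure P] {Z : Ω → Set X} {μ : Measure X} (h : IsPPP P Z μ) {κ : Type}
    [Fintype κ] (A : ℕ → κ → Set X) (k : κ → ℕ) (hm : ∀ z i, MeasurableSet (A z i))
    (hf : ∀ z i, μ (A z i) < ⊤) (hd : ∀ z i j, i ≠ j → Disjoint (A z i) (A z j))
    (hd' : ∀ z z', z ≠ z' → ∀ i j, Disjoint (A z i) (A z' j)) (Ev : ℕ → Set Ω)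
    (hE : ∀ z, Ev z = {ω | ∀ i, (Z ω ∩ A z i).encard = k i}) :
    (∀ z, MeasurableSet (Ev z)) ∧ iIndepSet Ev P := by
  have hmE : ∀ z, MeasurableSet (Ev z) := fun z => by
    rw [hE z, Set.ofPred_forall]
    exact MeasurableSet.iInter fun i => h.meas _ (hm z i) _
  refine ⟨hmE, (iIndepSet_iff_meas_biInter hmE).2 fun T => ?_⟩
  have h1 := Ind_law h (κ := T × κ) (fun p => A p.1 p.2) (fun p => k p.2) (fun p => hm _ _)
    (fun p => hf _ _) (fun p q hpq => by
      by_cases hz : (p.1 : ℕ) = q.1
      · have hi : p.2 ≠ q.2 := fun hh => hpq (Prod.ext (Subtype.ext hz) hh)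
        rw [← hz]
        exact hd _ _ _ hi
      · exact hd' _ _ hz _ _)
  have h2 : (⋂ z ∈ T, Ev z) = {ω | ∀ p : T × κ, (Z ω ∩ A p.1 p.2).encard = k p.2} := by
    ext ω
    simp only [Set.mem_iInter, hE, Set.mem_ofPred_eq]
    exact ⟨fun hh p => hh _ p.1.2 _, fun hh z hz i => hh (⟨z, hz⟩, i)⟩
  rw [h2, h1, Fintype.prod_prod_type, ← Finset.prod_coe_sort T]
  refine Finset.prod_congr rfl fun z _ => ?_
  rw [hE, Ind_law h (A z) k (hm _) (hf _) (hd _)]

theorem bInd : BInd := by
  intro Ω X _ _ P _ Z μ h ι _ M B W hBm hBf hBd hWm hWB hWd Ev hEv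
  let A : ℕ → Option ι → Set X := fun z o => o.elim (B z \ ⋃ i, W z i) (W z)
  let k : Option ι → ℕ := fun o => o.elim 0 fun _ => 1
  have hAB : ∀ z o, A z o ⊆ B z := fun z o => by
    cases o with
    | none => exact Set.sdiff_subset
    | some i => exact hWB z i
  have hnone : ∀ z i, Disjoint (A z none) (A z (some i)) := fun z i =>
    Set.disjoint_left.2 fun x hx hx' => hx.2 (Set.mem_iUnion.2 ⟨i, hx'⟩)
  obtain ⟨hmE, hI⟩ := Ind_indep h A k
    (fun z o => by
      cases o with
      | none => exact (hBm z).diff (MeasurableSet.iUnion (hWm z))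
      | some i => exact hWm z i)
    (fun z o => (measure_mono (hAB z o)).trans_lt (hBf z))
    (fun z o o' hne => by
      cases o with
      | none =>
        cases o' with
        | none => exact absurd rfl hne
        | some j => exact hnone z j
      | some i =>
        cases o' with
        | none => exact (hnone z i).symm
        | some j => exact hWd z i j fun hh => hne (by rw [hh]))
    (fun z z' hz o o' => (hBd z z' hz).mono (hAB z o) (hAB z' o')) Ev
    (fun z => by
      rw [hEv z]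
      ext ω
      simp only [Set.mem_ofPred_eq, Option.forall]
      exact ⟨fun hh => ⟨hh.2, hh.1⟩, fun hh => ⟨hh.2, hh.1⟩⟩)
  have h1 := (iIndepSet_iff Ev P).1 hI (Finset.range M) (f := fun z => (Ev z)ᶜ)
    (fun z _ => (MeasurableSpace.measurableSet_generateFrom (Set.mem_singleton _)).compl)
  rw [measureReal_def, h1, ENNReal.toReal_prod, ← Finset.sum_neg_distrib, Real.exp_sum]
  refine Finset.prod_le_prod (fun z _ => ENNReal.toReal_nonneg) fun z _ => ?_
  rw [← measureReal_def, probReal_compl_eq_one_sub (hmE z)]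
  exact Real.one_sub_le_exp_neg _

end PV2c
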