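import Pool.Agent.P.MP_2c2d1a_pr.Blocks

/-! Many candidates: some candidate succeeds and is not spoiled. -/

open MeasureTheory Filter Topology

namespace PV2c

theorem many_exists (f : ℕ → ℝ) (hf : ∀ z, f z ≤ 1) (M0 : ℕ) (L : ℝ) (hL : 0 ≤ L)
    (h0 : L ≤ ∑ z ∈ Finset.range M0, f z) :
    ∃ M ≤ M0, L ≤ ∑ z ∈ Finset.range M, f z ∧ ∑ z ∈ Finset.range M, f z ≤ L + 1 := by
  classical
  have hex : ∃ M, L ≤ ∑ z ∈ Finset.range M, f z := ⟨M0, h0⟩
  refine ⟨Nat.find hex, Nat.find_min' hex h0, Nat.find_spec hex, ?_⟩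
  rcases hM : Nat.find hex with _ | M
  · simp only [Finset.range_zero, Finset.sum_empty]
    linarith
  · have hlt : ¬ L ≤ ∑ z ∈ Finset.range M, f z := Nat.find_min hex (by omega)
    rw [Finset.sum_range_succ]
    have := hf M
    linarith [not_le.1 hlt]

theorem bMany : BMany := by
  intro Ω _ P _ M0 Ev Bad p L δ hL hδ hLp hp hbad hind
  have h0 : L ≤ ∑ z ∈ Finset.range M0, P.real (Ev z) := by
    refine hLp.trans ?_
    have h1 : ∑ _z ∈ Finset.range M0, p ≤ ∑ z ∈ Finset.range M0, P.real (Ev z) :=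
      Finset.sum_le_sum fun z hz => hp z (Finset.mem_range.1 hz)
    simpa [Finset.sum_const, Finset.card_range, nsmul_eq_mul] using h1
  obtain ⟨M, hM, h1, h2⟩ :=
    many_exists (fun z => P.real (Ev z)) (fun _ => measureReal_le_one) M0 L hL h0
  have hsub : {ω | ¬ ∃ z < M0, ω ∈ Ev z ∧ ω ∉ Bad z} ⊆
      (⋂ z ∈ Finset.range M, (Ev z)ᶜ) ∪ ⋃ z ∈ Finset.range M, (Ev z ∩ Bad z) := by
    intro ω hω
    by_cases hc : ω ∈ ⋂ z ∈ Finset.range M, (Ev z)ᶜ
    · exact Or.inl hc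
    · right
      simp only [Set.mem_iInter, Set.mem_compl_iff, not_forall, not_not] at hc
      obtain ⟨z, hz, hE⟩ := hc
      refine Set.mem_iUnion₂.2 ⟨z, hz, hE, ?_⟩
      by_contra hB
      exact hω ⟨z, lt_of_lt_of_le (Finset.mem_range.1 hz) hM, hE, hB⟩
  have h3 : P.real (⋃ z ∈ Finset.range M, (Ev z ∩ Bad z)) ≤ (L + 1) * δ := by
    refine (measureReal_biUnion_finset_le _ _).trans ?_
    have h4 : ∑ z ∈ Finset.range M, P.real (Ev z ∩ Bad z) ≤
        ∑ z ∈ Finset.range M, P.real (Ev z) * δ :=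
      Finset.sum_le_sum fun z hz => hbad z (lt_of_lt_of_le (Finset.mem_range.1 hz) hM)
    refine h4.trans ?_
    rw [← Finset.sum_mul]
    exact mul_le_mul_of_nonneg_right h2 hδ
  have h5 : P.real (⋂ z ∈ Finset.range M, (Ev z)ᶜ) ≤ Real.exp (-L) :=
    (hind M hM).trans (Real.exp_le_exp.2 (by linarith))
  calc P.real {ω | ¬ ∃ z < M0, ω ∈ Ev z ∧ ω ∉ Bad z}
      ≤ P.real ((⋂ z ∈ Finset.range M, (Ev z)ᶜ) ∪ ⋃ z ∈ Finset.range M, (Ev z ∩ Bad z)) :=
        measureReal_mono hsub (measure_ne_top _ _)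
    _ ≤ P.real (⋂ z ∈ Finset.range M, (Ev z)ᶜ) +
          P.real (⋃ z ∈ Finset.range M, (Ev z ∩ Bad z)) := measureReal_union_le _ _
    _ ≤ Real.exp (-L) + (L + 1) * δ := add_le_add h5 h3

end PV2c
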