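import Pool.Agent.P.MP_2c2d1a_pr.Geo

/-! Neighbours are near, and strict neighbours are neighbours. -/

open MeasureTheory Filter Topology
open scoped ENNReal unitInterval

namespace PV2c

variable {n : ℕ}

/-- Two steps of length at most `R + 2` stay in the large region. -/
theorem nbr_two {t : Fin n → ℝ} {j : ℕ} {T1 T R : ℝ} (hT1 : 1 ≤ T1) (hR : 1 ≤ R)
    (hT : 16 * (R + 2) ^ 2 * T1 ≤ T) {x y z : Hyp n} (hx : x ∈ Fat t j T1)
    (h1 : coshDist y x ≤ R + 2) (h2 : coshDist y z ≤ R + 2) : z ∈ Fat t j T := by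
  rw [coshDist_comm] at h1
  have a := fat_closure hT1 hx h1
  have hb : 1 ≤ 4 * (R + 2) * T1 := by nlinarith
  have b := fat_closure hb a h2
  refine fat_mono (by positivity) ?_ b
  calc 4 * (R + 2) * (4 * (R + 2) * T1) = 16 * (R + 2) ^ 2 * T1 := by ring
    _ ≤ T := hT

/-- A point of the cell of `x` is near `x`. -/
theorem nbr_near {Z : Set (Hyp n)} {t : Fin n → ℝ} {j : ℕ} {T1 T R : ℝ} (hT1 : 1 ≤ T1)
    (hR : 1 ≤ R) (hT : 16 * (R + 2) ^ 2 * T1 ≤ T) (hV : Vac Z (Fat t j T) R) {x y : Hyp n}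
    (hx : x ∈ Fat t j T1) (hy : ∀ z ∈ Z, coshDist y x ≤ coshDist y z) :
    coshDist y x ≤ R + 1 := by
  by_contra hc
  push Not at hc
  have hcont : Continuous fun θ : I => coshDist (geo x y θ) x :=
    (continuous_coshDist_left x).comp (continuous_geo x y)
  have hmem : R + 1 ∈ Set.Icc (coshDist (geo x y 0) x) (coshDist (geo x y 1) x) := by
    rw [geo_zero, geo_one, coshDist_self]
    exact ⟨by linarith, hc.le⟩
  obtain ⟨θ, hθ⟩ := intermediate_value_univ (0 : I) 1 hcont hmem
  have hθ' : coshDist (geo x y θ) x = R + 1 := hθ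
  have hp : geo x y θ ∈ Fat t j T :=
    nbr_two hT1 hR hT hx (y := geo x y θ) (by linarith) (by rw [coshDist_self]; linarith)
  obtain ⟨w, hw, hwR⟩ := hV _ hp
  have e1 := geo_affine x y w θ
  have e2 := geo_affine x y x θ
  have h0 := θ.2.1
  have h1 : 0 ≤ 1 - (θ : ℝ) := by linarith [θ.2.2]
  have f1 : x.1.2 * coshDist x x ≤ x.1.2 * coshDist x w := by
    rw [coshDist_self]
    exact mul_le_mul_of_nonneg_left (one_le_coshDist x w) x.2.le
  have f2 : y.1.2 * coshDist y x ≤ y.1.2 * coshDist y w :=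
    mul_le_mul_of_nonneg_left (hy w hw) y.2.le
  have f3 := mul_le_mul_of_nonneg_left f1 h1
  have f4 := mul_le_mul_of_nonneg_left f2 h0
  have f5 : (geo x y θ).1.2 * coshDist (geo x y θ) x ≤
      (geo x y θ).1.2 * coshDist (geo x y θ) w := by rw [e1, e2]; linarith
  have f6 := le_of_mul_le_mul_left f5 (geo x y θ).2
  linarith

theorem bNbr : BNbr := by
  intro n Z t j T1 T R hT1 hR hT hV x hxZ hx x'
  refine ⟨?_, ?_⟩
  · rintro ⟨U, -, ⟨y, hy⟩, hsub⟩
    have h1 := (mem_cell_iff Z x y).1 (hsub hy).1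
    have h2 := (mem_bisector_iff x x' y).1 hy.2
    have h3 := nbr_near hT1 hR hT hV hx h1
    exact nbr_two hT1 hR hT hx (y := y) (by linarith) (by linarith)
  · rintro hfin ⟨y, hy1, hy2⟩
    have h1 : ∀ z ∈ Z, coshDist y x ≤ coshDist y z := by
      intro z hz
      by_cases e1 : z = x
      · rw [e1]
      by_cases e2 : z = x'
      · rw [e2, hy1]
      exact (hy2 z hz e1 e2).le
    have h3 := nbr_near hT1 hR hT hV hx h1
    have hfin' : ((Z ∩ Fat t j T) \ {x, x'}).Finite := hfin.sdiff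
    refine ⟨{y' | coshDist y' x < R + 2} ∩
      ⋂ z ∈ (Z ∩ Fat t j T) \ {x, x'}, {y' | coshDist y' x < coshDist y' z}, ?_, ⟨y, ?_, ?_⟩, ?_⟩
    · refine (isOpen_lt (continuous_coshDist_left x) continuous_const).inter ?_
      exact hfin'.isOpen_biInter fun z _ =>
        isOpen_lt (continuous_coshDist_left x) (continuous_coshDist_left z)
    · refine ⟨show coshDist y x < R + 2 by linarith, ?_⟩
      refine Set.mem_iInter₂.2 fun z hz => ?_
      have hz2 := hz.2
      simp only [Set.mem_insert_iff, Set.mem_singleton_iff, not_or] at hz2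
      exact hy2 z hz.1.1 hz2.1 hz2.2
    · exact (mem_bisector_iff x x' y).2 hy1
    · rintro y' ⟨⟨ha, hb⟩, hc⟩
      have ha' : coshDist y' x < R + 2 := ha
      have hc' := (mem_bisector_iff x x' y').1 hc
      have key : ∀ z ∈ Z, coshDist y' x ≤ coshDist y' z := by
        intro z hz
        by_cases e1 : z = x
        · rw [e1]
        by_cases e2 : z = x'
        · rw [e2, hc']
        by_contra hlt
        push Not at hlt
        have hzF : z ∈ Fat t j T := nbr_two hT1 hR hT hx (y := y') ha'.le (by linarith)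
        have hz' : z ∈ (Z ∩ Fat t j T) \ {x, x'} := by
          refine ⟨⟨hz, hzF⟩, ?_⟩
          simp only [Set.mem_insert_iff, Set.mem_singleton_iff, not_or]
          exact ⟨e1, e2⟩
        have h5 : coshDist y' x < coshDist y' z := Set.mem_iInter₂.1 hb z hz'
        linarith
      refine ⟨(mem_cell_iff Z x y').2 key, (mem_cell_iff Z x' y').2 fun z hz => ?_⟩
      rw [← hc']
      exact key z hz

end PV2c
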