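import Pool.Agent.P.MP_2c2d1a_pr.Blocks

namespace PV2c

theorem net_cosh {n : ℕ} (y w : Hyp n) {a b : ℝ} (ha : 0 < a)
    (h1 : ∀ l, |y.1.1 l - w.1.1 l| ≤ b * a) (y1 : a ≤ y.1.2) (y2 : y.1.2 ≤ 2 * a)
    (w1 : a ≤ w.1.2) (w2 : w.1.2 ≤ 2 * a) : coshDist y w ≤ 1 + (n * b ^ 2 + 1) / 2 := by
  have hs : ∑ l, (y.1.1 l - w.1.1 l) ^ 2 ≤ n * (b * a) ^ 2 := by
    calc ∑ l, (y.1.1 l - w.1.1 l) ^ 2 ≤ ∑ _l : Fin n, (b * a) ^ 2 :=
          Finset.sum_le_sum fun l _ => sq_le_sq' (abs_le.1 (h1 l)).1 (abs_le.1 (h1 l)).2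
      _ = n * (b * a) ^ 2 := by simp
  have hh : (y.1.2 - w.1.2) ^ 2 ≤ a ^ 2 := sq_le_sq' (by linarith) (by linarith)
  have hp : a ^ 2 ≤ y.1.2 * w.1.2 := by nlinarith
  have hd : 0 < 2 * y.1.2 * w.1.2 := by nlinarith
  have hn : 0 ≤ (n : ℝ) * b ^ 2 + 1 := by positivity
  unfold coshDist
  refine add_le_add le_rfl ?_
  rw [div_le_iff₀ hd]
  have := mul_le_mul_of_nonneg_left hp hn
  nlinarith

theorem bNet : BNet := by
  intro n N T hT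
  refine ⟨?_, ?_⟩
  · unfold QI
    rw [Finset.card_product, Finset.card_product, Finset.card_range, Nat.card_Icc,
      Fintype.card_piFinset]
    have e : (Finset.Icc (-(T ^ 2 : ℤ)) (T ^ 2)).card = 2 * T ^ 2 + 1 := by
      rw [Int.card_Icc]
      have : (T ^ 2 : ℤ) + 1 - -(T ^ 2 : ℤ) = ((2 * T ^ 2 + 1 : ℕ) : ℤ) := by push_cast; ring
      rw [this, Int.toNat_natCast]
    simp [e]
  · intro t ρ Z hρ hQ j hj y hy
    obtain ⟨hu, h1, h2⟩ := hy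
    have hT' : (1 : ℝ) ≤ T := by exact_mod_cast hT
    have hT0 : (0 : ℝ) < T := by linarith
    set σ : ℝ := (1 / 2) ^ j / T with hσ
    have hs : 0 < σ := by positivity
    have hTs : (T : ℝ) * (1 / 2) ^ j = (T : ℝ) ^ 2 * σ := by rw [hσ]; field_simp
    rw [hTs] at hu h2
    have m1 : 1 ≤ ⌊y.1.2 / σ⌋₊ := by
      rw [Nat.one_le_floor_iff, le_div_iff₀ hs]; linarith
    have m2 : ⌊y.1.2 / σ⌋₊ ≤ T ^ 2 := by
      apply Nat.floor_le_of_le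
      rw [div_le_iff₀ hs]; push_cast; exact h2
    have m3 : (⌊y.1.2 / σ⌋₊ : ℝ) ≤ y.1.2 / σ := Nat.floor_le (div_nonneg y.2.le hs.le)
    have m4 : y.1.2 / σ < (⌊y.1.2 / σ⌋₊ : ℝ) + 1 := Nat.lt_floor_add_one _
    rw [le_div_iff₀ hs] at m3
    rw [div_lt_iff₀ hs] at m4
    have m5 : (1 : ℝ) ≤ (⌊y.1.2 / σ⌋₊ : ℝ) := by exact_mod_cast m1
    obtain ⟨w, hwZ, hw, w1, w2⟩ := hQ (j, ⌊y.1.2 / σ⌋₊, fun l => ⌊(y.1.1 l - t l) / σ⌋) (by
      unfold QI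
      refine Finset.mem_product.2 ⟨Finset.mem_range.2 (by simpa using Nat.lt_succ_of_le hj),
        Finset.mem_product.2 ⟨Finset.mem_Icc.2 ⟨m1, m2⟩, Fintype.mem_piFinset.2 fun l => ?_⟩⟩
      have k := abs_le.1 (hu l)
      refine Finset.mem_Icc.2 ⟨Int.le_floor.2 ?_, ?_⟩
      · rw [le_div_iff₀ hs]; push_cast; linarith [k.1]
      · have : (⌊(y.1.1 l - t l) / σ⌋ : ℝ) ≤ ((T ^ 2 : ℤ) : ℝ) := by
          refine (Int.floor_le _).trans ?_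
          rw [div_le_iff₀ hs]; push_cast; exact k.2
        exact_mod_cast this)
    simp only [← hσ] at hw w1 w2
    refine ⟨w, hwZ, net_cosh y w (a := σ * ⌊y.1.2 / σ⌋₊) (by positivity) (fun l => ?_)
      (by linarith) (by nlinarith) w1 w2⟩
    have k := abs_le.1 (hw l)
    have f1 := Int.floor_le ((y.1.1 l - t l) / σ)
    have f2 := Int.lt_floor_add_one ((y.1.1 l - t l) / σ)
    rw [le_div_iff₀ hs] at f1
    rw [div_lt_iff₀ hs] at f2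
    have g : σ ≤ σ * ⌊y.1.2 / σ⌋₊ := by nlinarith
    rw [abs_le]
    constructor <;> nlinarith [k.1, k.2]

end PV2c
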