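import Pool.Agent.P.MP_2c2d1a_pr.Blocks

/-! One candidate: the planted event and one more disjoint set. -/

open MeasureTheory Filter Topology
open scoped ENNReal

namespace PV2c

variable {Ω X : Type} [MeasurableSpace Ω] [MeasurableSpace X] {P : Measure Ω}
  {Z : Ω → Set X} {μ : Measure X}

theorem One_poi_nonneg {m : ℝ} (hm : 0 ≤ m) (k : ℕ) : 0 ≤ poi m k := by
  unfold poi; positivity

theorem One_law (h : IsPPP P Z μ) {κ : Type} [Fintype κ] (A : κ → Set X) (k : κ → ℕ)
    (hA : ∀ i, MeasurableSet (A i)) (hf : ∀ i, μ (A i) < ⊤)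
    (hd : ∀ i j, i ≠ j → Disjoint (A i) (A j)) :
    P.real {ω | ∀ i, (Z ω ∩ A i).encard = k i} = ∏ i, poi (μ (A i)).toReal (k i) := by
  have e := (Fintype.equivFin κ).symm
  have h1 := h.law _ (fun i => A (e i)) (fun i => k (e i)) (fun i => hA _) (fun i => hf _)
    (fun i j hij => hd _ _ fun hh => hij (e.injective hh))
  have h2 : {ω | ∀ i, (Z ω ∩ A i).encard = k i} =
      {ω | ∀ i, (Z ω ∩ A (e i)).encard = k (e i)} := by
    ext ω
    exact ⟨fun hh i => hh _, fun hh i => by simpa using hh (e.symm i)⟩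
  rw [Measure.real, h2, h1, ENNReal.toReal_prod,
    ← e.prod_comp fun i => poi (μ (A i)).toReal (k i)]
  exact Finset.prod_congr rfl fun i _ =>
    ENNReal.toReal_ofReal (One_poi_nonneg ENNReal.toReal_nonneg _)

theorem One_extra (h : IsPPP P Z μ) {κ : Type} [Fintype κ] (A : κ → Set X) (k : κ → ℕ)
    (hA : ∀ i, MeasurableSet (A i)) (hf : ∀ i, μ (A i) < ⊤)
    (hd : ∀ i j, i ≠ j → Disjoint (A i) (A j)) (D : Set X) (hD : MeasurableSet D)
    (hDf : μ D < ⊤) (hDA : ∀ i, Disjoint D (A i)) (j : ℕ) :
    P.real ({ω | ∀ i, (Z ω ∩ A i).encard = k i} ∩ {ω | (Z ω ∩ D).encard = j}) =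
      P.real {ω | ∀ i, (Z ω ∩ A i).encard = k i} * poi (μ D).toReal j := by
  have h1 := One_law h (κ := Option κ) (fun o => o.elim D A) (fun o => o.elim j k)
    (fun o => by cases o <;> simp [hA, hD]) (fun o => by cases o <;> simp [hf, hDf])
    (fun o o' hne => by
      cases o with
      | none =>
        cases o' with
        | none => exact absurd rfl hne
        | some i => exact hDA i
      | some i =>
        cases o' with
        | none => exact (hDA i).symm
        | some i' => exact hd i i' fun hh => hne (congrArg some hh))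
  have h2 : ({ω | ∀ i, (Z ω ∩ A i).encard = k i} ∩ {ω | (Z ω ∩ D).encard = j}) =
      {ω | ∀ o : Option κ, (Z ω ∩ o.elim D A).encard = (o.elim j k : ℕ)} := by
    ext ω
    constructor
    · rintro ⟨h3, h4⟩ o
      cases o with
      | none => exact h4
      | some i => exact h3 i
    · intro hh
      exact ⟨fun i => hh (some i), hh none⟩
  rw [h2, h1, Fintype.prod_option, One_law h A k hA hf hd, mul_comm]
  rfl

theorem One_tail {m : ℝ} (hm : 0 ≤ m) (K : ℕ) :
    1 - ∑ i ∈ Finset.range K, poi m i ≤ Real.exp m / 2 ^ K := by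
  have hs : ∀ x : ℝ, HasSum (fun n : ℕ => x ^ n / (n.factorial : ℝ)) (Real.exp x) := by
    intro x
    rw [Real.exp_eq_exp_ℝ]
    exact NormedSpace.expSeries_div_hasSum_exp x
  have h1 : HasSum (fun n : ℕ => if n ∈ Finset.range K then m ^ n / (n.factorial : ℝ) else 0)
      (∑ i ∈ Finset.range K, m ^ i / (i.factorial : ℝ)) := by
    have h0 := hasSum_sum_of_ne_finset_zero (L := SummationFilter.unconditional ℕ)
      (f := fun n : ℕ => if n ∈ Finset.range K then m ^ n / (n.factorial : ℝ) else 0)
      (s := Finset.range K) (fun b hb => if_neg hb)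
    rwa [Finset.sum_congr rfl fun i hi => if_pos hi] at h0
  have h2 := h1.add ((hs (2 * m)).div_const (2 ^ K))
  have h3 : Real.exp m ≤ ∑ i ∈ Finset.range K, m ^ i / (i.factorial : ℝ) +
      Real.exp (2 * m) / 2 ^ K := by
    refine hasSum_le (fun n => ?_) (hs m) h2
    by_cases hn : n ∈ Finset.range K
    · rw [if_pos hn]
      have : 0 ≤ (2 * m) ^ n / (n.factorial : ℝ) / 2 ^ K := by positivity
      linarith
    · rw [if_neg hn, zero_add, le_div_iff₀ (by positivity), mul_pow]
      have hK : (2 : ℝ) ^ K ≤ 2 ^ n :=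
        pow_le_pow_right₀ one_le_two (by simpa using hn)
      have h0 : 0 ≤ m ^ n / (n.factorial : ℝ) := by positivity
      calc m ^ n / (n.factorial : ℝ) * 2 ^ K ≤ m ^ n / (n.factorial : ℝ) * 2 ^ n :=
            mul_le_mul_of_nonneg_left hK h0
        _ = 2 ^ n * m ^ n / (n.factorial : ℝ) := by ring
  have h4 : ∑ i ∈ Finset.range K, poi m i =
      Real.exp (-m) * ∑ i ∈ Finset.range K, m ^ i / (i.factorial : ℝ) := by
    rw [Finset.mul_sum]
    exact Finset.sum_congr rfl fun i _ => by unfold poi; ring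
  have h5 : Real.exp (-m) * Real.exp m = 1 := by rw [← Real.exp_add]; simp
  have h6 : Real.exp (-m) * Real.exp (2 * m) = Real.exp m := by
    rw [← Real.exp_add]; congr 1; ring
  have h7 := mul_le_mul_of_nonneg_left h3 (Real.exp_pos (-m)).le
  rw [h5, mul_add, ← mul_div_assoc, h6] at h7
  rw [h4]
  linarith

theorem One_lt (x : ℕ∞) (K : ℕ) : x < K ↔ ∃ i ∈ Finset.range K, x = (i : ℕ) := by
  cases x using ENat.recTopCoe with
  | top => simp
  | coe a => simp

theorem bOne : BOne := by
  intro Ω X _ _ P _ Z μ h ι _ B W b v hb hv hB hμB hW hWB hWd hvW Ev hEv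
  have hR : MeasurableSet (B \ ⋃ i, W i) := hB.diff (MeasurableSet.iUnion hW)
  have hBf : μ B < ⊤ := hμB.trans_lt ENNReal.ofReal_lt_top
  have hle : ∀ A : Set X, A ⊆ B → (μ A).toReal ≤ b := fun A hA =>
    ENNReal.toReal_le_of_le_ofReal hb ((measure_mono hA).trans hμB)
  let A : Option ι → Set X := fun o => o.elim (B \ ⋃ i, W i) W
  let k : Option ι → ℕ := fun o => o.elim 0 fun _ => 1
  have hA : ∀ o, MeasurableSet (A o) := fun o => by
    cases o with
    | none => exact hR
    | some i => exact hW i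
  have hAB : ∀ o, A o ⊆ B := fun o => by
    cases o with
    | none => exact Set.sdiff_subset
    | some i => exact hWB i
  have hf : ∀ o, μ (A o) < ⊤ := fun o => (measure_mono (hAB o)).trans_lt hBf
  have hRW : ∀ i, Disjoint (B \ ⋃ i, W i) (W i) := fun i =>
    Set.disjoint_left.2 fun x hx hx' => hx.2 (Set.mem_iUnion.2 ⟨i, hx'⟩)
  have hd : ∀ o o', o ≠ o' → Disjoint (A o) (A o') := fun o o' hne => by
    cases o with
    | none =>
      cases o' with
      | none => exact absurd rfl hne
      | some i => exact hRW i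
    | some i =>
      cases o' with
      | none => exact (hRW i).symm
      | some i' => exact hWd i i' fun hh => hne (congrArg some hh)
  have hE : Ev = {ω | ∀ o, (Z ω ∩ A o).encard = k o} := by
    rw [hEv]
    ext ω
    constructor
    · rintro ⟨h3, h4⟩ o
      cases o with
      | none => exact h4
      | some i => exact h3 i
    · intro hh
      exact ⟨fun i => hh (some i), hh none⟩
  have hm : MeasurableSet Ev := by
    rw [hE, Set.ofPred_forall]
    exact MeasurableSet.iInter fun o => h.meas _ (hA o) _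
  have hx : ∀ D : Set X, MeasurableSet D → μ D < ⊤ → ∀ j : ℕ,
      P.real (Ev ∩ {ω | (Z ω ∩ (D \ B)).encard = j}) =
        P.real Ev * poi (μ (D \ B)).toReal j := by
    intro D hD hDf j
    rw [hE]
    exact One_extra h A k hA hf hd _ (hD.diff hB)
      ((measure_mono Set.sdiff_subset).trans_lt hDf)
      (fun o => Set.disjoint_left.2 fun x hx hx' => hx.2 (hAB o hx')) j
  refine ⟨hm, ?_, ?_, ?_⟩
  · rw [hE, One_law h A k hA hf hd, Fintype.prod_option, mul_comm]
    refine mul_le_mul ?_ ?_ (by positivity) (One_poi_nonneg ENNReal.toReal_nonneg _)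
    · have := hle _ (hAB none)
      simp only [k, Option.elim, poi, pow_zero, Nat.factorial_zero, Nat.cast_one, mul_one, div_one]
      exact Real.exp_le_exp.2 (by linarith)
    · rw [← Finset.card_univ, ← Finset.prod_const]
      refine Finset.prod_le_prod (fun i _ => by positivity) fun i _ => ?_
      have h1 := hle _ (hAB (some i))
      have h2 : v ≤ (μ (A (some i))).toReal :=
        (ENNReal.ofReal_le_iff_le_toReal (hf (some i)).ne).1 (hvW i)
      simp only [k, Option.elim, poi, pow_one, Nat.factorial_one, Nat.cast_one, div_one]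
      rw [mul_comm]
      exact mul_le_mul (Real.exp_le_exp.2 (by linarith)) h2 hv (Real.exp_pos _).le
  · intro Q q hQ hQf hq
    have e : {ω | ¬ (Z ω ∩ (Q \ B)).Nonempty} = {ω | (Z ω ∩ (Q \ B)).encard = (0 : ℕ)} := by
      ext ω
      simp only [Set.mem_ofPred_eq, Set.not_nonempty_iff_eq_empty, Nat.cast_zero,
        Set.encard_eq_zero]
    rw [e, hx Q hQ hQf 0]
    refine mul_le_mul_of_nonneg_left ?_ measureReal_nonneg
    have h1 : q ≤ (μ Q).toReal := (ENNReal.ofReal_le_iff_le_toReal hQf.ne).1 hq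
    have h2 : μ Q ≤ μ (Q \ B) + μ B :=
      (measure_mono (by intro x hx; by_cases hb : x ∈ B <;> simp [hx, hb])).trans
        (measure_union_le (Q \ B) B)
    have h3 : μ (Q \ B) ≠ ⊤ := ((measure_mono Set.sdiff_subset).trans_lt hQf).ne
    have h4 := ENNReal.toReal_mono (ENNReal.add_ne_top.2 ⟨h3, hBf.ne⟩) h2
    rw [ENNReal.toReal_add h3 hBf.ne] at h4
    have h5 := hle B le_rfl
    simp only [poi, pow_zero, Nat.factorial_zero, Nat.cast_one, mul_one, div_one]
    exact Real.exp_le_exp.2 (by linarith)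
  · intro C m K hC hm0 hμC
    have hCf : μ C < ⊤ := hμC.trans_lt ENNReal.ofReal_lt_top
    have hm' : (μ (C \ B)).toReal ≤ m :=
      ENNReal.toReal_le_of_le_ofReal hm0 ((measure_mono Set.sdiff_subset).trans hμC)
    have hN : ∀ j : ℕ, MeasurableSet {ω | (Z ω ∩ (C \ B)).encard = j} :=
      fun j => h.meas _ (hC.diff hB) j
    let S : Set Ω := ⋃ i ∈ Finset.range K, {ω | (Z ω ∩ (C \ B)).encard = (i : ℕ)}
    have hS : MeasurableSet S := Finset.measurableSet_biUnion _ fun i _ => hN i
    have e1 : Ev ∩ {ω | ¬ (Z ω ∩ (C \ B)).encard < K} = Ev \ S := by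
      ext ω
      simp only [S, Set.mem_inter_iff, Set.mem_ofPred_eq, Set.mem_sdiff, Set.mem_iUnion, One_lt,
        exists_prop]
    have e2 : Ev ∩ S = ⋃ i ∈ Finset.range K,
        Ev ∩ {ω | (Z ω ∩ (C \ B)).encard = (i : ℕ)} := by
      simp only [S, Set.inter_iUnion]
    have e3 : P.real (Ev ∩ S) =
        P.real Ev * ∑ i ∈ Finset.range K, poi (μ (C \ B)).toReal i := by
      rw [e2, measureReal_biUnion_finset, Finset.mul_sum]
      · exact Finset.sum_congr rfl fun i _ => hx C hC hCf i
      · intro i _ j _ hij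
        refine Set.disjoint_left.2 fun ω h1 h2 => hij ?_
        have := h1.2.symm.trans h2.2
        exact_mod_cast this
      · exact fun i _ => hm.inter (hN i)
    have e4 := measureReal_inter_add_sdiff (μ := P) (s := Ev) hS
    have e5 := One_tail (m := (μ (C \ B)).toReal) ENNReal.toReal_nonneg K
    have e6 : Real.exp (μ (C \ B)).toReal / 2 ^ K ≤ Real.exp m / 2 ^ K :=
      div_le_div_of_nonneg_right (Real.exp_le_exp.2 hm') (by positivity)
    have e7 := mul_le_mul_of_nonneg_left (e5.trans e6) (measureReal_nonneg (μ := P) (s := Ev))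
    rw [e1]
    linarith

end PV2c
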