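import Pool.Agent.P.MP_2c2d1a_pr.Blocks

/-! The choice of the parameters. -/

open MeasureTheory Filter Topology

namespace PV2c

theorem par_ev (c : ℕ) (C q : ℝ) (hq : 1 < q) :
    ∀ᶠ r : ℕ in atTop, C * (r : ℝ) ^ c ≤ q ^ r := by
  have h := (tendsto_pow_const_div_const_pow_of_one_lt c hq).const_mul C
  have h1 : ∀ᶠ r : ℕ in atTop, C * ((r : ℝ) ^ c / q ^ r) ≤ 1 :=
    h.eventually (ge_mem_nhds (by simp))
  filter_upwards [h1] with r hr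
  have hp : 0 < q ^ r := pow_pos (by linarith) r
  rw [← mul_div_assoc, div_le_one hp] at hr
  exact hr

theorem par_lin (C : ℝ) : ∀ᶠ r : ℕ in atTop, C ≤ (r : ℝ) :=
  tendsto_natCast_atTop_atTop.eventually_ge_atTop C

theorem par_T (n m r : ℕ) (hr1 : 1 ≤ (r : ℝ))
    (h : 256 * ((n : ℝ) + 1) * (4 * n + 4) ^ 3 * (4 * m + 32) ^ 3 ≤ (r : ℝ)) :
    256 * ((n : ℝ) + 1) * (n * ((r : ℝ) + 1) ^ 2 + 4) ^ 3 * (4 * m + 32) ^ 3 ≤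
      ((r ^ 7 : ℕ) : ℝ) := by
  have hn : (0 : ℝ) ≤ n := Nat.cast_nonneg n
  have h1 : ((r : ℝ) + 1) ^ 2 ≤ 4 * (r : ℝ) ^ 2 := by nlinarith
  have h2 : (1 : ℝ) ≤ (r : ℝ) ^ 2 := by nlinarith
  have h3 : n * ((r : ℝ) + 1) ^ 2 + 4 ≤ (4 * n + 4) * (r : ℝ) ^ 2 := by nlinarith
  have h4 : (n * ((r : ℝ) + 1) ^ 2 + 4) ^ 3 ≤ ((4 * n + 4) * (r : ℝ) ^ 2) ^ 3 :=
    pow_le_pow_left₀ (by positivity) h3 3
  calc 256 * ((n : ℝ) + 1) * (n * ((r : ℝ) + 1) ^ 2 + 4) ^ 3 * (4 * m + 32) ^ 3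
      ≤ 256 * ((n : ℝ) + 1) * ((4 * n + 4) * (r : ℝ) ^ 2) ^ 3 * (4 * m + 32) ^ 3 := by gcongr
    _ = (256 * ((n : ℝ) + 1) * (4 * n + 4) ^ 3 * (4 * m + 32) ^ 3) * (r : ℝ) ^ 6 := by ring
    _ ≤ (r : ℝ) * (r : ℝ) ^ 6 := by gcongr
    _ = ((r ^ 7 : ℕ) : ℝ) := by push_cast; ring

theorem par_cnt (m r K : ℕ) (hr : 4 * m ≤ r) (hr1 : 1 ≤ r) (hK : 1 ≤ K) (k : ℕ)
    (hk : k = K ^ 2 * r ^ 2) : m * (((k * r + 1) * K + 2 * k) * K) ≤ k ^ 2 := by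
  have hk1 : 1 ≤ k := by rw [hk]; exact Nat.mul_pos (pow_pos hK 2) (pow_pos hr1 2)
  have h1 : 1 ≤ k * r := Nat.mul_pos hk1 hr1
  have h2 : k ≤ k * r * K := by
    calc k = k * 1 * 1 := by ring
      _ ≤ k * r * K := by gcongr
  have h3 : (k * r + 1) * K + 2 * k ≤ 4 * (k * r * K) := by nlinarith
  calc m * (((k * r + 1) * K + 2 * k) * K) ≤ m * (4 * (k * r * K) * K) := by gcongr
    _ = (4 * m) * (k * r * K * K) := by ring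
    _ ≤ r * (k * r * K * K) := by gcongr
    _ = k * (K ^ 2 * r ^ 2) := by ring
    _ = k ^ 2 := by rw [← hk]; ring

theorem par_L (n r k : ℕ) (lam L B : ℝ) (hlam : 0 < lam) (hL : 0 ≤ L) (hk : 1 ≤ k)
    (h : (L * Real.exp B + 1) * Real.exp B ^ 2 / lam ^ 2 * (1600 * (k : ℝ) ^ 2) ^ (2 * n + 2) ≤
      2 ^ r) :
    L ≤ 2 ^ (k * r) * ((lam * (1 / (800 * (k : ℝ) ^ 2) / 2) ^ (n + 1) * Real.exp (-B)) ^ (2 * k) *
      Real.exp (-B)) := by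
  have hk0 : (0 : ℝ) < k := by exact_mod_cast hk
  have hE := Real.exp_pos B
  set x : ℝ := 2 ^ r * (lam * (1 / (800 * (k : ℝ) ^ 2) / 2) ^ (n + 1) * Real.exp (-B)) ^ 2 with hx
  have hD : (0 : ℝ) < (1600 * (k : ℝ) ^ 2) ^ (2 * n + 2) := by positivity
  have e1 : (lam * (1 / (800 * (k : ℝ) ^ 2) / 2) ^ (n + 1) * Real.exp (-B)) ^ 2 =
      lam ^ 2 / (Real.exp B ^ 2 * (1600 * (k : ℝ) ^ 2) ^ (2 * n + 2)) := by
    have e2 : (1 / (800 * (k : ℝ) ^ 2) / 2) = (1600 * (k : ℝ) ^ 2)⁻¹ := by field_simp; ring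
    have e3 : (1600 * (k : ℝ) ^ 2) ^ (2 * n + 2) = ((1600 * (k : ℝ) ^ 2) ^ (n + 1)) ^ 2 := by
      rw [← pow_mul]; congr 1; ring
    rw [e2, e3, Real.exp_neg, inv_pow]
    have : (1600 * (k : ℝ) ^ 2) ^ (n + 1) ≠ 0 := by positivity
    field_simp
  have hx1 : L * Real.exp B + 1 ≤ x := by
    rw [hx, e1, ← mul_div_assoc, le_div_iff₀ (by positivity)]
    have h2 := mul_le_mul_of_nonneg_right h (le_of_lt (pow_pos hlam 2))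
    have e4 : (L * Real.exp B + 1) * Real.exp B ^ 2 / lam ^ 2 *
        (1600 * (k : ℝ) ^ 2) ^ (2 * n + 2) * lam ^ 2 =
        (L * Real.exp B + 1) * (Real.exp B ^ 2 * (1600 * (k : ℝ) ^ 2) ^ (2 * n + 2)) := by
      field_simp
    rw [e4] at h2
    exact h2
  have hLE : 0 ≤ L * Real.exp B := mul_nonneg hL hE.le
  have hxk : x ≤ x ^ k := le_self_pow₀ (by linarith) (by omega)
  have e5 : (2 : ℝ) ^ (k * r) *
      ((lam * (1 / (800 * (k : ℝ) ^ 2) / 2) ^ (n + 1) * Real.exp (-B)) ^ (2 * k) *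
        Real.exp (-B)) = x ^ k * Real.exp (-B) := by
    rw [hx, mul_pow ((2 : ℝ) ^ r), ← pow_mul, ← pow_mul, mul_comm r k]; ring
  rw [e5, Real.exp_neg, ← div_eq_mul_inv, le_div_iff₀ hE]
  linarith

theorem par_d1 (n r e : ℕ) (lam δ B : ℝ) (hn : 1 ≤ n) (hlam : 0 < lam) (hδ : 0 < δ) (hr : 1 ≤ r)
    (h : 4 * 3 ^ n * Real.exp B / δ * (r : ℝ) ^ (e + 1 + 14 + 14 * n) ≤ Real.exp (lam / 2) ^ r) :
    (((r ^ e * r + 1) * ((r ^ 7) ^ 2 * (2 * (r ^ 7) ^ 2 + 1) ^ n) : ℕ) : ℝ) *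
      Real.exp (B - lam * ((r : ℝ) ^ n / 2)) ≤ δ / 2 := by
  have hr1 : (1 : ℝ) ≤ r := by exact_mod_cast hr
  have h1 : (1 : ℝ) ≤ (r : ℝ) ^ e * r := one_le_mul_of_one_le_of_one_le (one_le_pow₀ hr1) hr1
  have h2 : (1 : ℝ) ≤ ((r : ℝ) ^ 7) ^ 2 := one_le_pow₀ (one_le_pow₀ hr1)
  have h3 : (((r ^ e * r + 1) * ((r ^ 7) ^ 2 * (2 * (r ^ 7) ^ 2 + 1) ^ n) : ℕ) : ℝ) ≤
      2 * 3 ^ n * (r : ℝ) ^ (e + 1 + 14 + 14 * n) := by
    push_cast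
    calc ((r : ℝ) ^ e * r + 1) * (((r : ℝ) ^ 7) ^ 2 * (2 * ((r : ℝ) ^ 7) ^ 2 + 1) ^ n)
        ≤ (2 * ((r : ℝ) ^ e * r)) * (((r : ℝ) ^ 7) ^ 2 * (3 * ((r : ℝ) ^ 7) ^ 2) ^ n) := by
          gcongr
          · linarith
          · linarith
      _ = 2 * 3 ^ n * (r : ℝ) ^ (e + 1 + 14 + 14 * n) := by
          rw [mul_pow, ← pow_mul, ← pow_mul]; ring
  have h4 : (r : ℝ) ≤ (r : ℝ) ^ n := le_self_pow₀ hr1 (by omega)
  have h5 : Real.exp (B - lam * ((r : ℝ) ^ n / 2)) ≤ Real.exp B / Real.exp (lam / 2) ^ r := by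
    rw [← Real.exp_nat_mul, ← Real.exp_sub]
    apply Real.exp_le_exp.2
    nlinarith
  have hq : 0 < Real.exp (lam / 2) ^ r := pow_pos (Real.exp_pos _) r
  calc _ ≤ (2 * 3 ^ n * (r : ℝ) ^ (e + 1 + 14 + 14 * n)) *
        (Real.exp B / Real.exp (lam / 2) ^ r) := by gcongr
    _ = δ / 2 * ((4 * 3 ^ n * Real.exp B / δ * (r : ℝ) ^ (e + 1 + 14 + 14 * n)) /
        Real.exp (lam / 2) ^ r) := by field_simp; ring
    _ ≤ δ / 2 * 1 := by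
        gcongr
        exact (div_le_one hq).2 h
    _ = δ / 2 := mul_one _

theorem par_d2 (n r e : ℕ) (lam δ : ℝ) (hδ : 0 < δ) (hr : 1 ≤ r)
    (hl : 2 * (lam * 2 ^ n) + 2 ≤ (r : ℝ))
    (h : 4 / δ * (r : ℝ) ^ (e + 1) ≤ Real.exp 1 ^ r) :
    (((r ^ e * r : ℕ) : ℝ) + 1) *
      (Real.exp (lam * (2 ^ n * ((r ^ 7 : ℕ) : ℝ) ^ (2 * n + 2))) / 2 ^ (r ^ (14 * n + 16))) ≤
      δ / 2 := by
  have hr1 : (1 : ℝ) ≤ r := by exact_mod_cast hr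
  have h1 : (1 : ℝ) ≤ (r : ℝ) ^ e * r := one_le_mul_of_one_le_of_one_le (one_le_pow₀ hr1) hr1
  have h2 : (((r ^ e * r : ℕ) : ℝ) + 1) ≤ 2 * (r : ℝ) ^ (e + 1) := by
    push_cast; rw [pow_succ]; linarith
  have e1 : (2 : ℝ) ^ (r ^ (14 * n + 16)) =
      Real.exp (((r ^ (14 * n + 16) : ℕ) : ℝ) * Real.log 2) := by
    rw [Real.exp_nat_mul, Real.exp_log two_pos]
  have hlog := Real.log_two_gt_d9
  have h4 : (r : ℝ) ≤ (r : ℝ) ^ (14 * n + 14) := le_self_pow₀ hr1 (by omega)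
  have h5 : Real.exp (lam * (2 ^ n * ((r ^ 7 : ℕ) : ℝ) ^ (2 * n + 2))) /
      2 ^ (r ^ (14 * n + 16)) ≤ 1 / Real.exp 1 ^ r := by
    rw [e1, ← Real.exp_sub, ← Real.exp_nat_mul, one_div, ← Real.exp_neg]
    apply Real.exp_le_exp.2
    have e2 : ((r ^ 7 : ℕ) : ℝ) ^ (2 * n + 2) = (r : ℝ) ^ (14 * n + 14) := by
      push_cast; rw [← pow_mul]; congr 1; ring
    have e3 : ((r ^ (14 * n + 16) : ℕ) : ℝ) = (r : ℝ) ^ (14 * n + 14) * (r : ℝ) ^ 2 := by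
      push_cast; ring
    rw [e2, e3]
    set y : ℝ := (r : ℝ) ^ (14 * n + 14)
    have h6 : lam * 2 ^ n + 1 ≤ (r : ℝ) ^ 2 * Real.log 2 := by nlinarith
    have h7 : y * (lam * 2 ^ n + 1) ≤ y * ((r : ℝ) ^ 2 * Real.log 2) :=
      mul_le_mul_of_nonneg_left h6 (by linarith)
    nlinarith
  have hq : 0 < Real.exp 1 ^ r := pow_pos (Real.exp_pos _) r
  calc _ ≤ (2 * (r : ℝ) ^ (e + 1)) * (1 / Real.exp 1 ^ r) := by gcongr
    _ = δ / 2 * ((4 / δ * (r : ℝ) ^ (e + 1)) / Real.exp 1 ^ r) := by field_simp; ring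
    _ ≤ δ / 2 * 1 := by
        gcongr
        exact (div_le_one hq).2 h
    _ = δ / 2 := mul_one _

theorem bPar : BPar := by
  intro n m lam δ L hn hm hlam hδ hL
  set B : ℝ := lam * (3 * 4 ^ n) with hB
  obtain ⟨r, h1, h2, h3, h4, h5, h6, h7⟩ := ((eventually_ge_atTop (4 * m + n)).and
    ((par_lin (256 * ((n : ℝ) + 1) * (4 * n + 4) ^ 3 * (4 * m + 32) ^ 3)).and
    ((par_lin (2 * (lam * 2 ^ n) + 2)).and
    ((par_ev ((28 * n + 34) * 2 * (2 * n + 2))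
      ((L * Real.exp B + 1) * Real.exp B ^ 2 / lam ^ 2 * 1600 ^ (2 * n + 2)) 2 one_lt_two).and
    ((par_ev (28 * n + 34 + 1 + 14 + 14 * n) (4 * 3 ^ n * Real.exp B / δ) (Real.exp (lam / 2))
      (Real.one_lt_exp_iff.2 (by linarith))).and
    ((par_ev (28 * n + 34 + 1) (4 / δ) (Real.exp 1) (Real.one_lt_exp_iff.2 one_pos)).and
    (eventually_ge_atTop 1))))))).exists
  have hr1 : (1 : ℝ) ≤ r := by exact_mod_cast h7
  have hk1 : 1 ≤ r ^ (28 * n + 34) := Nat.one_le_pow _ _ h7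
  have hkr : r ≤ r ^ (28 * n + 34) := le_self_pow₀ h7 (by omega)
  have hkk : r ^ (28 * n + 34) ≤ (r ^ (28 * n + 34)) ^ 2 := le_self_pow₀ hk1 (by omega)
  have hk0 : (0 : ℝ) < ((r ^ (28 * n + 34) : ℕ) : ℝ) := by exact_mod_cast hk1
  refine ⟨r ^ (28 * n + 34) * r, r ^ (28 * n + 34), r ^ 7, r ^ (14 * n + 16), r,
    1 / (800 * ((r ^ (28 * n + 34) : ℕ) : ℝ) ^ 2), hk1, Nat.one_le_pow _ _ h7, by positivity,
    ?_, ?_, by positivity, par_T n m r hr1 h2, by omega, ?_, ?_, ?_⟩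
  · rw [one_div, inv_mul_cancel₀ (by positivity)]
  · rw [mul_one_div, div_le_one (by positivity)]
    have h8 : n ≤ 800 * (r ^ (28 * n + 34)) ^ 2 := by omega
    exact_mod_cast h8
  · refine par_cnt m r _ (by omega) h7 (Nat.one_le_pow _ _ h7) _ ?_
    rw [← pow_mul, ← pow_add]; congr 1; ring
  · refine par_L n r _ lam L B hlam hL hk1 (le_trans (le_of_eq ?_) h4)
    push_cast
    rw [mul_pow, ← pow_mul, ← pow_mul, mul_assoc _ ((1600 : ℝ) ^ (2 * n + 2)), mul_assoc]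
  · have a1 := par_d1 n r (28 * n + 34) lam δ B hn hlam hδ h7 h5
    have a2 := par_d2 n r (28 * n + 34) lam δ hδ h7 h3 h6
    linarith

end PV2c
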