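import Pool.Agent.P.MP_2c2d1a_pr.Blocks

/-! The geodesic from a root to the cluster stays in the bounded regions. -/

open scoped unitInterval

namespace PV2c

/-- Choice of the scale. -/
theorem bPath_scale (N : ℕ) (h H : ℝ) (hH : 2 ≤ H) (hh : h ≤ H) (hs : (1 / 2 : ℝ) ^ N ≤ h) :
    ∃ j ≤ N, (1 / 2 : ℝ) ^ j ≤ h ∧ h ≤ H * (1 / 2) ^ j := by
  induction N with
  | zero => exact ⟨0, le_rfl, hs, by simpa using hh⟩
  | succ N ih =>
    by_cases h1 : (1 / 2 : ℝ) ^ N ≤ h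
    · obtain ⟨j, hj, h2⟩ := ih h1
      exact ⟨j, hj.trans (Nat.le_succ N), h2⟩
    · refine ⟨N + 1, le_rfl, hs, ?_⟩
      have hp : (0 : ℝ) < (1 / 2) ^ N := by positivity
      rw [pow_succ]
      nlinarith [not_le.1 h1]

/-- Numerical bounds. -/
theorem bPath_num (n A : ℝ) (hn : 0 ≤ n) (hA : 1 ≤ A) :
    0 < 4 * (n + 1) * A ^ 3 ∧ 1 ≤ 4 * (n + 1) * A ^ 3 ∧ A ≤ 4 * (n + 1) * A ^ 3 ∧
    2 * A ^ 2 ≤ 4 * (n + 1) * A ^ 3 ∧ (2 * n + 2) * A ≤ 4 * (n + 1) * A ^ 3 ∧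
    2 ≤ (2 * n + 2) * A := by
  have hA0 : 0 < A := by linarith
  have hA2 : A ≤ A ^ 2 := by nlinarith
  have hA3 : A ^ 2 ≤ A ^ 3 := by nlinarith
  have hnA : 0 ≤ n * A := by positivity
  have h3 : n * A ≤ n * A ^ 3 := mul_le_mul_of_nonneg_left (hA2.trans hA3) hn
  have e : 4 * (n + 1) * A ^ 3 = 4 * (n * A ^ 3) + 4 * A ^ 3 := by ring
  have e2 : (2 * n + 2) * A = 2 * (n * A) + 2 * A := by ring
  rw [e, e2]
  refine ⟨?_, ?_, ?_, ?_, ?_, ?_⟩ <;> linarith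

theorem bPath : BPath := by
  intro n N t A hA x hx y hy θ
  obtain ⟨hxu, hx1, hx2⟩ := hx
  obtain ⟨hyu, hy1, hy2⟩ := hy
  simp only [pow_zero, mul_one] at hxu hx1 hx2
  have h0 := θ.2.1
  have h1 := θ.2.2
  set s : ℝ := (1 / 2) ^ N with hsdef
  have hs0 : 0 < s := by positivity
  have hs1 : s ≤ 1 := pow_le_one₀ (by norm_num) (by norm_num)
  have hA0 : 0 < A := by linarith
  have hn : (0 : ℝ) ≤ n := Nat.cast_nonneg n
  have hxp := x.2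
  have hyp := y.2
  set D : ℝ := ∑ l, (x.1.1 l - y.1.1 l) ^ 2 with hD
  have hD0 : 0 ≤ D := Finset.sum_nonneg fun _ _ => sq_nonneg _
  have hAs : A * s ≤ A := mul_le_of_le_one_right hA0.le hs1
  have hD1 : D ≤ n * (2 * A) ^ 2 := by
    have : ∀ l, (x.1.1 l - y.1.1 l) ^ 2 ≤ (2 * A) ^ 2 := by
      intro l
      have a1 := abs_le.1 (hxu l)
      have a2 := abs_le.1 (hyu l)
      exact sq_le_sq' (by linarith [a1.1, a2.2]) (by linarith [a1.2, a2.1])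
    calc D ≤ ∑ _l : Fin n, (2 * A) ^ 2 := Finset.sum_le_sum fun l _ => this l
      _ = n * (2 * A) ^ 2 := by simp
  set h : ℝ := (geo x y θ).1.2 with hhdef
  have hh0 : 0 < h := (geo x y θ).2
  have hsq : h ^ 2 = (1 - (θ : ℝ)) * x.1.2 ^ 2 + θ * y.1.2 ^ 2 + θ * (1 - θ) * D :=
    Real.sq_sqrt (geo_pos x y θ).le
  have hx3 : 1 ≤ A * x.1.2 := by
    rw [div_le_iff₀ hA0] at hx1; linarith
  have hy3 : s ≤ A * y.1.2 := by
    rw [div_le_iff₀ hA0] at hy1; linarith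
  have hx4 : 1 ≤ (A * x.1.2) ^ 2 := one_le_pow₀ hx3
  have hy4 : s ^ 2 ≤ (A * y.1.2) ^ 2 := pow_le_pow_left₀ hs0.le hy3 2
  have hs2 : s ^ 2 ≤ 1 := pow_le_one₀ hs0.le hs1
  have hθD : 0 ≤ (θ : ℝ) * (1 - θ) * D := mul_nonneg (mul_nonneg h0 (by linarith)) hD0
  have hkey : (1 - (θ : ℝ)) + θ * s ^ 2 ≤ (A * h) ^ 2 := by
    have e : (A * h) ^ 2 = (1 - (θ : ℝ)) * (A * x.1.2) ^ 2 + θ * (A * y.1.2) ^ 2 +
        A ^ 2 * (θ * (1 - θ) * D) := by rw [mul_pow, hsq]; ring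
    have b1 : (1 - (θ : ℝ)) * 1 ≤ (1 - (θ : ℝ)) * (A * x.1.2) ^ 2 :=
      mul_le_mul_of_nonneg_left hx4 (by linarith)
    have b2 : (θ : ℝ) * s ^ 2 ≤ θ * (A * y.1.2) ^ 2 := mul_le_mul_of_nonneg_left hy4 h0
    have b3 : 0 ≤ A ^ 2 * ((θ : ℝ) * (1 - θ) * D) := mul_nonneg (sq_nonneg _) hθD
    linarith
  have hAh : 0 < A * h := mul_pos hA0 hh0
  have hsh : s ≤ A * h := by
    refine le_of_sq_le_sq (le_trans ?_ hkey) hAh.le
    have := mul_nonneg (sub_nonneg.2 h1) (sub_nonneg.2 hs2)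
    have e : (1 - (θ : ℝ)) * (1 - s ^ 2) = 1 - θ + θ * s ^ 2 - s ^ 2 := by ring
    linarith
  have hθh : 1 - (θ : ℝ) ≤ A * h := by
    refine le_of_sq_le_sq (le_trans ?_ hkey) hAh.le
    have g1 := mul_nonneg h0 (sq_nonneg s)
    have g2 := mul_nonneg h0 (sub_nonneg.2 h1)
    have e : (1 - (θ : ℝ)) ^ 2 = 1 - θ - θ * (1 - θ) := by ring
    linarith
  have hu : ∀ l, |(geo x y θ).1.1 l - t l| ≤ 2 * A ^ 2 * h := by
    intro l
    have e : (geo x y θ).1.1 l - t l =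
        (1 - (θ : ℝ)) * (x.1.1 l - t l) + θ * (y.1.1 l - t l) := by
      simp only [geo]; ring
    rw [e]
    refine (abs_add_le _ _).trans ?_
    rw [abs_mul, abs_mul, abs_of_nonneg (sub_nonneg.2 h1), abs_of_nonneg h0]
    have c1 : (1 - (θ : ℝ)) * |x.1.1 l - t l| ≤ (A * h) * A :=
      mul_le_mul hθh (hxu l) (abs_nonneg _) hAh.le
    have c2 : (θ : ℝ) * |y.1.1 l - t l| ≤ 1 * (A * s) :=
      mul_le_mul h1 (hyu l) (abs_nonneg _) zero_le_one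
    have c3 : A * s ≤ A * (A * h) := mul_le_mul_of_nonneg_left hsh hA0.le
    have c4 : 2 * A ^ 2 * h = A * h * A + A * (A * h) := by ring
    linarith
  have hH : h ≤ (2 * n + 2) * A := by
    refine le_of_sq_le_sq ?_ (by positivity)
    have d1 : x.1.2 ^ 2 ≤ A ^ 2 := pow_le_pow_left₀ hxp.le hx2 2
    have d2 : y.1.2 ^ 2 ≤ A ^ 2 := pow_le_pow_left₀ hyp.le (hy2.trans hAs) 2
    have d3 : (1 - (θ : ℝ)) * x.1.2 ^ 2 ≤ (1 - (θ : ℝ)) * A ^ 2 :=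
      mul_le_mul_of_nonneg_left d1 (sub_nonneg.2 h1)
    have d4 : (θ : ℝ) * y.1.2 ^ 2 ≤ θ * A ^ 2 := mul_le_mul_of_nonneg_left d2 h0
    have d5 : (θ : ℝ) * (1 - θ) ≤ 1 := mul_le_one₀ h1 (sub_nonneg.2 h1) (sub_le_self _ h0)
    have d6 : (θ : ℝ) * (1 - θ) * D ≤ 1 * (n * (2 * A) ^ 2) :=
      mul_le_mul d5 hD1 hD0 zero_le_one
    have d7 : 0 ≤ (n : ℝ) * A ^ 2 := by positivity
    have d8 : 0 ≤ (n : ℝ) ^ 2 * A ^ 2 := by positivity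
    have d9 : 0 ≤ A ^ 2 := by positivity
    have e : ((2 * (n : ℝ) + 2) * A) ^ 2 = (1 - (θ : ℝ)) * A ^ 2 + θ * A ^ 2 +
        1 * (n * (2 * A) ^ 2) + (4 * (n ^ 2 * A ^ 2) + 4 * (n * A ^ 2) + 3 * A ^ 2) := by ring
    rw [hsq, e]
    linarith
  obtain ⟨hT, hT1, hT2, hT3, hT4, hH2⟩ := bPath_num n A hn hA
  by_cases hc : s ≤ h
  · obtain ⟨j, hj, hj1, hj2⟩ := bPath_scale N h _ hH2 hH hc
    have hp : (0 : ℝ) < (1 / 2) ^ j := by positivity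
    refine ⟨j, hj, fun l => (hu l).trans ?_, ?_, hj2.trans ?_⟩
    · calc 2 * A ^ 2 * h ≤ 2 * A ^ 2 * ((2 * n + 2) * A * (1 / 2) ^ j) :=
            mul_le_mul_of_nonneg_left hj2 (by positivity)
        _ = 4 * (n + 1) * A ^ 3 * (1 / 2) ^ j := by ring
    · exact le_trans (div_le_self hp.le hT1) hj1
    · exact mul_le_mul_of_nonneg_right hT4 hp.le
  · have hc' : h ≤ s := (not_le.1 hc).le
    refine ⟨N, le_rfl, fun l => (hu l).trans ?_, ?_, hc'.trans ?_⟩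
    · exact mul_le_mul hT3 hc' hh0.le hT.le
    · rw [div_le_iff₀ hT]
      refine hsh.trans ?_
      rw [mul_comm]
      exact mul_le_mul_of_nonneg_left hT2 hh0.le
    · exact le_mul_of_one_le_left hs0.le hT1

end PV2c
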