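import Pool.Agent.P.MP_2c2d1a_pr.Blocks

/-! The probability that no position is good. -/

open MeasureTheory Filter Topology
open scoped ENNReal unitInterval

namespace PV2c

variable {n : ℕ}

theorem prob_up {lam x : ℝ} (hl : 0 < lam) {A : Set (Hyp n)}
    (h : hvol n A ≤ ENNReal.ofReal x) :
    (ENNReal.ofReal lam • hvol n) A ≤ ENNReal.ofReal (lam * x) := by
  rw [Measure.smul_apply, smul_eq_mul, ENNReal.ofReal_mul hl.le]
  exact mul_le_mul_right h _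

theorem prob_lo {lam x : ℝ} (hl : 0 < lam) {A : Set (Hyp n)}
    (h : ENNReal.ofReal x ≤ hvol n A) :
    ENNReal.ofReal (lam * x) ≤ (ENNReal.ofReal lam • hvol n) A := by
  rw [Measure.smul_apply, smul_eq_mul, ENNReal.ofReal_mul hl.le]
  exact mul_le_mul_right h _

theorem prob_BB (hV : BVol) (t : Fin n → ℝ) {s : ℝ} (hs : 0 < s) :
    MeasurableSet (BB t s) ∧ hvol n (BB t s) ≤ ENNReal.ofReal (3 * 4 ^ n) := by
  obtain ⟨h1, -, h3⟩ := hV n t (2 * s) s (4 * s) (by positivity) hs (by linarith)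
  refine ⟨h1, h3.trans (le_of_eq ?_)⟩
  congr 1
  have e : (2 * (2 * s)) ^ n = 4 ^ n * s ^ n := by
    rw [← mul_pow]; congr 1; ring
  rw [e]
  field_simp
  ring

theorem prob_box (hV : BVol) (c : Fin n → ℝ) {s τ a : ℝ} (hs : 0 < s) (hτ : 0 < τ)
    (hτ1 : τ ≤ 1) (ha : 2 ≤ a) (ha3 : a ≤ 3) :
    MeasurableSet (CBox c (s * τ) (s * (a - τ)) (s * (a + τ))) ∧
    ENNReal.ofReal ((τ / 2) ^ (n + 1)) ≤
      hvol n (CBox c (s * τ) (s * (a - τ)) (s * (a + τ))) := by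
  have h0 : 0 < s * (a - τ) := mul_pos hs (by linarith)
  obtain ⟨h1, h2, -⟩ := hV n c (s * τ) (s * (a - τ)) (s * (a + τ)) (by positivity) h0
    (by nlinarith)
  refine ⟨h1, le_trans (ENNReal.ofReal_le_ofReal ?_) h2⟩
  have hp : 0 < a + τ := by linarith
  have e : (2 * (s * τ)) ^ n * (s * (a + τ) - s * (a - τ)) / (s * (a + τ)) ^ (n + 1) =
      (2 * (s * τ) / (s * (a + τ))) ^ (n + 1) := by
    rw [div_pow, pow_succ (2 * (s * τ))]
    congr 2
    ring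
  rw [e]
  apply pow_le_pow_left₀ (by positivity)
  rw [le_div_iff₀ (by positivity)]
  have h5 : 0 ≤ s * τ * (4 - (a + τ)) := mul_nonneg (by positivity) (by linarith)
  nlinarith

theorem prob_WW (hV : BVol) (i0 i1 : Fin n) (t : Fin n → ℝ) {s τ : ℝ} (hs : 0 < s) (hτ : 0 < τ)
    (hτ1 : τ ≤ 1) (k : ℕ) (w : Fin k ⊕ Fin k) :
    MeasurableSet (WW i0 i1 t s τ k w) ∧
    ENNReal.ofReal ((τ / 2) ^ (n + 1)) ≤ hvol n (WW i0 i1 t s τ k w) := by
  cases w with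
  | inl i => exact prob_box hV _ hs hτ hτ1 le_rfl (by norm_num)
  | inr j => exact prob_box hV _ hs hτ hτ1 (by norm_num) le_rfl

theorem prob_Q (hV : BVol) (c : Fin n → ℝ) {ρ g : ℝ} (hρ : 0 ≤ ρ) (hg : 0 < g) :
    MeasurableSet (CBox c (ρ * g) g (2 * g)) ∧ hvol n (CBox c (ρ * g) g (2 * g)) < ⊤ ∧
    ENNReal.ofReal (ρ ^ n / 2) ≤ hvol n (CBox c (ρ * g) g (2 * g)) := by
  obtain ⟨h1, h2, h3⟩ := hV n c (ρ * g) g (2 * g) (by positivity) hg (by linarith)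
  refine ⟨h1, h3.trans_lt ENNReal.ofReal_lt_top, le_trans (le_of_eq ?_) h2⟩
  congr 1
  rw [mul_pow, mul_pow, mul_pow]
  field_simp
  ring

theorem prob_QQ (hV : BVol) (t : Fin n → ℝ) {N T : ℕ} (hT : 1 ≤ T) {ρ : ℝ} (hρ : 0 ≤ ρ)
    (a : ℕ × ℕ × (Fin n → ℤ)) (ha : a ∈ QI n N T) :
    MeasurableSet (QQ t T ρ a) ∧ hvol n (QQ t T ρ a) < ⊤ ∧
    ENNReal.ofReal (ρ ^ n / 2) ≤ hvol n (QQ t T ρ a) := by
  have h1 : 1 ≤ a.2.1 := by
    have := (Finset.mem_product.1 (Finset.mem_product.1 ha).2).1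
    exact (Finset.mem_Icc.1 this).1
  have h2 : (0 : ℝ) < a.2.1 := by exact_mod_cast h1
  have h3 : (0 : ℝ) < T := by exact_mod_cast hT
  exact prob_Q hV _ hρ (by positivity)

theorem prob_Fat (hV : BVol) (t : Fin n → ℝ) (j : ℕ) {T : ℝ} (hT : 1 ≤ T) :
    MeasurableSet (Fat t j T) ∧
    hvol n (Fat t j T) ≤ ENNReal.ofReal (2 ^ n * T ^ (2 * n + 2)) := by
  have hT0 : 0 < T := by linarith
  have hs : (0 : ℝ) < (1 / 2) ^ j := by positivity
  unfold Fat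
  generalize ((1 : ℝ) / 2) ^ j = s at hs
  have hle : s / T ≤ T * s := by
    rw [div_le_iff₀ hT0]
    have h1 : 1 ≤ T * T := by nlinarith
    nlinarith
  obtain ⟨h1, -, h3⟩ := hV n t (T * s) (s / T) (T * s) (by positivity) (by positivity) hle
  refine ⟨h1, h3.trans (ENNReal.ofReal_le_ofReal ?_)⟩
  have h4 : (2 * (T * s)) ^ n * (T * s - s / T) / (s / T) ^ (n + 1) ≤
      (2 * (T * s)) ^ n * (T * s) / (s / T) ^ (n + 1) := by
    have h5 : 0 < s / T := by positivity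
    gcongr
    linarith
  refine h4.trans (le_of_eq ?_)
  rw [mul_pow, mul_pow, div_pow]
  field_simp
  ring

theorem prob_union {Ω ι : Type} [MeasurableSpace Ω] (P : Measure Ω) [IsProbabilityMeasure P]
    (E : Set Ω) (s : Finset ι) (A : ι → Set Ω) (c : ℝ)
    (h : ∀ i ∈ s, P.real (E ∩ A i) ≤ P.real E * c) :
    P.real (E ∩ ⋃ i ∈ s, A i) ≤ P.real E * (s.card * c) := by
  rw [Set.inter_iUnion₂]
  refine (measureReal_biUnion_finset_le s fun i => E ∩ A i).trans ?_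
  refine (Finset.sum_le_sum h).trans (le_of_eq ?_)
  rw [Finset.sum_const, nsmul_eq_mul]
  ring

theorem bProb : BVol → BOne → BInd → BMany → BDis → BNet → BProb := by
  intro hV hOne hInd hMany hDis hNet n i0 i1 lam hl Ω _ P _ Z hZ N k T K ρ τ L δ hk hT hτ hτk
    hρ hL hLp hδ
  have hs : (0 : ℝ) < (1 / 2) ^ N := by positivity
  have hk1 : (1 : ℝ) ≤ k := by exact_mod_cast hk
  have hT1 : (1 : ℝ) ≤ T := by exact_mod_cast hT
  have hτ1 : τ ≤ 1 := by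
    have h1 : (1 : ℝ) ≤ 800 * (k : ℝ) ^ 2 := by nlinarith
    nlinarith
  obtain ⟨hD1, hD2⟩ := hDis n i0 i1
  have hcard := (hNet n N T hT).1
  let B : ℕ → Set (Hyp n) := fun z => BB (pos i0 N z) ((1 / 2) ^ N)
  let W : ℕ → Fin k ⊕ Fin k → Set (Hyp n) := fun z => WW i0 i1 (pos i0 N z) ((1 / 2) ^ N) τ k
  let Ev : ℕ → Set Ω := fun z => {ω | (∀ i, (Z ω ∩ W z i).encard = 1) ∧
    (Z ω ∩ (B z \ ⋃ i, W z i)).encard = 0}
  let Bad1 : ℕ → Set Ω := fun z => ⋃ a ∈ QI n N T,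
    {ω | ¬ (Z ω ∩ (QQ (pos i0 N z) T ρ a \ B z)).Nonempty}
  let Bad2 : ℕ → Set Ω := fun z => ⋃ j ∈ Finset.range (N + 1),
    {ω | ¬ (Z ω ∩ (Fat (pos i0 N z) j T \ B z)).encard < K}
  have hB : ∀ z, MeasurableSet (B z) := fun z => (prob_BB hV _ hs).1
  have hBv : ∀ z, (ENNReal.ofReal lam • hvol n) (B z) ≤ ENNReal.ofReal (lam * (3 * 4 ^ n)) :=
    fun z => prob_up hl (prob_BB hV _ hs).2
  have hW : ∀ z i, MeasurableSet (W z i) := fun z i => (prob_WW hV i0 i1 _ hs hτ hτ1 k i).1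
  have hWv : ∀ z i, ENNReal.ofReal (lam * (τ / 2) ^ (n + 1)) ≤
      (ENNReal.ofReal lam • hvol n) (W z i) :=
    fun z i => prob_lo hl (prob_WW hV i0 i1 _ hs hτ hτ1 k i).2
  have hWB : ∀ z i, W z i ⊆ B z := fun z => (hD1 _ _ _ _ hs hτ hk hτk).1
  have hWW : ∀ z i j, i ≠ j → Disjoint (W z i) (W z j) :=
    fun z => (hD1 _ _ _ _ hs hτ hk hτk).2
  have h1 := fun z => hOne Ω (Hyp n) P Z _ hZ (Fin k ⊕ Fin k) (B z) (W z) (lam * (3 * 4 ^ n))
    (lam * (τ / 2) ^ (n + 1)) (by positivity) (by positivity) (hB z) (hBv z) (hW z) (hWB z)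
    (hWW z) (hWv z) (Ev z) rfl
  have h2 := fun M => hInd Ω (Hyp n) P Z _ hZ (Fin k ⊕ Fin k) M B W hB
    (fun z => (hBv z).trans_lt ENNReal.ofReal_lt_top) (hD2 N) hW hWB hWW Ev (fun _ => rfl)
  have hδ0 : 0 ≤ δ := le_trans (by positivity) hδ
  have hck : Fintype.card (Fin k ⊕ Fin k) = 2 * k := by
    rw [Fintype.card_sum, Fintype.card_fin]; ring
  have h3 := hMany Ω P (2 ^ N) Ev (fun z => Bad1 z ∪ Bad2 z)
    ((lam * (τ / 2) ^ (n + 1) * Real.exp (-(lam * (3 * 4 ^ n)))) ^ (2 * k) *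
      Real.exp (-(lam * (3 * 4 ^ n)))) L δ hL hδ0 (by push_cast; exact hLp)
    (fun z _ => by have := (h1 z).2.1; rwa [hck] at this)
    (fun z _ => by
      have a1 : P.real (Ev z ∩ Bad1 z) ≤ P.real (Ev z) * ((QI n N T).card *
          Real.exp (lam * (3 * 4 ^ n) - lam * (ρ ^ n / 2))) := by
        refine prob_union P (Ev z) _ _ _ fun a ha => ?_
        obtain ⟨q1, q2, q3⟩ := prob_QQ hV (pos i0 N z) hT hρ a ha
        refine (h1 z).2.2.1 _ _ q1 ?_ (prob_lo hl q3)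
        rw [Measure.smul_apply, smul_eq_mul]
        exact ENNReal.mul_lt_top ENNReal.ofReal_lt_top q2
      have a2 : P.real (Ev z ∩ Bad2 z) ≤ P.real (Ev z) * ((Finset.range (N + 1)).card *
          (Real.exp (lam * (2 ^ n * (T : ℝ) ^ (2 * n + 2))) / 2 ^ K)) := by
        refine prob_union P (Ev z) _ _ _ fun j _ => ?_
        obtain ⟨q1, q2⟩ := prob_Fat hV (pos i0 N z) j hT1
        exact (h1 z).2.2.2 _ _ K q1 (by positivity) (prob_up hl q2)
      rw [hcard] at a1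
      rw [Finset.card_range, Nat.cast_add, Nat.cast_one] at a2
      rw [Set.inter_union_distrib_left]
      refine (measureReal_union_le _ _).trans ((add_le_add a1 a2).trans ?_)
      rw [← mul_add]
      exact mul_le_mul_of_nonneg_left hδ measureReal_nonneg)
    (fun M _ => h2 M)
  refine le_trans (measureReal_mono ?_) h3
  intro ω hω
  rintro ⟨z, hz, hE, hb⟩
  refine hω ⟨z, hz, hE.1, hE.2, fun a ha => ?_, fun j hj => ?_⟩
  · by_contra hc
    exact hb (Or.inl (Set.mem_iUnion₂.2 ⟨a, ha, hc⟩))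
  · by_contra hc
    exact hb (Or.inr (Set.mem_iUnion₂.2 ⟨j, hj, hc⟩))

end PV2c
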