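import Pool.Agent.P.MP_2c2d1a_pr.SkBlocks
import Pool.Agent.P.MP_2c2d1a_pr.Geo

/-! The final assembly of the skeleton theorem from the blocks. -/

open MeasureTheory Filter Topology
open scoped ENNReal

namespace PV2c

theorem sk_thin (hReg : SReg) (hCon : SCon) (hCnt : SCnt) {X ι : Type} (d : ℕ) (N : X → Set ι)
    (h : Smp d N) (sel : {y : X // (N y).encard = (d + 1 : ℕ)} → ι) (hsel : ∀ v, sel v ∈ N v.1)
    (φ : ι → ℝ) (R0 : ℝ) (a a' f K : ℕ) (ha : (d + 1) * a' ≤ a) (hT : Thin2 N φ R0 a f K) :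
    Thin (gsk d N) (fun v => φ (sel v)) R0 a' ((d + 1) * (f * K ^ d)) := by
  obtain ⟨v0, ⟨w0, hw0⟩, H⟩ := hT
  obtain ⟨y0, hy0, hsub⟩ := h.up w0
  refine ⟨⟨y0, hy0⟩, fun ρ hρ => ?_⟩
  obtain ⟨S, h1, h2, h3, h4, h5, h6⟩ := H (sel ρ) ⟨ρ.1, hsel ρ⟩ hρ
  obtain ⟨hfin, hcon⟩ := hCon X ι d N h S
  have hreg := hReg X ι d N h
  obtain ⟨c1, c2⟩ := hCnt X ι d N h hreg S hfin.toFinset fun y => hfin.mem_toFinset
  have hlt : evol (gsk d N) hfin.toFinset < ⊤ := by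
    unfold evol
    refine ENat.sum_lt_top.2 fun v _ => ?_
    rw [hreg v]
    exact ENat.natCast_lt_top _
  refine ⟨hfin.toFinset, hfin.mem_toFinset.2 ⟨_, h1, hsel ρ⟩,
    hfin.mem_toFinset.2 ⟨_, h2, hsub hw0⟩, ?_, ?_, hlt, (c2 K h6).trans ?_⟩
  · rw [hfin.coe_toFinset]
    exact hcon h3 ⟨_, h1, ρ.1, hsel ρ⟩
  · obtain ⟨e, he⟩ := ENat.ne_top_iff_exists.1 hlt.ne
    rw [← he] at c1 ⊢
    have h7 : a ≤ (d + 1) * e := by exact_mod_cast h4.trans c1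
    have h8 : a' ≤ e := Nat.le_of_mul_le_mul_left (ha.trans h7) (Nat.succ_pos d)
    exact_mod_cast h8
  · have h9 : (d + 1) * (S.card * K ^ d) ≤ (d + 1) * (f * K ^ d) := by gcongr
    exact_mod_cast h9

theorem sk_exp {V : Type} (G : SimpleGraph V) (φ : V → ℝ) (D : ℕ) (hD : 0 < D)
    (hreg : ∀ v, (G.neighborSet v).encard = D)
    (H : ∀ m : ℕ, 1 ≤ m → ∃ a b : ℕ, m ≤ a ∧ b ^ (2 * m) ≤ a ^ (m + 1) ∧ Thin G φ m (D * a) b)
    (α : ℝ) (hα : 1 / 2 < α) (ρ : V) (m : ℕ) :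
    ∃ S : Finset V, ρ ∈ S ∧ (G.induce (S : Set V)).Connected ∧ m ≤ S.card ∧
      (ebdry G S : ℝ≥0∞) ≤ (S.card : ℝ≥0∞) ^ α := by
  obtain ⟨p, hp⟩ := exists_nat_ge (max (φ ρ) (1 / (2 * α - 1)))
  obtain ⟨M, hM⟩ : ∃ M, M = p + m + 1 := ⟨_, rfl⟩
  have hpM : (p : ℝ) ≤ M := by exact_mod_cast (by omega : p ≤ M)
  have hM0 : (0 : ℝ) < M := by exact_mod_cast (by omega : 0 < M)
  obtain ⟨a, b, h1, h2, v0, h3⟩ := H M (by omega)
  obtain ⟨S, s1, -, s3, s4, -, s6⟩ := h3 ρ (((le_max_left _ _).trans hp).trans hpM)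
  have e : evol G S = ((D * S.card : ℕ) : ℕ∞) := by
    unfold evol
    rw [Finset.sum_congr rfl fun v _ => hreg v, Finset.sum_const, nsmul_eq_mul]
    push_cast
    ring
  rw [e] at s4
  have h4 : a ≤ S.card := Nat.le_of_mul_le_mul_left (by exact_mod_cast s4) hD
  refine ⟨S, s1, s3, by omega, ?_⟩
  have h5 : (ebdry G S : ℝ≥0∞) ≤ (b : ℝ≥0∞) := by
    have := ENat.toENNReal_le.2 s6
    simpa using this
  have h6 : (b : ℝ≥0∞) ^ (2 * M) ≤ (S.card : ℝ≥0∞) ^ (M + 1) := by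
    exact_mod_cast h2.trans (Nat.pow_le_pow_left h4 _)
  have h7 : (1 : ℝ≥0∞) ≤ S.card := by exact_mod_cast (by omega : 1 ≤ S.card)
  have h8 : ((M + 1 : ℕ) : ℝ) ≤ α * ((2 * M : ℕ) : ℝ) := by
    have h9 := ((le_max_right _ _).trans hp).trans hpM
    rw [div_le_iff₀ (by linarith)] at h9
    push_cast
    linarith
  refine h5.trans ((ENNReal.pow_le_pow_left_iff (n := 2 * M) (by omega)).1 (h6.trans ?_))
  rw [← ENNReal.rpow_natCast, ← ENNReal.rpow_natCast, ← ENNReal.rpow_mul]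
  exact ENNReal.rpow_le_rpow_of_exponent_le h7 h8

theorem sk_asm (hPoly : SPoly) (hReg : SReg) (hCon : SCon) (hCnt : SCnt) (hIn1 : SIn1)
    (hIn2 : SIn2) (hIn3 : SIn3) (hCamp : SCamp) (hNull : SNull) (hDet : SDet) (hPar : SPar)
    (hFin : BFin) (hProb : BProb)
    (n : ℕ) (hn : 2 ≤ n) (lam : ℝ) (hlam : 0 < lam)
    (Ω : Type) [MeasurableSpace Ω] (P : Measure Ω) [IsProbabilityMeasure P]
    (Z : Ω → Set (Hyp n)) (hZ : IsPPP P Z (ENNReal.ofReal lam • hvol n)) :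
    ∀ᵐ ω ∂P, Arr psi LL cc (Z ω) (near (Z ω)) ∧ (skel (Z ω)).Connected ∧
      (∀ v, ((skel (Z ω)).neighborSet v).encard = (n + 2 : ℕ)) ∧
      Infinite {y // (near (Z ω) y).encard = (n + 2 : ℕ)} ∧
      (∀ ρ, Tendsto (isoInf (skel (Z ω)) ρ) atTop (𝓝 0)) ∧
      ∀ α : ℝ, 1 / 2 < α → ∀ ρ (m : ℕ), ∃ S : Finset _, ρ ∈ S ∧
        ((skel (Z ω)).induce (S : Set _)).Connected ∧ m ≤ S.card ∧
        (ebdry (skel (Z ω)) S : ℝ≥0∞) ≤ (S.card : ℝ≥0∞) ^ α := by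
  let i0 : Fin n := ⟨0, by omega⟩
  let i1 : Fin n := ⟨1, by omega⟩
  have h01 : i0 ≠ i1 := by simp [i0, i1]
  have key : ∀ m : ℕ, ∀ᵐ ω ∂P, 1 ≤ m → ∃ a f K : ℕ,
      (∃ a' : ℕ, (n + 2) * ((n + 2) * a') ≤ a ∧ m * ((n + 2) * (f * K ^ (n + 1))) + m ≤ a' ∧
        ((n + 2) * (f * K ^ (n + 1))) ^ (2 * m) ≤ a' ^ (m + 1)) ∧
      Thin2 (near (Z ω)) (fun x => coshDist (orig n) x) m a f K ∧
      (Z ω).Nonempty ∧ (Z ω ∩ Fat 0 0 m).Finite ∧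
      ∀ x ∈ Z ω, coshDist (orig n) x ≤ m → ∃ R : ℝ, ∀ y ∈ cell (Z ω) x, coshDist y x ≤ R := by
    intro m
    by_cases hm : 1 ≤ m
    swap
    · exact Eventually.of_forall fun _ h => absurd h hm
    rw [ae_iff, ← measureReal_eq_zero_iff]
    refine le_antisymm (le_of_forall_pos_le_add fun ε hε => ?_) measureReal_nonneg
    obtain ⟨L, hL0, hL⟩ : ∃ L : ℝ, 0 ≤ L ∧ Real.exp (-L) ≤ ε / 2 := by
      refine ⟨2 / ε, by positivity, ?_⟩
      rw [Real.exp_neg, inv_le_comm₀ (Real.exp_pos _) (by positivity), inv_div]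
      linarith [Real.add_one_le_exp (2 / ε)]
    obtain ⟨N, k, T, K, ρ, τ, hk, hT, hτ, hτk, hnτ, hρ, hTb, hmb, hLp, hδ⟩ :=
      hPar n m lam (ε / 2 / (L + 1)) L (by omega) hm hlam (by positivity) hL0
    have h1 := hProb n i0 i1 lam hlam Ω P Z hZ N k T K ρ τ L _ hk hT hτ hτk hρ hL0 hLp hδ
    have h2 : (L + 1) * (ε / 2 / (L + 1)) = ε / 2 := by field_simp
    rw [h2] at h1
    refine le_trans (measureReal_mono ?_) (h1.trans (by linarith))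
    intro ω hω hgood
    obtain ⟨z, hz, hg⟩ := hgood
    refine hω fun _ => ⟨k ^ 2, (N + 1) * K + 2 * k, K, hmb, ?_⟩
    refine hDet n i0 i1 h01 (Z ω) (pos i0 N z) N k T K ρ τ m ?_ hk hτ hτk hnτ hρ
      (by exact_mod_cast hm) hTb hg
    intro l
    unfold pos
    split_ifs
    · have hz' : (z : ℝ) ≤ 2 ^ N := by exact_mod_cast hz.le
      rw [abs_of_nonneg (by positivity)]
      have : ((1 : ℝ) / 2) ^ N * 2 ^ N = 1 := by rw [← mul_pow]; norm_num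
      have h3 : ((1 : ℝ) / 2) ^ N * z ≤ (1 / 2) ^ N * 2 ^ N := by gcongr
      linarith
    · simp
  have hgp : ∀ m : ℕ, ∀ᵐ ω ∂P, m ≤ n + 3 → ∀ x : Fin m → Hyp n, Function.Injective x →
      (∀ i, x i ∈ Z ω) → LinearIndependent ℝ fun i => lft (x i) := by
    intro m
    by_cases hm : m ≤ n + 3
    swap
    · exact Eventually.of_forall fun _ h => absurd h hm
    obtain ⟨hlf, hnull⟩ := hNull n lam
    filter_upwards [hCamp Ω (Hyp n) P Z _ hZ m _ (hnull m hm)] with ω hω _ x hx hxZ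
    by_contra hc
    exact hω x hc hx hxZ
  filter_upwards [ae_all_iff.2 key, ae_all_iff.2 hgp] with ω hω hg
  have hT : Tame (Z ω) := by
    refine ⟨?_, fun R hR => ?_, fun x hx => ?_⟩
    · obtain ⟨_, _, _, -, -, h, -⟩ := hω 1 le_rfl
      exact h
    · obtain ⟨m, hm⟩ := exists_nat_ge R
      obtain ⟨_, _, _, -, -, -, h, -⟩ := hω m (by exact_mod_cast hR.trans hm)
      exact h.subset fun x hx => ⟨hx.1, fat_mono (by linarith) hm hx.2⟩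
    · obtain ⟨m, hm⟩ := exists_nat_ge (coshDist (orig n) x)
      obtain ⟨_, _, _, -, -, -, -, h⟩ := hω m
        (by exact_mod_cast (one_le_coshDist _ _).trans hm)
      exact h x hx hm
  obtain ⟨a1, a2, a3⟩ := hIn1 n (Z ω)
  obtain ⟨b1, b2, b3⟩ := hIn2 n (Z ω) hT
  have hA : Arr psi LL cc (Z ω) (near (Z ω)) := ⟨a1, a2, b1, b2, hIn3 n (Z ω) hT, b3, a3 hg⟩
  have hS : Smp (n + 1) (near (Z ω)) :=
    hPoly _ _ _ psi LL cc (Z ω) _ (n + 1) (by omega) (by simp) hA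
  choose sel hsel using fun v : {y : Hyp n // (near (Z ω) y).encard = (n + 1 + 1 : ℕ)} => b1 v.1
  have hth : ∀ m : ℕ, 1 ≤ m → ∃ a b : ℕ, m * b + m ≤ a ∧ b ^ (2 * m) ≤ a ^ (m + 1) ∧
      Thin (gsk (n + 1) (near (Z ω))) (fun v => coshDist (orig n) (sel v)) m ((n + 2) * a) b := by
    intro m hm
    obtain ⟨a, f, K, ⟨a', h1, h2, h3⟩, h4, -⟩ := hω m hm
    exact ⟨a', _, h2, h3, sk_thin hReg hCon hCnt (n + 1) _ hS sel hsel _ m a _ f K h1 h4⟩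
  obtain ⟨h1, -, h3, h4⟩ := hFin _ (gsk (n + 1) (near (Z ω)))
    (fun v => coshDist (orig n) (sel v)) fun m hm => by
      obtain ⟨a, b, h1, -, h2⟩ := hth m hm
      have h3 : a ≤ (n + 2) * a := Nat.le_mul_of_pos_left a (by omega)
      exact ⟨(n + 2) * a, b, by omega, by omega, h2⟩
  refine ⟨hA, h1, hReg _ _ _ _ hS, h3, h4,
    sk_exp _ (fun v => coshDist (orig n) (sel v)) (n + 2) (by omega) (hReg _ _ _ _ hS)
      fun m hm => ?_⟩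
  obtain ⟨a, b, h1, h2, h3⟩ := hth m hm
  exact ⟨a, b, by omega, h2, h3⟩

end PV2c
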