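import Pool.Agent.P.MP_2c2d1a_pr.Defs

/-! The 1-skeleton of the Voronoi tessellation of hyperbolic space of dimension `d = n + 1`. -/

namespace PV2c

variable {n : ℕ}

/-- The points of `Z` whose Voronoi cell contains `y`. -/
def near (Z : Set (Hyp n)) (y : Hyp n) : Set (Hyp n) := {x | x ∈ Z ∧ y ∈ cell Z x}

/-- The 1-skeleton: its vertices are the points that lie in exactly `d + 1` cells, and two
vertices are joined when exactly `d` cells contain both. -/
def skel (Z : Set (Hyp n)) : SimpleGraph {y : Hyp n // (near Z y).encard = (n + 2 : ℕ)} where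
  Adj y y' := y ≠ y' ∧ (near Z y.1 ∩ near Z y'.1).encard = (n + 1 : ℕ)
  symm := ⟨fun _ _ h => ⟨h.1.symm, by rw [Set.inter_comm]; exact h.2⟩⟩
  loopless := ⟨fun _ h => h.1 rfl⟩

end PV2c
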