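import Pool.Agent.P.MP_2c2d1a_pr.Blocks
import Pool.Agent.P.MP_2c2d1a_pr.SkDefs

/-! Auxiliary definitions and blocks for the skeleton theorem. -/

open MeasureTheory Filter Topology
open scoped ENNReal

namespace PV2c

variable {n : ℕ}

/-- The abstract skeleton of a family of label sets `N`. -/
def gsk {X ι : Type} (d : ℕ) (N : X → Set ι) :
    SimpleGraph {y : X // (N y).encard = (d + 1 : ℕ)} where
  Adj y y' := y ≠ y' ∧ (N y.1 ∩ N y'.1).encard = (d : ℕ)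
  symm := ⟨fun _ _ h => ⟨h.1.symm, by rw [Set.inter_comm]; exact h.2⟩⟩
  loopless := ⟨fun _ h => h.1 rfl⟩

theorem skel_eq (Z : Set (Hyp n)) : skel Z = gsk (n + 1) (near Z) := rfl

/-- Two labels touch when some point carries both. -/
def gto {X ι : Type} (N : X → Set ι) : SimpleGraph ι where
  Adj x x' := x ≠ x' ∧ ∃ w, x ∈ N w ∧ x' ∈ N w
  symm := ⟨fun _ _ h => ⟨h.1.symm, by obtain ⟨w, h1, h2⟩ := h.2; exact ⟨w, h2, h1⟩⟩⟩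
  loopless := ⟨fun _ h => h.1 rfl⟩

/-- The lower envelope of a family of affine functions on a bounded, locally finite, simple
arrangement: `N y` is the set of the minimisers at `y`. -/
structure Arr {X ι E : Type} [AddCommGroup E] [Module ℝ E] (ψ : X → E) (L : ι → E →ₗ[ℝ] ℝ)
    (c : ι → ℝ) (Z : Set ι) (N : X → Set ι) : Prop where
  inj : Function.Injective ψ
  mem : ∀ y x, x ∈ N y ↔ x ∈ Z ∧ ∀ x' ∈ Z, L x (ψ y) + c x ≤ L x' (ψ y) + c x'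
  ne : ∀ y, (N y).Nonempty
  us : ∀ y v, ∃ ε : ℝ, 0 < ε ∧ ∀ t : ℝ, 0 ≤ t → t ≤ ε → ∃ w, ψ w = ψ y + t • v ∧ N w ⊆ N y
  cpt : ∀ y x v, v ≠ 0 → x ∈ N y →
    ∃ t : ℝ, IsGreatest {t : ℝ | ∃ w, ψ w = ψ y + t • v ∧ x ∈ N w} t
  fin : ∀ x, {x' | ∃ w, x ∈ N w ∧ x' ∈ N w}.Finite
  sol : ∀ y (a : ι → ℝ), ∃ (v : E) (c0 : ℝ), ∀ x ∈ N y, L x v = c0 + a x

/-- The combinatorics of a simple tessellation of dimension `d`. -/
structure Smp {X ι : Type} (d : ℕ) (N : X → Set ι) : Prop where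
  le : ∀ y, (N y).encard ≤ (d + 1 : ℕ)
  ext : ∀ y w, (N y).encard = (d + 1 : ℕ) → N y ⊆ N w → w = y
  up : ∀ p, ∃ y, (N y).encard = (d + 1 : ℕ) ∧ N p ⊆ N y
  flip : ∀ y, (N y).encard = (d + 1 : ℕ) → ∀ x0 ∈ N y,
    ∃! y', (N y').encard = (d + 1 : ℕ) ∧ y' ≠ y ∧ N y \ {x0} ⊆ N y'
  path : ∀ x (y z : {y : X // (N y).encard = (d + 1 : ℕ)}), x ∈ N y.1 → x ∈ N z.1 →
    Relation.ReflTransGen (fun a b => (gsk d N).Adj a b ∧ x ∈ N b.1) y z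
  fin : ∀ x, {x' | ∃ w, x ∈ N w ∧ x' ∈ N w}.Finite

/-- Small sets of labels with many inner edges and few outer neighbours. -/
def Thin2 {X ι : Type} (N : X → Set ι) (φ : ι → ℝ) (R0 : ℝ) (a f K : ℕ) : Prop :=
  ∃ v0 : ι, (∃ w, v0 ∈ N w) ∧ ∀ ρ : ι, (∃ w, ρ ∈ N w) → φ ρ ≤ R0 → ∃ S : Finset ι,
    ρ ∈ S ∧ v0 ∈ S ∧ ((gto N).induce (S : Set ι)).Connected ∧ (a : ℕ∞) ≤ evol (gto N) S ∧
    S.card ≤ f ∧ ∀ x ∈ S, ((gto N).neighborSet x \ (S : Set ι)).encard ≤ K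

/-- Locally finite with bounded cells. -/
structure Tame (Z : Set (Hyp n)) : Prop where
  ne : Z.Nonempty
  fin : ∀ R : ℝ, 1 ≤ R → (Z ∩ Fat 0 0 R).Finite
  bdd : ∀ x ∈ Z, ∃ R : ℝ, ∀ y ∈ cell Z x, coshDist y x ≤ R

/-- The lift `(u, h, 1, |u|^2 + h^2)`. -/
noncomputable def lft (x : Hyp n) : ((Fin n → ℝ) × ℝ) × (ℝ × ℝ) :=
  (x.1, (1, ∑ l, x.1.1 l ^ 2 + x.1.2 ^ 2))

/-- General position: at most `n + 3` distinct points have independent lifts. -/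
def GP (Z : Set (Hyp n)) : Prop :=
  ∀ m ≤ n + 3, ∀ x : Fin m → Hyp n, Function.Injective x → (∀ i, x i ∈ Z) →
    LinearIndependent ℝ fun i => lft (x i)

/-- The chart `(u, |u|^2 + h^2)` in which geodesics are straight. -/
noncomputable def psi (y : Hyp n) : (Fin n → ℝ) × ℝ := (y.1.1, ∑ l, y.1.1 l ^ 2 + y.1.2 ^ 2)

/-- The linear part of `h_y * coshDist y x` in the chart. -/
noncomputable def LL (x : Hyp n) : ((Fin n → ℝ) × ℝ) →ₗ[ℝ] ℝ where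
  toFun v := (v.2 - 2 * ∑ l, v.1 l * x.1.1 l) / (2 * x.1.2)
  map_add' v w := by
    simp only [Prod.snd_add, Prod.fst_add, Pi.add_apply, add_mul, Finset.sum_add_distrib]
    ring
  map_smul' a v := by
    simp only [Prod.smul_snd, Prod.smul_fst, Pi.smul_apply, smul_eq_mul, RingHom.id_apply,
      mul_assoc, ← Finset.mul_sum]
    ring

/-- The constant part of `h_y * coshDist y x` in the chart. -/
noncomputable def cc (x : Hyp n) : ℝ := (∑ l, x.1.1 l ^ 2 + x.1.2 ^ 2) / (2 * x.1.2)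

/-! ### Blocks -/

/-- A simple arrangement has simple combinatorics. -/
def SPoly : Prop := ∀ (X ι E : Type) [AddCommGroup E] [Module ℝ E] [FiniteDimensional ℝ E]
  (ψ : X → E) (L : ι → E →ₗ[ℝ] ℝ) (c : ι → ℝ) (Z : Set ι) (N : X → Set ι) (d : ℕ), 1 ≤ d →
  Module.finrank ℝ E = d → Arr ψ L c Z N → Smp d N

/-- The skeleton is regular. -/
def SReg : Prop := ∀ (X ι : Type) (d : ℕ) (N : X → Set ι), Smp d N →
  ∀ v, ((gsk d N).neighborSet v).encard = (d + 1 : ℕ)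

/-- The vertices of the cells of a connected finite set of labels: finite and connected. -/
def SCon : Prop := ∀ (X ι : Type) (d : ℕ) (N : X → Set ι), Smp d N → ∀ S : Finset ι,
  {y : {y : X // (N y).encard = (d + 1 : ℕ)} | ∃ x ∈ S, x ∈ N y.1}.Finite ∧
  (((gto N).induce (S : Set ι)).Connected → (∃ x ∈ S, ∃ w, x ∈ N w) →
    ((gsk d N).induce {y | ∃ x ∈ S, x ∈ N y.1}).Connected)

/-- The two counts. -/
def SCnt : Prop := ∀ (X ι : Type) (d : ℕ) (N : X → Set ι), Smp d N →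
  (∀ v, ((gsk d N).neighborSet v).encard = (d + 1 : ℕ)) → ∀ (S : Finset ι)
  (S' : Finset {y : X // (N y).encard = (d + 1 : ℕ)}), (∀ y, y ∈ S' ↔ ∃ x ∈ S, x ∈ N y.1) →
  evol (gto N) S ≤ (d + 1 : ℕ) * evol (gsk d N) S' ∧
  ∀ K : ℕ, (∀ x ∈ S, ((gto N).neighborSet x \ (S : Set ι)).encard ≤ K) →
    ebdry (gsk d N) S' ≤ (((d + 1) * (S.card * K ^ d) : ℕ) : ℕ∞)

/-- The chart, and the parts of the arrangement that need no limit. -/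
def SIn1 : Prop := ∀ (n : ℕ) (Z : Set (Hyp n)),
  Function.Injective (psi : Hyp n → _) ∧
  (∀ y x, x ∈ near Z y ↔ x ∈ Z ∧ ∀ x' ∈ Z, LL x (psi y) + cc x ≤ LL x' (psi y) + cc x') ∧
  (GP Z → ∀ y (a : Hyp n → ℝ), ∃ (v : (Fin n → ℝ) × ℝ) (c0 : ℝ),
    ∀ x ∈ near Z y, LL x v = c0 + a x)

/-- Nearest points exist, vary upper semicontinuously, and a cell touches finitely many. -/
def SIn2 : Prop := ∀ (n : ℕ) (Z : Set (Hyp n)), Tame Z →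
  (∀ y, (near Z y).Nonempty) ∧
  (∀ (y : Hyp n) (v : (Fin n → ℝ) × ℝ), ∃ ε : ℝ, 0 < ε ∧ ∀ t : ℝ, 0 ≤ t → t ≤ ε →
    ∃ w, psi w = psi y + t • v ∧ near Z w ⊆ near Z y) ∧
  ∀ x, {x' | ∃ w, x ∈ near Z w ∧ x' ∈ near Z w}.Finite

/-- Cells are compact. -/
def SIn3 : Prop := ∀ (n : ℕ) (Z : Set (Hyp n)), Tame Z →
  ∀ (y x : Hyp n) (v : (Fin n → ℝ) × ℝ), v ≠ 0 → x ∈ near Z y →
  ∃ t : ℝ, IsGreatest {t : ℝ | ∃ w, psi w = psi y + t • v ∧ x ∈ near Z w} t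

/-- A Poisson process has no tuple of distinct points in a null set. -/
def SCamp : Prop := ∀ (Ω X : Type) [MeasurableSpace Ω] [TopologicalSpace X] [T2Space X]
  [SecondCountableTopology X] [MeasurableSpace X] [BorelSpace X] (P : Measure Ω)
  [IsProbabilityMeasure P] (Z : Ω → Set X) (μ : Measure X) [IsLocallyFiniteMeasure μ],
  IsPPP P Z μ → ∀ (m : ℕ) (B : Set (Fin m → X)), Measure.pi (fun _ => μ) B = 0 →
  ∀ᵐ ω ∂P, ∀ x ∈ B, Function.Injective x → ¬ ∀ i, x i ∈ Z ω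

/-- Degenerate tuples are null. -/
def SNull : Prop := ∀ (n : ℕ) (lam : ℝ),
  IsLocallyFiniteMeasure (ENNReal.ofReal lam • hvol n) ∧ ∀ m ≤ n + 3,
  Measure.pi (fun _ : Fin m => ENNReal.ofReal lam • hvol n)
    {x | ¬ LinearIndependent ℝ fun i => lft (x i)} = 0

/-- The deterministic assembly for the touching graph. -/
def SDet : Prop := ∀ (n : ℕ) (i0 i1 : Fin n), i0 ≠ i1 → ∀ (Z : Set (Hyp n)) (t : Fin n → ℝ)
  (N k T K : ℕ) (ρ τ R0 : ℝ), (∀ l, |t l| ≤ 5) → 1 ≤ k → 0 < τ → τ * (800 * (k : ℝ) ^ 2) ≤ 1 →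
  n * τ ≤ 1 → 0 ≤ ρ → 1 ≤ R0 →
  256 * (n + 1) * (n * (ρ + 1) ^ 2 + 4) ^ 3 * (4 * R0 + 32) ^ 3 ≤ (T : ℝ) →
  GoodAt Z i0 i1 t N k T K ρ τ →
  Thin2 (near Z) (fun x => coshDist (orig n) x) R0 (k ^ 2) ((N + 1) * K + 2 * k) K ∧
  Z.Nonempty ∧ (Z ∩ Fat 0 0 R0).Finite ∧
  ∀ x ∈ Z, coshDist (orig n) x ≤ R0 → ∃ R : ℝ, ∀ y ∈ cell Z x, coshDist y x ≤ R

/-- The choice of the parameters. -/
def SPar : Prop := ∀ (n m : ℕ) (lam δ L : ℝ), 1 ≤ n → 1 ≤ m → 0 < lam → 0 < δ → 0 ≤ L →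
  ∃ (N k T K : ℕ) (ρ τ : ℝ), 1 ≤ k ∧ 1 ≤ T ∧ 0 < τ ∧ τ * (800 * (k : ℝ) ^ 2) ≤ 1 ∧ n * τ ≤ 1 ∧
  0 ≤ ρ ∧ 256 * (n + 1) * (n * (ρ + 1) ^ 2 + 4) ^ 3 * (4 * m + 32) ^ 3 ≤ (T : ℝ) ∧
  (∃ a : ℕ, (n + 2) * ((n + 2) * a) ≤ k ^ 2 ∧
    m * ((n + 2) * (((N + 1) * K + 2 * k) * K ^ (n + 1))) + m ≤ a ∧
    ((n + 2) * (((N + 1) * K + 2 * k) * K ^ (n + 1))) ^ (2 * m) ≤ a ^ (m + 1)) ∧
  L ≤ 2 ^ N * ((lam * (τ / 2) ^ (n + 1) * Real.exp (-(lam * (3 * 4 ^ n)))) ^ (2 * k) *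
    Real.exp (-(lam * (3 * 4 ^ n)))) ∧
  (((N + 1) * (T ^ 2 * (2 * T ^ 2 + 1) ^ n) : ℕ) : ℝ) *
      Real.exp (lam * (3 * 4 ^ n) - lam * (ρ ^ n / 2)) +
    (N + 1) * (Real.exp (lam * (2 ^ n * (T : ℝ) ^ (2 * n + 2))) / 2 ^ K) ≤ δ

end PV2c
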