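import Pool.Agent.P.MP_2c2d1a_pr.SkBlocks
import Pool.Agent.P.MP_2c2d1a_pr.Ind

/-! A Poisson process has no tuple of distinct points in a null set. -/

open MeasureTheory ProbabilityTheory
open scoped ENNReal

namespace PV2c

theorem camp_box {Ω X : Type} [MeasurableSpace Ω] [MeasurableSpace X] {P : Measure Ω}
    [IsProbabilityMeasure P] {Z : Ω → Set X} {μ : Measure X} (h : IsPPP P Z μ) {m : ℕ}
    (A : Fin m → Set X) (hm : ∀ i, MeasurableSet (A i)) (hf : ∀ i, μ (A i) < ⊤)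
    (hd : ∀ i j, i ≠ j → Disjoint (A i) (A j)) :
    P {ω | ∀ i, (Z ω ∩ A i).Nonempty} ≤ ∏ i, μ (A i) := by
  obtain ⟨E, hE⟩ : ∃ E : Fin m → Set Ω, ∀ i, E i = {ω | (Z ω ∩ A i).encard = (0 : ℕ)} :=
    ⟨_, fun _ => rfl⟩
  have hmE : ∀ i, MeasurableSet (E i) := fun i => hE i ▸ h.meas _ (hm i) 0
  have h1 : ∀ i, P (E i) = ENNReal.ofReal (poi (μ (A i)).toReal 0) := by
    intro i
    have h2 := Ind_law h (κ := Unit) (fun _ => A i) (fun _ => 0) (fun _ => hm i) (fun _ => hf i)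
      (fun a b hab => absurd rfl hab)
    rw [Fintype.prod_unique] at h2
    rw [← h2, hE]
    congr 1
    ext ω
    exact ⟨fun hh _ => hh, fun hh => hh ()⟩
  have hI : iIndepSet E P := by
    refine (iIndepSet_iff_meas_biInter hmE).2 fun T => ?_
    have h2 := Ind_law h (κ := T) (fun i => A i) (fun _ => 0) (fun _ => hm _) (fun _ => hf _)
      (fun a b hab => hd _ _ fun hh => hab (Subtype.ext hh))
    have h3 : (⋂ i ∈ T, E i) = {ω | ∀ i : T, (Z ω ∩ A i).encard = (0 : ℕ)} := by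
      ext ω
      simp only [Set.mem_iInter, hE, Set.mem_ofPred_eq]
      exact ⟨fun hh i => hh _ i.2, fun hh i hi => hh ⟨i, hi⟩⟩
    rw [h3, h2, ← Finset.prod_coe_sort T]
    exact Finset.prod_congr rfl fun i _ => (h1 i).symm
  have h2 := (iIndepSet_iff E P).1 hI Finset.univ (f := fun i => (E i)ᶜ)
    (fun i _ => (MeasurableSpace.measurableSet_generateFrom (Set.mem_singleton _)).compl)
  have h3 : {ω | ∀ i, (Z ω ∩ A i).Nonempty} ⊆ ⋂ i ∈ (Finset.univ : Finset (Fin m)), (E i)ᶜ := by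
    intro ω hω
    refine Set.mem_iInter₂.2 fun i _ hh => ?_
    rw [hE] at hh
    have h4 : (Z ω ∩ A i).encard = 0 := hh
    exact (hω i).ne_empty (Set.encard_eq_zero.1 h4)
  refine (measure_mono h3).trans (h2.le.trans (Finset.prod_le_prod' fun i _ => ?_))
  rw [prob_compl_eq_one_sub (hmE i), h1, tsub_le_iff_right]
  have h4 : (1 : ℝ) ≤ (μ (A i)).toReal + poi (μ (A i)).toReal 0 := by
    have h5 := Real.add_one_le_exp (-(μ (A i)).toReal)
    simp only [poi, pow_zero, Nat.factorial_zero, Nat.cast_one, mul_one, div_one]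
    linarith
  calc (1 : ℝ≥0∞) = ENNReal.ofReal 1 := ENNReal.ofReal_one.symm
    _ ≤ ENNReal.ofReal ((μ (A i)).toReal + poi (μ (A i)).toReal 0) :=
      ENNReal.ofReal_le_ofReal h4
    _ ≤ ENNReal.ofReal (μ (A i)).toReal + ENNReal.ofReal (poi (μ (A i)).toReal 0) :=
      ENNReal.ofReal_add_le
    _ = _ := by rw [ENNReal.ofReal_toReal (hf i).ne]

theorem camp_null {Ω X : Type} [MeasurableSpace Ω] [MeasurableSpace X] {P : Measure Ω}
    [IsProbabilityMeasure P] {Z : Ω → Set X} {μ : Measure X} (h : IsPPP P Z μ) {m : ℕ}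
    (U : Fin m → Set X) (hm : ∀ i, MeasurableSet (U i)) (hf : ∀ i, μ (U i) < ⊤)
    (hd : ∀ i j, i ≠ j → Disjoint (U i) (U j)) (B : Set (Fin m → X))
    (hB : Measure.pi (fun _ => μ) B = 0) :
    P {ω | ∃ x ∈ B, ∀ i, x i ∈ Z ω ∩ U i} = 0 := by
  let ν : OuterMeasure (Fin m → X) :=
    { measureOf := fun S => P {ω | ∃ x ∈ S, ∀ i, x i ∈ Z ω ∩ U i}
      empty := by simp
      mono := fun hS => measure_mono fun ω ⟨x, hx, hx'⟩ => ⟨x, hS hx, hx'⟩
      iUnion_nat := fun s _ => by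
        refine (measure_mono ?_).trans (measure_iUnion_le _)
        rintro ω ⟨x, hx, hx'⟩
        obtain ⟨k, hk⟩ := Set.mem_iUnion.1 hx
        exact Set.mem_iUnion.2 ⟨k, x, hk, hx'⟩ }
  have h1 : ν ≤ OuterMeasure.pi fun _ : Fin m => μ.toOuterMeasure := by
    refine OuterMeasure.le_pi.2 fun s _ => ?_
    have h2 := camp_box h (fun i => toMeasurable μ (s i) ∩ U i)
      (fun i => (measurableSet_toMeasurable μ _).inter (hm i))
      (fun i => (measure_mono Set.inter_subset_right).trans_lt (hf i))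
      (fun i j hij => (hd i j hij).mono Set.inter_subset_right Set.inter_subset_right)
    show P {ω | ∃ x ∈ Set.pi Set.univ s, ∀ i, x i ∈ Z ω ∩ U i} ≤ ∏ i, μ (s i)
    refine le_trans (measure_mono ?_) (h2.trans (Finset.prod_le_prod' fun i _ => ?_))
    · rintro ω ⟨x, hx, hx'⟩ i
      exact ⟨x i, (hx' i).1, subset_toMeasurable μ _ (hx i (Set.mem_univ i)), (hx' i).2⟩
    · exact (measure_mono Set.inter_subset_left).trans (measure_toMeasurable _).le
  rw [Measure.pi_def] at hB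
  exact le_antisymm ((h1 B).trans ((le_toMeasure_apply _ _ B).trans hB.le)) zero_le

theorem sCamp : SCamp := by
  intro Ω X _ _ _ _ _ _ P _ Z μ _ h m B hB
  have key : ∀ U : Fin m → TopologicalSpace.countableBasis X, ∀ᵐ ω ∂P,
      (∀ i, μ (U i) < ⊤) → (∀ i j, i ≠ j → Disjoint (U i : Set X) (U j)) →
      ¬ ∃ x ∈ B, ∀ i, x i ∈ Z ω ∩ U i := by
    intro U
    by_cases h1 : (∀ i, μ (U i) < ⊤) ∧ ∀ i j, i ≠ j → Disjoint (U i : Set X) (U j)
    · have h2 := camp_null h (fun i => (U i : Set X))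
        (fun i => (TopologicalSpace.isOpen_of_mem_countableBasis (U i).2).measurableSet)
        h1.1 h1.2 B hB
      filter_upwards [measure_eq_zero_iff_ae_notMem.1 h2] with ω hω _ _
      exact hω
    · exact Filter.Eventually.of_forall fun _ k1 k2 => absurd ⟨k1, k2⟩ h1
  filter_upwards [ae_all_iff.2 key] with ω hω x hx hinj hZ
  obtain ⟨V, hV, hVd⟩ := (Set.finite_range x).t2_separation
  have h1 : ∀ i, ∃ U : TopologicalSpace.countableBasis X,
      x i ∈ (U : Set X) ∧ (U : Set X) ⊆ V (x i) ∧ μ U < ⊤ := by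
    intro i
    obtain ⟨s, s1, s2, s3⟩ := μ.exists_isOpen_measure_lt_top (x i)
    obtain ⟨t, t1, t2, t3⟩ := (TopologicalSpace.isBasis_countableBasis X).exists_subset_of_mem_open
      (Set.mem_inter (hV (x i)).1 s1) ((hV (x i)).2.inter s2)
    exact ⟨⟨t, t1⟩, t2, t3.trans Set.inter_subset_left,
      (measure_mono (t3.trans Set.inter_subset_right)).trans_lt s3⟩
  choose U u1 u2 u3 using h1
  exact hω U u3 (fun i j hij => (hVd (Set.mem_range_self i) (Set.mem_range_self j)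
    (hinj.ne hij)).mono (u2 i) (u2 j)) ⟨x, hx, fun i => ⟨hZ i, u1 i⟩⟩

end PV2c
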