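import Pool.Agent.P.MP_2c2d1a_pr.SkBlocks

/-! The two counts that pass from the touching graph to the skeleton. -/

namespace PV2c

theorem skCnt_union {α β : Type} (t : Finset α) (s : α → Set β) (k : ℕ)
    (h : ∀ a ∈ t, (s a).encard ≤ (k : ℕ∞)) : (⋃ a ∈ t, s a).encard ≤ ((t.card * k : ℕ) : ℕ∞) := by
  refine (t.set_encard_biUnion_le s).trans ((Finset.sum_le_card_nsmul _ _ _ h).trans ?_)
  simp

theorem skCnt_vol {X ι : Type} {d : ℕ} {N : X → Set ι} (h : Smp d N) (S : Finset ι)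
    (S' : Finset {y : X // (N y).encard = (d + 1 : ℕ)}) (hS : ∀ y, y ∈ S' ↔ ∃ x ∈ S, x ∈ N y.1) :
    evol (gto N) S ≤ ((S'.card * (d + 1) * (d + 1) : ℕ) : ℕ∞) := by
  classical
  have h1 : ∀ x ∈ S, ((gto N).neighborSet x).encard ≤
      (((S'.filter fun y => x ∈ N y.1).card * (d + 1) : ℕ) : ℕ∞) := by
    intro x hx
    refine (Set.encard_le_encard ?_).trans
      (skCnt_union _ (fun y => N y.1) (d + 1) fun y _ => y.2.le)
    rintro x' ⟨-, w, hw, hw'⟩
    obtain ⟨u, hu, hs⟩ := h.up w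
    exact Set.mem_iUnion₂.2 ⟨⟨u, hu⟩,
      Finset.mem_filter.2 ⟨(hS _).2 ⟨x, hx, hs hw⟩, hs hw⟩, hs hw'⟩
  have h2 : ∑ x ∈ S, (S'.filter fun y => x ∈ N y.1).card ≤ S'.card * (d + 1) := by
    simp only [Finset.card_filter]
    rw [Finset.sum_comm]
    refine Finset.sum_le_card_nsmul _ _ _ fun y _ => ?_
    rw [← Finset.card_filter]
    have h3 : ((S.filter fun x => x ∈ N y.1 : Finset ι) : Set ι).encard ≤ (d + 1 : ℕ) :=
      (Set.encard_le_encard fun x hx => (Finset.mem_filter.1 hx).2).trans y.2.le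
    rw [Set.encard_coe_eq_coe_finsetCard] at h3
    exact_mod_cast h3
  refine (Finset.sum_le_sum h1).trans ?_
  rw [← Nat.cast_sum, ← Finset.sum_mul]
  exact Nat.cast_le.2 (Nat.mul_le_mul_right _ h2)

theorem skCnt_one {X ι : Type} {d : ℕ} {N : X → Set ι} (h : Smp d N) (x : ι) (T : Set ι) (K : ℕ)
    (hT : T.encard ≤ K) :
    {a : {y : X // (N y).encard = (d + 1 : ℕ)} | ∃ B ⊆ T, B.encard = (d : ℕ) ∧
      N a.1 = insert x B}.encard ≤ ((K ^ d : ℕ) : ℕ∞) := by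
  classical
  obtain ⟨F, rfl⟩ := (Set.finite_of_encard_le_coe hT).exists_finset_coe
  rw [Set.encard_coe_eq_coe_finsetCard, Nat.cast_le] at hT
  refine (Set.encard_le_encard_of_injOn (f := fun a => N a.1)
    (t := (fun B : Finset ι => insert x (B : Set ι)) '' (F.powersetCard d : Set (Finset ι))) ?_
    fun a _ b _ e => Subtype.ext (h.ext b.1 a.1 b.2 (le_of_eq e.symm))).trans
    ((Set.encard_image_le _ _).trans ?_)
  · rintro a ⟨B, hB, hd, e⟩
    obtain ⟨B', rfl⟩ := (Set.finite_of_encard_eq_coe hd).exists_finset_coe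
    rw [Set.encard_coe_eq_coe_finsetCard, Nat.cast_inj] at hd
    exact ⟨B', Finset.mem_powersetCard.2 ⟨Finset.coe_subset.1 hB, hd⟩, e.symm⟩
  · rw [Set.encard_coe_eq_coe_finsetCard, Finset.card_powersetCard, Nat.cast_le]
    exact (Nat.choose_le_pow _ _).trans (Nat.pow_le_pow_left hT _)

theorem sCnt : SCnt := by
  intro X ι d N h hreg S S' hS
  refine ⟨(skCnt_vol h S S' hS).trans (le_of_eq ?_), fun K hK => ?_⟩
  · simp only [evol, hreg, Finset.sum_const, nsmul_eq_mul]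
    push_cast
    ring
  have hA := skCnt_union S _ _ fun x hx => skCnt_one h x _ K (hK x hx)
  obtain ⟨A, hAe⟩ := (Set.finite_of_encard_le_coe hA).exists_finset_coe
  rw [← hAe, Set.encard_coe_eq_coe_finsetCard, Nat.cast_le] at hA
  refine (Set.encard_le_encard ?_).trans ((skCnt_union A
    (fun a => (fun b => s(a, b)) '' (gsk d N).neighborSet a) (d + 1) fun a _ =>
      (Set.encard_image_le _ _).trans (hreg a).le).trans ?_)
  · rintro _ ⟨he, a, b, rfl, ha, hb⟩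
    have hab : (gsk d N).Adj a b := he
    refine Set.mem_iUnion₂.2 ⟨a, ?_, b, hab, rfl⟩
    obtain ⟨x, hx, hxa⟩ := (hS a).1 ha
    have h1 : ∀ z ∈ N b.1, z ∉ S := fun z hz hzS => hb ((hS b).2 ⟨z, hzS, hz⟩)
    rw [← Finset.mem_coe, hAe]
    refine Set.mem_iUnion₂.2 ⟨x, hx, N a.1 ∩ N b.1, fun z hz =>
      ⟨⟨fun e => h1 z hz.2 (e ▸ hx), a.1, hxa, hz.1⟩, h1 z hz.2⟩, hab.2, ?_⟩
    refine ((Set.finite_of_encard_eq_coe a.2).eq_of_subset_of_encard_le'
      (Set.insert_subset hxa Set.inter_subset_left) ?_).symm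
    rw [Set.encard_insert_of_notMem fun hz => h1 x hz.2 hx, hab.2, a.2, Nat.cast_add, Nat.cast_one]
  · rw [Nat.cast_le, mul_comm]
    exact Nat.mul_le_mul_left _ hA

end PV2c
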