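import Pool.Agent.P.MP_2c2d1a_pr.SkBlocks

/-! The abstract skeleton is regular, and the vertices of a connected finite family of cells form
a finite connected set. -/

namespace PV2c

theorem skCon_inter {X ι : Type} {d : ℕ} {N : X → Set ι} (h : Smp d N) {v y : X}
    (hv : (N v).encard = (d + 1 : ℕ)) (hy : y ≠ v) {x0 : ι} (hs : N v \ {x0} ⊆ N y) :
    N v ∩ N y = N v \ {x0} := by
  refine Set.Subset.antisymm (fun x hx => ⟨hx.1, fun h0 => hy (h.ext v y hv fun z hz => ?_)⟩)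
    fun x hx => ⟨hx.1, hs hx⟩
  by_cases h1 : z = x0
  · rw [h1, ← Set.mem_singleton_iff.1 h0]
    exact hx.2
  · exact hs ⟨hz, h1⟩

theorem skCon_diff {ι : Type} {d : ℕ} {A : Set ι} (hA : A.encard = (d + 1 : ℕ)) {x0 : ι}
    (hx : x0 ∈ A) : (A \ {x0}).encard = (d : ℕ) := by
  have h1 := Set.encard_sdiff_singleton_add_one hx
  rw [hA, Nat.cast_add, Nat.cast_one] at h1
  exact WithTop.add_right_cancel ENat.one_ne_top h1

theorem sReg : SReg := by
  intro X ι d N h v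
  choose F hF using fun x0 : N v.1 => (h.flip v.1 v.2 x0.1 x0.2).exists
  have hi := fun x0 : N v.1 => skCon_inter h v.2 (hF x0).2.1 (hF x0).2.2
  let f : N v.1 → (gsk d N).neighborSet v := fun x0 =>
    ⟨⟨F x0, (hF x0).1⟩, fun e => (hF x0).2.1 (congrArg Subtype.val e).symm,
      (congrArg Set.encard (hi x0)).trans (skCon_diff v.2 x0.2)⟩
  refine (Set.encard_congr (Equiv.ofBijective f ⟨fun a b e => ?_, fun y => ?_⟩)).symm.trans v.2
  · have e1 : F a = F b := congrArg (fun y : (gsk d N).neighborSet v => y.1.1) e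
    by_contra hab
    have h1 : a.1 ∈ N v.1 \ {b.1} := ⟨a.2, fun h0 => hab (Subtype.ext h0)⟩
    rw [← hi b, ← e1, hi a] at h1
    exact h1.2 rfl
  · obtain ⟨y, hne, hc⟩ := y
    obtain ⟨x0, hx0, hx1⟩ : ∃ x0 ∈ N v.1, x0 ∉ N y.1 := by
      by_contra! h1
      exact hne (Subtype.ext (h.ext v.1 y.1 v.2 h1)).symm
    have h2 : N v.1 ∩ N y.1 = N v.1 \ {x0} :=
      (Set.finite_of_encard_eq_coe hc).eq_of_subset_of_encard_le
        (fun x hx => ⟨hx.1, fun h0 => hx1 (Set.mem_singleton_iff.1 h0 ▸ hx.2)⟩)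
        ((skCon_diff v.2 hx0).trans hc.symm).le
    refine ⟨⟨x0, hx0⟩, Subtype.ext (Subtype.ext ?_)⟩
    exact (h.flip v.1 v.2 x0 hx0).unique (hF ⟨x0, hx0⟩)
      ⟨y.2, fun e => hne (Subtype.ext e).symm, h2 ▸ Set.inter_subset_right⟩

theorem sCon : SCon := by
  intro X ι d N h S
  refine ⟨?_, fun hc hne => ?_⟩
  · have hU : (⋃ x ∈ (S : Set ι), {x' | ∃ w, x ∈ N w ∧ x' ∈ N w}).Finite :=
      S.finite_toSet.biUnion fun x _ => h.fin x
    refine (hU.finite_subsets.preimage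
      (f := fun y : {y : X // (N y).encard = (d + 1 : ℕ)} => N y.1)
      fun a _ b _ e => Subtype.ext (h.ext b.1 a.1 b.2 (le_of_eq e.symm))).subset ?_
    rintro y ⟨x, hx, hy⟩ x' hx'
    exact Set.mem_biUnion hx ⟨y.1, hy, hx'⟩
  have cell : ∀ x (hx : x ∈ S) (y z : {y : X // (N y).encard = (d + 1 : ℕ)}) (hy : x ∈ N y.1)
      (hz : x ∈ N z.1), ((gsk d N).induce {y | ∃ x ∈ S, x ∈ N y.1}).Reachable
        ⟨y, x, hx, hy⟩ ⟨z, x, hx, hz⟩ := by
    intro x hx y z hy hz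
    have h1 := h.path x y z hy hz
    induction h1 with
    | refl => exact .refl _
    | @tail b c hb hbc ih =>
      have h2 : x ∈ N b.1 := by
        rcases hb.cases_tail with rfl | ⟨_, -, h3⟩
        · exact hy
        · exact h3.2
      exact (ih h2).trans (SimpleGraph.Adj.reachable hbc.1)
  have key : ∀ a b : (S : Set ι), ((gto N).induce (S : Set ι)).Reachable a b →
      ∀ (y z : {y : X // (N y).encard = (d + 1 : ℕ)}) (hy : a.1 ∈ N y.1) (hz : b.1 ∈ N z.1),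
      ((gsk d N).induce {y | ∃ x ∈ S, x ∈ N y.1}).Reachable
        ⟨y, a.1, a.2, hy⟩ ⟨z, b.1, b.2, hz⟩ := by
    intro a b hab
    rw [SimpleGraph.reachable_iff_reflTransGen] at hab
    induction hab with
    | refl => exact fun y z hy hz => cell _ a.2 y z hy hz
    | @tail b c _ hbc ih =>
      intro y z hy hz
      obtain ⟨w, h1, h2⟩ := hbc.2
      obtain ⟨u, hu, hs⟩ := h.up w
      exact (ih y ⟨u, hu⟩ hy (hs h1)).trans (cell _ c.2 ⟨u, hu⟩ z (hs h2) hz)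
  obtain ⟨x, hx, w, hw⟩ := hne
  obtain ⟨u, hu, hs⟩ := h.up w
  have : Nonempty {y : {y : X // (N y).encard = (d + 1 : ℕ)} | ∃ x ∈ S, x ∈ N y.1} :=
    ⟨⟨⟨u, hu⟩, x, hx, hs hw⟩⟩
  refine ⟨?_⟩
  rintro ⟨y, a, ha, hy⟩ ⟨z, b, hb, hz⟩
  exact key ⟨a, ha⟩ ⟨b, hb⟩ (hc.preconnected _ _) y z hy hz

end PV2c
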