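import Pool.Agent.P.MP_2c2d1a_pr.SkBlocks
import Pool.Agent.P.MP_2c2d1a_pr.Nbr
import Pool.Agent.P.MP_2c2d1a_pr.Det

/-! The deterministic assembly for the touching graph. -/

open MeasureTheory Filter Topology
open scoped ENNReal unitInterval

namespace PV2c

variable {n : ℕ}

/-- The component of the root inside `F`: connected, with many edges, few vertices and few outer
neighbours. -/
theorem skDet_graph {V : Type} (G : SimpleGraph V) (F : Set V) (f K k : ℕ)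
    (c : Fin k ⊕ Fin k → V) (hc : Function.Injective c) (hF : F.encard ≤ f) (hcF : ∀ w, c w ∈ F)
    (hadj : ∀ i j, G.Adj (c (Sum.inl i)) (c (Sum.inr j)))
    (hdeg : ∀ x ∈ F, (G.neighborSet x \ Set.range c).encard ≤ K) (ρ : V) (hρ : ρ ∈ F)
    (i0 : Fin k)
    (hcl : ∀ S : Set V, ρ ∈ S → (∀ p ∈ F, ∀ q ∈ F, p ∈ S → G.Adj p q → q ∈ S) →
      c (Sum.inl i0) ∈ S) :
    ∃ S : Finset V, ρ ∈ S ∧ c (Sum.inl i0) ∈ S ∧ (G.induce (S : Set V)).Connected ∧
      ((k ^ 2 : ℕ) : ℕ∞) ≤ evol G S ∧ S.card ≤ f ∧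
      ∀ x ∈ S, (G.neighborSet x \ (S : Set V)).encard ≤ K := by
  classical
  have hFfin : F.Finite := Set.finite_of_encard_le_coe hF
  set S0 : Set V := {x | Relation.ReflTransGen (fun p q => G.Adj p q ∧ q ∈ F) ρ x} with hS0
  have hsub : S0 ⊆ F := by
    intro x hx
    induction hx with
    | refl => exact hρ
    | tail _ h _ => exact h.2
  have hfin : S0.Finite := hFfin.subset hsub
  have hρS : ρ ∈ S0 := Relation.ReflTransGen.refl
  have hstep : ∀ p ∈ S0, ∀ q ∈ F, G.Adj p q → q ∈ S0 := fun p hp q hq h =>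
    Relation.ReflTransGen.tail hp ⟨h, hq⟩
  have h0 : c (Sum.inl i0) ∈ S0 := hcl S0 hρS fun p _ q hq hp h => hstep p hp q hq h
  have hr : ∀ j, c (Sum.inr j) ∈ S0 := fun j => hstep _ h0 _ (hcF _) (hadj i0 j)
  have hl : ∀ i, c (Sum.inl i) ∈ S0 := fun i => hstep _ (hr i0) _ (hcF _) (hadj i i0).symm
  have hall : ∀ w, c w ∈ S0 := fun w => by
    cases w with
    | inl i => exact hl i
    | inr j => exact hr j
  refine ⟨hfin.toFinset, hfin.mem_toFinset.2 hρS, hfin.mem_toFinset.2 h0, ?_, ?_, ?_, ?_⟩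
  · rw [hfin.coe_toFinset]
    have hreach : ∀ x (hx : x ∈ S0), (G.induce S0).Reachable ⟨ρ, hρS⟩ ⟨x, hx⟩ := by
      intro x hx
      induction hx with
      | refl => exact SimpleGraph.Reachable.refl _
      | tail h1 h2 ih =>
        refine (ih).trans (SimpleGraph.Adj.reachable ?_)
        exact h2.1
    have : Nonempty S0 := ⟨⟨ρ, hρS⟩⟩
    exact ⟨fun a b => (hreach a.1 a.2).symm.trans (hreach b.1 b.2)⟩
  · have hinj : Function.Injective fun i : Fin k => c (Sum.inl i) :=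
      hc.comp Sum.inl_injective
    have hinj' : Function.Injective fun j : Fin k => c (Sum.inr j) :=
      hc.comp Sum.inr_injective
    have hk : ∀ i, (k : ℕ∞) ≤ (G.neighborSet (c (Sum.inl i))).encard := by
      intro i
      have h1 : (k : ℕ∞) ≤ (Set.range fun j : Fin k => c (Sum.inr j)).encard := by
        simpa using hinj'.encard_range
      refine h1.trans (Set.encard_le_encard ?_)
      rintro _ ⟨j, rfl⟩
      exact hadj i j
    calc ((k ^ 2 : ℕ) : ℕ∞) = ∑ _i : Fin k, (k : ℕ∞) := by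
          simp [sq]
      _ ≤ ∑ i : Fin k, (G.neighborSet (c (Sum.inl i))).encard :=
          Finset.sum_le_sum fun i _ => hk i
      _ = ∑ v ∈ Finset.univ.image fun i : Fin k => c (Sum.inl i), (G.neighborSet v).encard := by
          rw [Finset.sum_image fun a _ b _ h => hinj h]
      _ ≤ evol G hfin.toFinset := by
          refine Finset.sum_le_sum_of_subset ?_
          intro v hv
          obtain ⟨i, -, rfl⟩ := Finset.mem_image.1 hv
          exact hfin.mem_toFinset.2 (hl i)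
  · have hcard : (hfin.toFinset.card : ℕ∞) ≤ f := by
      rw [← hfin.encard_eq_coe_toFinset_card]
      exact (Set.encard_le_encard hsub).trans hF
    exact_mod_cast hcard
  · intro x hx
    refine le_trans (Set.encard_le_encard ?_) (hdeg x (hsub (hfin.mem_toFinset.1 hx)))
    rintro b ⟨hb, hbS⟩
    refine ⟨hb, ?_⟩
    rintro ⟨w, rfl⟩
    exact hbS (Finset.mem_coe.2 (hfin.mem_toFinset.2 (hall w)))

theorem skDet_mem_near {Z : Set (Hyp n)} {x y : Hyp n} :
    x ∈ near Z y ↔ x ∈ Z ∧ ∀ z ∈ Z, coshDist y x ≤ coshDist y z := by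
  rw [← mem_cell_iff]
  rfl

/-- Strict neighbours touch. -/
theorem skDet_adj {Z : Set (Hyp n)} {p q : Hyp n} (hp : p ∈ Z) (hq : q ∈ Z) (hne : p ≠ q)
    (h : Strict Z p q) : (gto (near Z)).Adj p q := by
  obtain ⟨y, hy1, hy2⟩ := h
  have h1 : ∀ z ∈ Z, coshDist y p ≤ coshDist y z := by
    intro z hz
    by_cases e1 : z = p
    · rw [e1]
    by_cases e2 : z = q
    · rw [e2, hy1]
    exact (hy2 z hz e1 e2).le
  refine ⟨hne, y, skDet_mem_near.2 ⟨hp, h1⟩, skDet_mem_near.2 ⟨hq, fun z hz => ?_⟩⟩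
  rw [← hy1]
  exact h1 z hz

theorem skDet_fat_sub {t : Fin n → ℝ} (ht : ∀ l, |t l| ≤ 5) {R0 T : ℝ} (hR : 1 ≤ R0)
    (hT : R0 + 5 ≤ T) : Fat (0 : Fin n → ℝ) 0 R0 ⊆ Fat t 0 T := by
  rintro x ⟨h1, h2, h3⟩
  simp only [pow_zero, mul_one, Pi.zero_apply, sub_zero] at h1 h2 h3
  refine ⟨fun l => ?_, ?_, ?_⟩
  · simp only [pow_zero, mul_one]
    have := abs_sub (x.1.1 l) (t l)
    linarith [h1 l, ht l]
  · simp only [pow_zero]
    refine le_trans ?_ h2
    gcongr
    linarith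
  · simp only [pow_zero, mul_one]
    linarith

theorem sDet : BClu → BDis → BNet → BPath → BConn → SDet := by
  intro hClu hDis hNet hPath hConn n i0 i1 h01 Z t N k T K ρ τ R0 ht hk hτ hτk hnτ
    hρ hR0 hT hG
  obtain ⟨g1, g2, g3, g4⟩ := hG
  set s : ℝ := (1 / 2) ^ N with hs
  have hs0 : 0 < s := by positivity
  set R : ℝ := 1 + (n * (ρ + 1) ^ 2 + 1) / 2 with hR
  set A : ℝ := 4 * R0 + 32 with hA
  set T0 : ℝ := 4 * (n + 1) * A ^ 3 with hT0
  set T1 : ℝ := 4 * R * T0 with hT1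
  have hn0 : (0 : ℝ) ≤ n := Nat.cast_nonneg n
  have hq : 0 ≤ (n : ℝ) * (ρ + 1) ^ 2 := by positivity
  have hR1 : 1 ≤ R := by rw [hR]; linarith
  have hA1 : 32 ≤ A := by rw [hA]; linarith
  have hA3 : A ≤ A ^ 3 := le_self_pow₀ (by linarith) (by norm_num)
  have hAT0 : A ≤ T0 := by rw [hT0]; nlinarith
  have hT01 : T0 ≤ T1 := by rw [hT1]; nlinarith
  have hT1T' : 16 * (R + 2) ^ 2 * T1 ≤ T := by
    refine le_trans ?_ hT
    have e1 : R + 2 ≤ n * (ρ + 1) ^ 2 + 4 := by rw [hR]; linarith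
    have e2 : (R + 2) ^ 2 * R ≤ (n * (ρ + 1) ^ 2 + 4) ^ 3 := by
      calc (R + 2) ^ 2 * R ≤ (R + 2) ^ 2 * (R + 2) := by gcongr; linarith
        _ = (R + 2) ^ 3 := by ring
        _ ≤ _ := by gcongr
    calc 16 * (R + 2) ^ 2 * T1 = 256 * (n + 1) * ((R + 2) ^ 2 * R) * A ^ 3 := by
          rw [hT1, hT0]; ring
      _ ≤ _ := by gcongr
  have hT1T : T1 ≤ T := by
    refine le_trans ?_ hT1T'
    have : 1 ≤ 16 * (R + 2) ^ 2 := by nlinarith
    nlinarith
  have hT11 : 1 ≤ T1 := by linarith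
  have hTn : 1 ≤ T := by
    have : (1 : ℝ) ≤ T := by linarith
    exact_mod_cast this
  obtain ⟨hWB, hWD⟩ := (hDis n i0 i1).1 t s τ k hs0 hτ hk hτk
  -- the cluster points
  have hc : ∀ w, ∃ p, Z ∩ WW i0 i1 t s τ k w = {p} := fun w => Set.encard_eq_one.1 (g1 w)
  choose c hc using hc
  have hcZ : ∀ w, c w ∈ Z ∧ c w ∈ WW i0 i1 t s τ k w := fun w => by
    have : c w ∈ Z ∩ WW i0 i1 t s τ k w := by rw [hc w]; rfl
    exact this
  have hZB : ∀ z ∈ Z, z ∈ BB t s → ∃ w, z = c w := by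
    intro z hz hzB
    by_contra hne
    rw [Set.encard_eq_zero] at g2
    have : z ∈ Z ∩ (BB t s \ ⋃ w, WW i0 i1 t s τ k w) := by
      refine ⟨hz, hzB, ?_⟩
      intro hu
      obtain ⟨w, hw⟩ := Set.mem_iUnion.1 hu
      have : z ∈ Z ∩ WW i0 i1 t s τ k w := ⟨hz, hw⟩
      rw [hc w] at this
      exact hne ⟨w, this⟩
    rw [g2] at this
    exact this
  have hinj : Function.Injective c := by
    intro w w' h
    by_contra hne
    exact Set.disjoint_left.1 (hWD w w' hne) (hcZ w).2 (h ▸ (hcZ w').2)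
  have hstrict := hClu n i0 i1 h01 t s τ k hs0 hτ hk hτk hnτ Z c (fun w => (hcZ w).2) hZB
  have hvac : ∀ j ≤ N, Vac Z (Fat t j T) R :=
    (hNet n N T hTn).2 t ρ Z hρ fun a ha => (g3 a ha).mono fun _ h => ⟨h.1, h.2.1⟩
  have hrc : (Set.range c).encard ≤ ((2 * k : ℕ) : ℕ∞) := by
    rw [← Set.image_univ]
    refine (Set.encard_image_le _ _).trans (le_of_eq ?_)
    rw [Set.encard_univ, ENat.card_eq_coe_fintype_card]
    simp [two_mul]
  have hcnt : ∀ j ≤ N, (Z ∩ (Fat t j T \ BB t s)).encard ≤ K := fun j hj =>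
    (g4 j (Finset.mem_range.2 (Nat.lt_succ_of_le hj))).le
  have hfin : ∀ j ≤ N, (Z ∩ Fat t j T).Finite := by
    intro j hj
    have h1 : (Z ∩ (Fat t j T \ BB t s)).Finite := Set.finite_of_encard_le_coe (hcnt j hj)
    refine (h1.union (Set.finite_range c)).subset fun z hz => ?_
    by_cases hb : z ∈ BB t s
    · obtain ⟨w, rfl⟩ := hZB z hz.1 hb
      exact Or.inr ⟨w, rfl⟩
    · exact Or.inl ⟨hz.1, hz.2, hb⟩
  set F0 : Set (Hyp n) := {y | y ∈ Z ∧ ∃ j ≤ N, y ∈ Fat t j T1} with hF0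
  have hF0card : F0.encard ≤ (((N + 1) * K + 2 * k : ℕ) : ℕ∞) := by
    have h1 : F0 ⊆ (⋃ j ∈ Finset.range (N + 1), Z ∩ (Fat t j T \ BB t s)) ∪ Set.range c := by
      rintro z ⟨hz, j, hj, hzj⟩
      by_cases hb : z ∈ BB t s
      · obtain ⟨w, rfl⟩ := hZB z hz hb
        exact Or.inr ⟨w, rfl⟩
      · refine Or.inl (Set.mem_biUnion (Finset.mem_coe.2 (Finset.mem_range.2
          (Nat.lt_succ_of_le hj))) ⟨hz, fat_mono (by linarith) hT1T hzj, hb⟩)
    refine (Set.encard_le_encard h1).trans ((Set.encard_union_le _ _).trans ?_)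
    have h2 := det_encard_biUnion (Finset.range (N + 1)) (fun j => Z ∩ (Fat t j T \ BB t s)) K
      fun j hj => hcnt j (Nat.lt_succ_iff.1 (Finset.mem_range.1 hj))
    rw [Finset.card_range] at h2
    refine (add_le_add h2 hrc).trans (le_of_eq ?_)
    push_cast
    ring
  have hF0fin : F0.Finite := Set.finite_of_encard_le_coe hF0card
  have hcF : ∀ w, c w ∈ F0 := fun w => ⟨(hcZ w).1, N, le_rfl,
    fat_mono (by norm_num) (by linarith) (det_bb_sub t N (hWB w (hcZ w).2))⟩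
  let k0 : Fin k := ⟨0, hk⟩
  refine ⟨⟨c (Sum.inl k0), ⟨c (Sum.inl k0), skDet_mem_near.2 ⟨(hcZ _).1, fun z _ => ?_⟩⟩,
    fun ρ0 hρ1 hρ0 => ?_⟩, ⟨c (Sum.inl k0), (hcZ _).1⟩, ?_, fun x _ hx0 => ?_⟩
  · rw [coshDist_self]
    exact one_le_coshDist _ _
  · obtain ⟨w0, hw0⟩ := hρ1
    have hρZ : ρ0 ∈ Z := hw0.1
    have hroot : ρ0 ∈ Fat t 0 A := det_root ht hR0 hρ0
    have hρF : ρ0 ∈ F0 := ⟨hρZ, 0, Nat.zero_le _, fat_mono (by linarith) (by linarith) hroot⟩
    refine skDet_graph (gto (near Z)) F0 ((N + 1) * K + 2 * k) K k c hinj hF0card hcF ?_ ?_ ρ0 hρF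
      k0 ?_
    · intro i j
      refine skDet_adj (hcZ _).1 (hcZ _).1 (fun h => ?_) (hstrict i j)
      have := hinj h
      simp at this
    · rintro x ⟨hx, j, hj, hxj⟩
      refine le_trans (Set.encard_le_encard ?_) (hcnt j hj)
      rintro v ⟨⟨-, w, hw1, hw2⟩, hvc⟩
      obtain ⟨-, a1⟩ := skDet_mem_near.1 hw1
      obtain ⟨hv, a2⟩ := skDet_mem_near.1 hw2
      have a3 := nbr_near hT11 hR1 hT1T' (hvac j hj) hxj a1
      have a4 := a2 x hx
      refine ⟨hv, nbr_two hT11 hR1 hT1T' hxj (y := w) (by linarith) (by linarith), fun hb => ?_⟩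
      obtain ⟨w', hw'⟩ := hZB v hv hb
      exact hvc ⟨w', hw'.symm⟩
    · intro S hρS hS
      have hO : {y | coshDist (c (Sum.inl k0)) y < 2} ∈ 𝓝 (c (Sum.inl k0)) := by
        refine (isOpen_lt (continuous_coshDist_right _) continuous_const).mem_nhds ?_
        simp [coshDist_self]
      refine hConn n Z F0 hF0fin (fun _ h => h.1) ρ0 hρF (c (Sum.inl k0)) (hcF _) _ R hO
        ?_ S hρS ?_
      · intro y hy θ
        have hy1 : y ∈ Fat t N (4 * 2 * 4) :=
          fat_closure (by norm_num) (det_bb_sub t N (hWB _ (hcZ _).2)) (le_of_lt hy)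
        have hy2 : y ∈ Fat t N A := fat_mono (by norm_num) (by linarith) hy1
        obtain ⟨j, hj, hgeo⟩ := hPath n N t A (by linarith) ρ0 hroot y hy2 θ
        refine ⟨hvac j hj _ (fat_mono (by linarith) (by linarith) hgeo), fun w hw hwR => ?_⟩
        exact ⟨hw, j, hj, fat_closure (by linarith) hgeo hwR⟩
      · intro p hp q hq hpS hne hpq
        exact hS p hp q hq hpS (skDet_adj hp.1 hq.1 hne hpq)
  · refine (hfin 0 (Nat.zero_le _)).subset (Set.inter_subset_inter_right _ ?_)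
    exact skDet_fat_sub ht hR0 (by linarith)
  · have hroot : x ∈ Fat t 0 T1 :=
      fat_mono (by linarith) (by linarith) (det_root ht hR0 hx0 : x ∈ Fat t 0 A)
    exact ⟨R + 1, fun y hy => nbr_near hT11 hR1 hT1T' (hvac 0 (Nat.zero_le _)) hroot
      ((mem_cell_iff Z x y).1 hy)⟩

end PV2c
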