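import Pool.Agent.P.MP_2c2d1a_pr.Defs

/-! The 1-skeleton of the Voronoi tessellation: vertices and edges of the cells. -/

namespace PV2c

variable {n : ℕ}

/-- The geodesic segment from `y` to `y'`. -/
def seg (y y' : Hyp n) : Set (Hyp n) := {w | hdist y w + hdist y' w = hdist y y'}

/-- `F` is an intersection of Voronoi cells. -/
def IsFace (Z F : Set (Hyp n)) : Prop := ∃ A ⊆ Z, F = ⋂ x ∈ A, cell Z x

theorem seg_comm (y y' : Hyp n) : seg y y' = seg y' y := by
  have e : hdist y y' = hdist y' y := by
    unfold hdist coshDist
    congr 3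
    · congr 1
      · exact Finset.sum_congr rfl fun l _ => by ring
      · ring
    · ring
  ext w
  simp only [seg, Set.mem_ofPred_eq, e, add_comm]

/-- The 1-skeleton of the tessellation: its vertices are the points that are intersections of
cells, and two vertices are joined when the geodesic segment between them is an intersection
of cells. -/
def skeleton (Z : Set (Hyp n)) : SimpleGraph {y : Hyp n // IsFace Z {y}} where
  Adj y y' := y ≠ y' ∧ IsFace Z (seg y.1 y'.1)
  symm := ⟨fun _ _ h => ⟨h.1.symm, seg_comm _ _ ▸ h.2⟩⟩
  loopless := ⟨fun _ h => h.1 rfl⟩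

end PV2c
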