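import Pool.Agent.P.MP_2c2d1a_pr.SkBlocks
import Pool.Agent.P.MP_2c2d1a_pr.SkFace
import Pool.Agent.P.MP_2c2d1a_pr.Geo

/-! Geodesic segments are straight segments in the chart. -/

namespace PV2c

variable {n : ℕ}

theorem seg_real1 {a b A B C : ℝ} (ha : 0 ≤ a) (hb : 0 ≤ b) (hA : 1 ≤ A) (hB : 1 ≤ B)
    (hC : 1 ≤ C) (e1 : A = a + b * C) (e2 : B = a * C + b) (e3 : 1 = a * A + b * B) :
    Real.arcosh A + Real.arcosh B = Real.arcosh C := by
  have hS : 0 ≤ C ^ 2 - 1 := by nlinarith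
  have f1 : A ^ 2 - 1 = (b * Real.sqrt (C ^ 2 - 1)) ^ 2 := by
    rw [mul_pow, Real.sq_sqrt hS]
    rw [e1, e2] at e3
    rw [e1]
    linear_combination (-1 : ℝ) * e3
  have f2 : B ^ 2 - 1 = (a * Real.sqrt (C ^ 2 - 1)) ^ 2 := by
    rw [mul_pow, Real.sq_sqrt hS]
    rw [e1, e2] at e3
    rw [e2]
    linear_combination (-1 : ℝ) * e3
  have f3 : Real.cosh (Real.arcosh A + Real.arcosh B) = C := by
    rw [Real.cosh_add, Real.cosh_arcosh hA, Real.cosh_arcosh hB, Real.sinh_arcosh hA,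
      Real.sinh_arcosh hB, f1, f2, Real.sqrt_sq (by positivity), Real.sqrt_sq (by positivity)]
    have f4 := Real.mul_self_sqrt hS
    rw [e1, e2] at e3
    rw [e1, e2]
    linear_combination (a * b) * f4 - C * e3
  rw [← f3, Real.arcosh_cosh (add_nonneg (Real.arcosh_nonneg hA) (Real.arcosh_nonneg hB))]

theorem seg_real2 {A B C : ℝ} (hA : 1 ≤ A) (hB : 1 ≤ B) (hC : 1 ≤ C)
    (e : Real.arcosh A + Real.arcosh B = Real.arcosh C) :
    ∃ a b : ℝ, 0 ≤ a ∧ 0 ≤ b ∧ A = a + b * C ∧ B = a * C + b ∧ 1 = a * A + b * B := by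
  have hs := Real.arcosh_nonneg hA
  have ht := Real.arcosh_nonneg hB
  have eA := Real.cosh_arcosh hA
  have eB := Real.cosh_arcosh hB
  have eC := Real.cosh_arcosh hC
  rw [← e] at eC
  set s := Real.arcosh A
  set t := Real.arcosh B
  rcases (add_nonneg hs ht).eq_or_lt with h0 | h0
  · have s0 : s = 0 := by linarith
    have t0 : t = 0 := by linarith
    rw [s0, Real.cosh_zero] at eA
    rw [t0, Real.cosh_zero] at eB
    rw [← h0, Real.cosh_zero] at eC
    exact ⟨1, 0, zero_le_one, le_rfl, by linarith, by linarith, by linarith⟩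
  have hS : 0 < Real.sinh (s + t) := Real.sinh_pos_iff.2 h0
  have c1 := Real.cosh_sq s
  have c2 := Real.cosh_sq t
  refine ⟨Real.sinh t / Real.sinh (s + t), Real.sinh s / Real.sinh (s + t),
    div_nonneg (Real.sinh_nonneg_iff.2 ht) hS.le, div_nonneg (Real.sinh_nonneg_iff.2 hs) hS.le,
    ?_, ?_, ?_⟩
  · rw [← eA, ← eC]
    field_simp
    rw [Real.sinh_add, Real.cosh_add]
    linear_combination Real.sinh t * c1
  · rw [← eB, ← eC]
    field_simp
    rw [Real.sinh_add, Real.cosh_add]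
    linear_combination Real.sinh s * c2
  · rw [← eA, ← eB]
    field_simp
    rw [Real.sinh_add]
    ring

theorem seg_cosh (y x : Hyp n) : 2 * x.1.2 * (y.1.2 * coshDist y x) =
    (psi y).2 + (psi x).2 - 2 * ∑ l, y.1.1 l * x.1.1 l := by
  have h2 := x.2.ne'
  have e : ∑ l, (y.1.1 l - x.1.1 l) ^ 2 =
      ∑ l, y.1.1 l ^ 2 + ∑ l, x.1.1 l ^ 2 - 2 * ∑ l, y.1.1 l * x.1.1 l := by
    rw [Finset.mul_sum, ← Finset.sum_add_distrib, ← Finset.sum_sub_distrib]
    exact Finset.sum_congr rfl fun l _ => by ring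
  rw [height_mul_coshDist, e]
  simp only [psi]
  field_simp
  ring

theorem seg_iff (y y' w : Hyp n) : w ∈ seg y y' ↔
    ∃ θ : ℝ, 0 ≤ θ ∧ θ ≤ 1 ∧ psi w = psi y + θ • (psi y' - psi y) := by
  have hw := w.2
  have hy := y.2
  have hy' := y'.2
  constructor
  · intro h
    obtain ⟨a, b, ha, hb, e1, e2, e3⟩ := seg_real2 (one_le_coshDist y w) (one_le_coshDist y' w)
      (one_le_coshDist y y') h
    set a1 : ℝ := a * w.1.2 / y.1.2 with ha1
    set a2 : ℝ := b * w.1.2 / y'.1.2 with ha2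
    set u : Fin n → ℝ := fun l => w.1.1 l - a1 * y.1.1 l - a2 * y'.1.1 l with hu
    set α : ℝ := 1 - a1 - a2 with hα
    set ω : ℝ := (psi w).2 - a1 * (psi y).2 - a2 * (psi y').2 with hω
    have key : ∀ x : Hyp n, coshDist w x = a * coshDist y x + b * coshDist y' x →
        α * (psi x).2 + ω - 2 * ∑ l, u l * x.1.1 l = 0 := by
      intro x hx
      have s1 : ∑ l, u l * x.1.1 l = ∑ l, w.1.1 l * x.1.1 l - a1 * ∑ l, y.1.1 l * x.1.1 l -
          a2 * ∑ l, y'.1.1 l * x.1.1 l := by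
        rw [Finset.mul_sum, Finset.mul_sum, ← Finset.sum_sub_distrib, ← Finset.sum_sub_distrib]
        exact Finset.sum_congr rfl fun l _ => by simp only [hu]; ring
      have g0 := seg_cosh w x
      have g1 := seg_cosh y x
      have g2 := seg_cosh y' x
      have g3 : a1 * y.1.2 = a * w.1.2 := by rw [ha1]; field_simp
      have g4 : a2 * y'.1.2 = b * w.1.2 := by rw [ha2]; field_simp
      rw [s1, hα, hω]
      linear_combination (-1 : ℝ) * g0 + a1 * g1 + a2 * g2 + 2 * x.1.2 * w.1.2 * hx -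
        2 * x.1.2 * coshDist y x * g3 - 2 * x.1.2 * coshDist y' x * g4
    have k0 := key w (by rw [coshDist_self]; exact e3)
    have k1 := key y (by rw [coshDist_self, coshDist_comm w y, coshDist_comm y' y, e1]; ring)
    have k2 := key y' (by rw [coshDist_self, coshDist_comm w y', e2]; ring)
    have s2 : ∑ l, (u l - α * y.1.1 l) ^ 2 = ∑ l, u l * w.1.1 l - a1 * ∑ l, u l * y.1.1 l -
        a2 * ∑ l, u l * y'.1.1 l - 2 * α * ∑ l, u l * y.1.1 l + α ^ 2 * ∑ l, y.1.1 l ^ 2 := by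
      rw [Finset.mul_sum, Finset.mul_sum, Finset.mul_sum, Finset.mul_sum,
        ← Finset.sum_sub_distrib, ← Finset.sum_sub_distrib, ← Finset.sum_sub_distrib,
        ← Finset.sum_add_distrib]
      exact Finset.sum_congr rfl fun l _ => by simp only [hu]; ring
    have py : (psi y).2 = ∑ l, y.1.1 l ^ 2 + y.1.2 ^ 2 := rfl
    have s3 : ∑ l, (u l - α * y.1.1 l) ^ 2 + (α * y.1.2) ^ 2 = 0 := by
      rw [s2]
      linear_combination (-1 / 2 : ℝ) * k0 + (a1 / 2) * k1 + (a2 / 2) * k2 + α * k1 -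
        α ^ 2 * py - (α / 2) * hω - (ω / 2) * hα
    have s4 : 0 ≤ ∑ l, (u l - α * y.1.1 l) ^ 2 := Finset.sum_nonneg fun _ _ => sq_nonneg _
    have s5 := sq_nonneg (α * y.1.2)
    have hα0 : α = 0 := by
      have : (α * y.1.2) ^ 2 = 0 := by linarith
      exact (mul_eq_zero.1 (pow_eq_zero_iff two_ne_zero |>.1 this)).resolve_right hy.ne'
    have hu0 : ∀ l, u l = 0 := fun l => by
      have h1 : ∑ l, (u l - α * y.1.1 l) ^ 2 = 0 := by linarith
      have h2 := (Finset.sum_eq_zero_iff_of_nonneg fun _ _ => sq_nonneg _).1 h1 l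
        (Finset.mem_univ l)
      rw [hα0, zero_mul, sub_zero] at h2
      exact pow_eq_zero_iff two_ne_zero |>.1 h2
    have hω0 : ω = 0 := by
      rw [hα0] at k1
      simpa [hu0] using k1
    have p1 : 0 ≤ a1 := by positivity
    have p2 : 0 ≤ a2 := by positivity
    have p3 : a1 = 1 - a2 := by linarith
    refine ⟨a2, p2, by linarith, Prod.ext (funext fun l => ?_) ?_⟩
    · have := hu0 l
      simp only [hu] at this
      show w.1.1 l = y.1.1 l + a2 * (y'.1.1 l - y.1.1 l)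
      rw [p3] at this
      linarith
    · show (psi w).2 = (psi y).2 + a2 * ((psi y').2 - (psi y).2)
      rw [hω, p3] at hω0
      linarith
  · rintro ⟨θ, h0, h1, e⟩
    have e1 : ∀ l, w.1.1 l = y.1.1 l + θ * (y'.1.1 l - y.1.1 l) := fun l =>
      congrFun (congrArg Prod.fst e) l
    have e2 : (psi w).2 = (psi y).2 + θ * ((psi y').2 - (psi y).2) := congrArg Prod.snd e
    have h2 : 0 ≤ 1 - θ := by linarith
    have key : ∀ x : Hyp n, coshDist w x = (1 - θ) * y.1.2 / w.1.2 * coshDist y x +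
        θ * y'.1.2 / w.1.2 * coshDist y' x := by
      intro x
      have s1 : ∑ l, w.1.1 l * x.1.1 l = (1 - θ) * ∑ l, y.1.1 l * x.1.1 l +
          θ * ∑ l, y'.1.1 l * x.1.1 l := by
        rw [Finset.mul_sum, Finset.mul_sum, ← Finset.sum_add_distrib]
        exact Finset.sum_congr rfl fun l _ => by rw [e1]; ring
      have g0 := seg_cosh w x
      have g1 := seg_cosh y x
      have g2 := seg_cosh y' x
      have g3 : 2 * x.1.2 * (w.1.2 * coshDist w x) = 2 * x.1.2 *
          ((1 - θ) * y.1.2 * coshDist y x + θ * y'.1.2 * coshDist y' x) := by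
        linear_combination g0 - (1 - θ) * g1 - θ * g2 + e2 - 2 * s1
      have g4 := mul_left_cancel₀ (mul_pos two_pos x.2).ne' g3
      field_simp
      linear_combination g4
    refine seg_real1 (a := (1 - θ) * y.1.2 / w.1.2) (b := θ * y'.1.2 / w.1.2) (by positivity)
      (by positivity) (one_le_coshDist y w) (one_le_coshDist y' w) (one_le_coshDist y y') ?_ ?_ ?_
    · rw [coshDist_comm y w, key y, coshDist_self, coshDist_comm y' y, mul_one]
    · rw [coshDist_comm y' w, key y', coshDist_self, mul_one]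
    · rw [← key w, coshDist_self]

end PV2c
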