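import Pool.Agent.P.MP_2c2d1a_pr.SkPoly
import Pool.Agent.P.MP_2c2d1a_pr.SkSeg

/-! The geometric skeleton is the combinatorial skeleton. -/

namespace PV2c

section

variable {X ι E : Type} [AddCommGroup E] [Module ℝ E] {ψ : X → E} {L : ι → E →ₗ[ℝ] ℝ}
  {c : ι → ℝ} {Z : Set ι} {N : X → Set ι} {d : ℕ}

theorem edge_conv (h : Arr ψ L c Z N) {y y' w : X} {θ : ℝ} (h0 : 0 ≤ θ) (h1 : θ ≤ 1)
    (e : ψ w = ψ y + θ • (ψ y' - ψ y)) : N y ∩ N y' ⊆ N w := by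
  intro x hx
  refine (h.mem w x).2 ⟨poly_Z h hx.1, fun z hz => ?_⟩
  have f1 := mul_le_mul_of_nonneg_left (poly_le h hx.1 hz) (sub_nonneg.2 h1)
  have f2 := mul_le_mul_of_nonneg_left (poly_le h hx.2 hz) h0
  rw [e, map_add, map_add, map_smul, map_smul, map_sub, map_sub, smul_eq_mul, smul_eq_mul]
  linarith

variable [FiniteDimensional ℝ E]

theorem edge_one (hd1 : 1 ≤ d) (hd : Module.finrank ℝ E = d) (h : Arr ψ L c Z N) {y y' : X}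
    (hy : (N y).encard = (d + 1 : ℕ)) (hy' : (N y').encard = (d + 1 : ℕ)) (hne : y' ≠ y)
    (hc : (N y ∩ N y').encard = (d : ℕ)) {w : X} (hw : N y ∩ N y' ⊆ N w) :
    ∃ θ : ℝ, 0 ≤ θ ∧ θ ≤ 1 ∧ ψ w = ψ y + θ • (ψ y' - ψ y) := by
  obtain ⟨x0, hx0, hx0'⟩ := Set.not_subset.1 fun hs => hne (poly_ext hd h hy hs)
  have e : N y ∩ N y' = N y \ {x0} := by
    refine ((poly_fin h y).subset Set.inter_subset_left).eq_of_subset_of_encard_le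
      (fun x hx => ⟨hx.1, fun e => hx0' (Set.mem_singleton_iff.1 e ▸ hx.2)⟩) ?_
    rw [poly_diff hy hx0, hc]
  obtain ⟨v0, c0, hv⟩ := poly_dir h y x0
  obtain ⟨t, w0, ht, hw0, -, -, -, h4, h5⟩ := poly_flip hd1 hd h hy hx0 (hv hx0).1 (hv hx0).2
  have e1 : y' = w0 := h4 y' hy' hne (e ▸ Set.inter_subset_right)
  obtain ⟨s, hs0, hst, hs⟩ := h5 w (e ▸ hw)
  refine ⟨s / t, div_nonneg hs0 ht.le, (div_le_one ht).2 hst, ?_⟩
  rw [hs, e1, hw0, add_sub_cancel_left, smul_smul, div_mul_cancel₀ _ ht.ne']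

theorem edge_two (hd1 : 1 ≤ d) (hd : Module.finrank ℝ E = d) (h : Arr ψ L c Z N) {y y' : X}
    (hy : (N y).encard = (d + 1 : ℕ)) (hne : y' ≠ y)
    (H : ∀ w, N y ∩ N y' ⊆ N w → ∃ θ : ℝ, 0 ≤ θ ∧ ψ w = ψ y + θ • (ψ y' - ψ y)) :
    (N y ∩ N y').encard = (d : ℕ) := by
  obtain ⟨x0, hx0, hx0'⟩ := Set.not_subset.1 fun hs => hne (poly_ext hd h hy hs)
  have hs0 : N y ∩ N y' ⊆ N y \ {x0} := fun x hx =>
    ⟨hx.1, fun e => hx0' (Set.mem_singleton_iff.1 e ▸ hx.2)⟩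
  rw [← poly_diff hy hx0]
  congr 1
  refine Set.Subset.antisymm hs0 fun x1 hx1 => ?_
  by_contra hx1'
  have hs1 : N y ∩ N y' ⊆ N y \ {x1} := fun x hx =>
    ⟨hx.1, fun e => hx1' (Set.mem_singleton_iff.1 e ▸ hx)⟩
  have h10 : x1 ≠ x0 := hx1.2
  obtain ⟨v0, c0, hv0⟩ := poly_dir h y x0
  obtain ⟨v1, c1, hv1⟩ := poly_dir h y x1
  obtain ⟨t0, w0, ht0, hw0, -, -, a0, -⟩ := poly_flip hd1 hd h hy hx0 (hv0 hx0).1 (hv0 hx0).2
  obtain ⟨t1, w1, ht1, hw1, -, -, a1, -⟩ :=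
    poly_flip hd1 hd h hy hx1.1 (hv1 hx1.1).1 (hv1 hx1.1).2
  obtain ⟨θ0, p0, e0⟩ := H w0 (hs0.trans a0)
  obtain ⟨θ1, p1, e1⟩ := H w1 (hs1.trans a1)
  rw [hw0, add_right_inj] at e0
  rw [hw1, add_right_inj] at e1
  have f1 := congrArg (L x0) e0
  have f2 := congrArg (L x1) e0
  have f3 := congrArg (L x0) e1
  have f4 := congrArg (L x1) e1
  rw [map_smul, map_smul, smul_eq_mul, smul_eq_mul] at f1 f2 f3 f4
  rw [(hv0 hx0).2] at f1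
  rw [(hv0 hx0).1 x1 hx1.1 h10] at f2
  rw [(hv1 hx1.1).1 x0 hx0 h10.symm] at f3
  rw [(hv1 hx1.1).2] at f4
  rcases le_total (L x0 (ψ y' - ψ y)) (L x1 (ψ y' - ψ y)) with g | g
  · linarith [mul_le_mul_of_nonneg_left g p0]
  · linarith [mul_le_mul_of_nonneg_left g p1]

end

variable {n : ℕ} {Z : Set (Hyp n)}

theorem edge_mem {A : Set (Hyp n)} (hA : A ⊆ Z) (w : Hyp n) :
    w ∈ ⋂ x ∈ A, cell Z x ↔ A ⊆ near Z w := by
  rw [Set.mem_iInter₂]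
  exact ⟨fun h x hx => ⟨hA hx, h x hx⟩, fun h x hx => (h hx).2⟩

theorem edge_dim : Module.finrank ℝ ((Fin n → ℝ) × ℝ) = n + 1 := by simp

theorem edge_vtx (h : Arr psi LL cc Z (near Z)) (y : Hyp n) :
    IsFace Z {y} ↔ (near Z y).encard = (n + 2 : ℕ) := by
  constructor
  · rintro ⟨A, hA, e⟩
    obtain ⟨y', hy', hs⟩ := poly_up edge_dim h y
    have h1 : A ⊆ near Z y := (edge_mem hA y).1 (e ▸ Set.mem_singleton y)
    have h2 : y' ∈ ({y} : Set (Hyp n)) := e ▸ (edge_mem hA y').2 (h1.trans hs)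
    rw [← Set.mem_singleton_iff.1 h2]
    exact hy'
  · intro hy
    have hA : near Z y ⊆ Z := fun _ hx => hx.1
    refine ⟨near Z y, hA, Set.ext fun w => ?_⟩
    rw [edge_mem hA, Set.mem_singleton_iff]
    exact ⟨fun e => e ▸ subset_rfl, poly_ext edge_dim h hy⟩

theorem edge_adj (h : Arr psi LL cc Z (near Z)) {y y' : Hyp n}
    (hy : (near Z y).encard = (n + 2 : ℕ)) (hy' : (near Z y').encard = (n + 2 : ℕ))
    (hne : y' ≠ y) : IsFace Z (seg y y') ↔ (near Z y ∩ near Z y').encard = (n + 1 : ℕ) := by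
  constructor
  · rintro ⟨A, hA, e⟩
    have h1 : A ⊆ near Z y :=
      (edge_mem hA y).1 (e ▸ (seg_iff y y' y).2 ⟨0, le_rfl, zero_le_one, by simp⟩)
    have h2 : A ⊆ near Z y' :=
      (edge_mem hA y').1 (e ▸ (seg_iff y y' y').2 ⟨1, zero_le_one, le_rfl, by simp⟩)
    refine edge_two (by omega) edge_dim h hy hne fun w hw => ?_
    have h3 : w ∈ seg y y' := e ▸ (edge_mem hA w).2 ((Set.subset_inter h1 h2).trans hw)
    obtain ⟨θ, a, -, b⟩ := (seg_iff y y' w).1 h3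
    exact ⟨θ, a, b⟩
  · intro hc
    have hA : near Z y ∩ near Z y' ⊆ Z := fun _ hx => hx.1.1
    refine ⟨near Z y ∩ near Z y', hA, Set.ext fun w => ?_⟩
    rw [edge_mem hA, seg_iff]
    exact ⟨fun ⟨θ, a, b, e⟩ => edge_conv h a b e, edge_one (by omega) edge_dim h hy hy' hne hc⟩

theorem edge_transfer {X : Type} {p q : X → Prop} (hpq : p = q) (G : SimpleGraph {y // p y})
    (H : SimpleGraph {y // q y})
    (hGH : ∀ a b ha hb ha' hb', G.Adj ⟨a, ha⟩ ⟨b, hb⟩ ↔ H.Adj ⟨a, ha'⟩ ⟨b, hb'⟩)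
    (Q : ∀ V : Type, SimpleGraph V → Prop) (hQ : Q _ H) : Q _ G := by
  subst hpq
  have e : G = H := by
    ext ⟨a, ha⟩ ⟨b, hb⟩
    exact hGH a b ha hb ha hb
  rw [e]
  exact hQ

theorem edge_skel (h : Arr psi LL cc Z (near Z)) (Q : ∀ V : Type, SimpleGraph V → Prop)
    (hQ : Q _ (skel Z)) : Q _ (skeleton Z) := by
  refine edge_transfer (funext fun y => propext (edge_vtx h y)) _ _
    (fun a b ha hb ha' hb' => ?_) Q hQ
  have e1 : ((⟨a, ha⟩ : {y // IsFace Z {y}}) ≠ ⟨b, hb⟩) ↔ b ≠ a := by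
    rw [Ne, Subtype.mk.injEq, eq_comm]
  have e2 : ((⟨a, ha'⟩ : {y // (near Z y).encard = (n + 2 : ℕ)}) ≠ ⟨b, hb'⟩) ↔ b ≠ a := by
    rw [Ne, Subtype.mk.injEq, eq_comm]
  exact ⟨fun g => ⟨e2.2 (e1.1 g.1), (edge_adj h ha' hb' (e1.1 g.1)).1 g.2⟩,
    fun g => ⟨e1.2 (e2.1 g.1), (edge_adj h ha' hb' (e2.1 g.1)).2 g.2⟩⟩

end PV2c
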