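import Pool.Agent.P.MP_2c2d1a_pr.SkBlocks
import Pool.Agent.P.MP_2c2d1a_pr.Geo

/-! The chart, and the solvability of the linear systems at a point. -/

namespace PV2c

variable {n : ℕ}

theorem skIn1_chart (y x : Hyp n) : LL x (psi y) + cc x = y.1.2 * coshDist y x := by
  rw [height_mul_coshDist]
  have h : ∑ l, (y.1.1 l - x.1.1 l) ^ 2 =
      ∑ l, y.1.1 l ^ 2 - 2 * ∑ l, y.1.1 l * x.1.1 l + ∑ l, x.1.1 l ^ 2 := by
    rw [Finset.mul_sum, ← Finset.sum_sub_distrib, ← Finset.sum_add_distrib]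
    exact Finset.sum_congr rfl fun l _ => by ring
  rw [h]
  change (∑ l, y.1.1 l ^ 2 + y.1.2 ^ 2 - 2 * ∑ l, y.1.1 l * x.1.1 l) / (2 * x.1.2) +
    (∑ l, x.1.1 l ^ 2 + x.1.2 ^ 2) / (2 * x.1.2) = _
  ring

theorem skIn1_inj : Function.Injective (psi : Hyp n → _) := by
  intro y w h
  have h1 : y.1.1 = w.1.1 := (Prod.ext_iff.1 h).1
  have h2 : ∑ l, y.1.1 l ^ 2 + y.1.2 ^ 2 = ∑ l, w.1.1 l ^ 2 + w.1.2 ^ 2 := congrArg Prod.snd h
  rw [h1, add_right_inj] at h2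
  exact Subtype.ext (Prod.ext h1 ((pow_left_inj₀ y.2.le w.2.le two_ne_zero).1 h2))

theorem skIn1_mem (Z : Set (Hyp n)) (y x : Hyp n) :
    x ∈ near Z y ↔ x ∈ Z ∧ ∀ x' ∈ Z, LL x (psi y) + cc x ≤ LL x' (psi y) + cc x' := by
  change x ∈ Z ∧ y ∈ cell Z x ↔ _
  rw [mem_cell_iff]
  simp only [skIn1_chart, mul_le_mul_iff_right₀ y.2]

theorem skIn1_rad (Z : Set (Hyp n)) (y : Hyp n) : ∃ r : ℝ, ∀ x ∈ near Z y, coshDist y x = r := by
  rcases (near Z y).eq_empty_or_nonempty with h | ⟨x0, h0⟩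
  · exact ⟨0, fun x hx => by rw [h] at hx; exact hx.elim⟩
  · exact ⟨coshDist y x0, fun x hx => le_antisymm ((mem_cell_iff _ _ _).1 hx.2 x0 h0.1)
      ((mem_cell_iff _ _ _).1 h0.2 x hx.1)⟩

/-- The linear map that restores the last coordinate of the lift on a sphere. -/
noncomputable def skIn1T (y : Hyp n) (r : ℝ) :
    (((Fin n → ℝ) × ℝ) × ℝ) →ₗ[ℝ] (((Fin n → ℝ) × ℝ) × (ℝ × ℝ)) where
  toFun w := (w.1, (w.2, 2 * ∑ l, y.1.1 l * w.1.1 l + 2 * r * y.1.2 * w.1.2 -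
    (∑ l, y.1.1 l ^ 2 + y.1.2 ^ 2) * w.2))
  map_add' v w := by
    refine Prod.ext rfl (Prod.ext rfl ?_)
    simp only [Prod.snd_add, Prod.fst_add, Pi.add_apply, mul_add, Finset.sum_add_distrib]
    ring
  map_smul' a v := by
    refine Prod.ext rfl (Prod.ext rfl ?_)
    simp only [Prod.smul_snd, Prod.smul_fst, Pi.smul_apply, smul_eq_mul, RingHom.id_apply,
      mul_left_comm _ a, ← Finset.mul_sum]
    ring

theorem skIn1_lft {y x : Hyp n} {r : ℝ} (h : coshDist y x = r) :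
    skIn1T y r (x.1, 1) = lft x := by
  refine Prod.ext rfl (Prod.ext rfl ?_)
  have h1 := skIn1_chart y x
  rw [h] at h1
  have h2 : (∑ l, y.1.1 l ^ 2 + y.1.2 ^ 2 - 2 * ∑ l, y.1.1 l * x.1.1 l) / (2 * x.1.2) +
      (∑ l, x.1.1 l ^ 2 + x.1.2 ^ 2) / (2 * x.1.2) = y.1.2 * r := h1
  have h3 : (2 * x.1.2) ≠ 0 := (mul_pos two_pos x.2).ne'
  rw [← add_div, div_eq_iff h3] at h2
  change 2 * ∑ l, y.1.1 l * x.1.1 l + 2 * r * y.1.2 * x.1.2 -
    (∑ l, y.1.1 l ^ 2 + y.1.2 ^ 2) * 1 = ∑ l, x.1.1 l ^ 2 + x.1.2 ^ 2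
  linarith

theorem skIn1_ind {Z : Set (Hyp n)} (hZ : GP Z) (y : Hyp n) {m : ℕ} (hm : m ≤ n + 3)
    (x : Fin m → Hyp n) (hx : Function.Injective x) (hN : ∀ i, x i ∈ near Z y) :
    LinearIndependent ℝ fun i => (((x i).1, 1) : ((Fin n → ℝ) × ℝ) × ℝ) := by
  obtain ⟨r, hr⟩ := skIn1_rad Z y
  refine LinearIndependent.of_comp (skIn1T y r) ?_
  have h := hZ m hm x hx fun i => (hN i).1
  have e : (skIn1T y r ∘ fun i => (((x i).1, 1) : ((Fin n → ℝ) × ℝ) × ℝ)) = fun i => lft (x i) :=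
    funext fun i => skIn1_lft (hr _ (hN i))
  rw [e]
  exact h

theorem skIn1_none {Z : Set (Hyp n)} (hZ : GP Z) (y : Hyp n) (x : Fin (n + 3) → Hyp n)
    (hx : Function.Injective x) (hN : ∀ i, x i ∈ near Z y) : False := by
  have h := (skIn1_ind hZ y le_rfl x hx hN).fintype_card_le_finrank
  simp only [Fintype.card_fin, Module.finrank_prod, Module.finrank_fintype_fun_eq_card,
    Module.finrank_self] at h
  omega

theorem skIn1_enum {Z : Set (Hyp n)} (hZ : GP Z) (y : Hyp n) :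
    ∃ (m : ℕ) (x : Fin m → Hyp n), m ≤ n + 3 ∧ Function.Injective x ∧
      (∀ i, x i ∈ near Z y) ∧ ∀ z ∈ near Z y, ∃ i, x i = z := by
  have hf : (near Z y).Finite := by
    by_contra hi
    let e := Set.Infinite.natEmbedding _ hi
    exact skIn1_none hZ y (fun i => (e i).1)
      (fun i j h => Fin.ext (e.injective (Subtype.ext h))) fun i => (e i).2
  have := hf.to_subtype
  obtain ⟨m, ⟨e⟩⟩ := Finite.exists_equiv_fin (near Z y)
  have hi : Function.Injective fun i => (e.symm i).1 :=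
    fun i j h => e.symm.injective (Subtype.ext h)
  refine ⟨m, fun i => (e.symm i).1, ?_, hi, fun i => (e.symm i).2,
    fun z hz => ⟨e ⟨z, hz⟩, by simp⟩⟩
  by_contra hm
  have hm' : n + 3 ≤ m := by omega
  exact skIn1_none hZ y (fun i => (e.symm (Fin.castLE hm' i)).1)
    (fun i j h => Fin.castLE_injective hm' (hi h)) fun i => (e.symm _).2

theorem skIn1_fun {W : Type} [AddCommGroup W] [Module ℝ W] {m : ℕ} {g : Fin m → W}
    (hg : LinearIndependent ℝ g) (b : Fin m → ℝ) : ∃ φ : W →ₗ[ℝ] ℝ, ∀ i, φ (g i) = b i := by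
  obtain ⟨φ, hφ⟩ := LinearMap.exists_extend ((Module.Basis.span hg).constr ℝ b)
  refine ⟨φ, fun i => ?_⟩
  have h := LinearMap.congr_fun hφ (Module.Basis.span hg i)
  rw [Module.Basis.constr_basis, LinearMap.comp_apply, Submodule.subtype_apply,
    Module.Basis.span_apply] at h
  exact h

theorem skIn1_sol {Z : Set (Hyp n)} (hZ : GP Z) (y : Hyp n) (a : Hyp n → ℝ) :
    ∃ (v : (Fin n → ℝ) × ℝ) (c0 : ℝ), ∀ x ∈ near Z y, LL x v = c0 + a x := by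
  obtain ⟨m, x, hm, hx, hN, hs⟩ := skIn1_enum hZ y
  obtain ⟨φ, hφ⟩ := skIn1_fun (skIn1_ind hZ y hm x hx hN) fun i => 2 * (x i).1.2 * a (x i)
  refine ⟨(fun l => -φ ((Pi.single l 1, 0), 0) / 2, φ ((0, 0), 1)), -φ ((0, 1), 0) / 2, ?_⟩
  intro z hz
  obtain ⟨i, rfl⟩ := hs z hz
  have h1 : (((x i).1, 1) : ((Fin n → ℝ) × ℝ) × ℝ) =
      ∑ l, (x i).1.1 l • (((Pi.single l 1, 0), 0) : ((Fin n → ℝ) × ℝ) × ℝ) +
        (x i).1.2 • ((0, 1), 0) + ((0, 0), 1) := by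
    refine Prod.ext (Prod.ext ?_ ?_) ?_
    · funext l
      simp [Prod.fst_sum, Finset.sum_apply, Pi.single_apply]
    · simp [Prod.fst_sum, Prod.snd_sum]
    · simp [Prod.snd_sum]
  have h2 := hφ i
  rw [h1, map_add, map_add, map_sum] at h2
  simp only [map_smul, smul_eq_mul] at h2
  have h3 : ∑ l, -φ ((Pi.single l 1, 0), 0) / 2 * (x i).1.1 l =
      -(∑ l, (x i).1.1 l * φ ((Pi.single l 1, 0), 0)) / 2 := by
    rw [← Finset.sum_neg_distrib, Finset.sum_div]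
    exact Finset.sum_congr rfl fun l _ => by ring
  change (φ ((0, 0), 1) - 2 * ∑ l, -φ ((Pi.single l 1, 0), 0) / 2 * (x i).1.1 l) /
    (2 * (x i).1.2) = _
  rw [h3, div_eq_iff (mul_pos two_pos (x i).2).ne']
  linarith

theorem sIn1 : SIn1 := fun _ Z =>
  ⟨skIn1_inj, skIn1_mem Z, fun hZ y a => skIn1_sol hZ y a⟩

end PV2c
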