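import Pool.Agent.P.MP_2c2d1a_pr.SkBlocks
import Pool.Agent.P.MP_2c2d1a_pr.Geo

/-! Nearest points exist, vary upper semicontinuously, and a cell touches finitely many. -/

open Filter Topology

namespace PV2c

variable {n : ℕ}

theorem in2_fat (x : Hyp n) : ∃ T : ℝ, 1 ≤ T ∧ x ∈ Fat 0 0 T := by
  have hx := x.2
  have hs : 0 ≤ ∑ l, |x.1.1 l| := Finset.sum_nonneg fun _ _ => abs_nonneg _
  have hi : 0 < 1 / x.1.2 := by positivity
  refine ⟨1 + ∑ l, |x.1.1 l| + x.1.2 + 1 / x.1.2, by linarith, fun l => ?_, ?_, ?_⟩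
  · have := Finset.single_le_sum (f := fun l => |x.1.1 l|) (fun _ _ => abs_nonneg _)
      (Finset.mem_univ l)
    simp only [Pi.zero_apply, sub_zero, pow_zero, mul_one]
    linarith
  · rw [pow_zero, div_le_iff₀ (by linarith)]
    have e : x.1.2 * (1 / x.1.2) = 1 := by field_simp
    nlinarith [mul_nonneg hx.le hs, mul_pos hx hx]
  · rw [pow_zero, mul_one]
    linarith

theorem in2_one {R T : ℝ} (hR : 1 ≤ R) (hT : 1 ≤ T) : 1 ≤ 4 * R * T := by nlinarith

/-- Two steps of bounded length reach finitely many points. -/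
theorem in2_two {Z : Set (Hyp n)} (hZ : Tame Z) (y : Hyp n) {R R' : ℝ} (hR : 1 ≤ R)
    (hR' : 1 ≤ R') : {x | x ∈ Z ∧ ∃ w, coshDist y w ≤ R ∧ coshDist w x ≤ R'}.Finite := by
  obtain ⟨T, hT, hy⟩ := in2_fat y
  refine (hZ.fin _ (in2_one hR' (in2_one hR hT))).subset ?_
  rintro x ⟨hx, w, h1, h2⟩
  exact ⟨hx, fat_closure (in2_one hR hT) (fat_closure hT hy h1) h2⟩

theorem in2_ne {Z : Set (Hyp n)} (hZ : Tame Z) (y : Hyp n) : (near Z y).Nonempty := by
  obtain ⟨x1, h1⟩ := hZ.ne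
  obtain ⟨x0, ⟨h0, -⟩, hmin⟩ := Set.exists_min_image _ (fun x => coshDist y x)
    (in2_two hZ y le_rfl (one_le_coshDist y x1))
    ⟨x1, h1, y, (coshDist_self y).le, le_rfl⟩
  refine ⟨x0, h0, (mem_cell_iff _ _ _).2 fun z hz => ?_⟩
  rcases le_total (coshDist y z) (coshDist y x1) with h | h
  · exact hmin z ⟨hz, y, (coshDist_self y).le, h⟩
  · exact (hmin x1 ⟨h1, y, (coshDist_self y).le, le_rfl⟩).trans h

theorem in2_nhds {Z : Set (Hyp n)} (hZ : Tame Z) (y : Hyp n) :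
    ∀ᶠ w in 𝓝 y, near Z w ⊆ near Z y := by
  obtain ⟨x1, h1, c1⟩ := in2_ne hZ y
  rw [mem_cell_iff] at c1
  have hm := one_le_coshDist y x1
  have hF := (in2_two hZ y (R := 2) (R' := coshDist y x1 + 1) one_le_two (by linarith)).sdiff
    (t := near Z y)
  have e1 : ∀ᶠ w in 𝓝 y, coshDist y w < 2 :=
    (continuous_coshDist_right y).continuousAt.eventually_lt continuousAt_const
      (by rw [coshDist_self]; exact one_lt_two)
  have e2 : ∀ᶠ w in 𝓝 y, coshDist w x1 < coshDist y x1 + 1 :=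
    (continuous_coshDist_left x1).continuousAt.eventually_lt continuousAt_const (lt_add_one _)
  have e3 := (eventually_all_finite hF (l := 𝓝 y)
    (p := fun x w => coshDist w x1 < coshDist w x)).2 fun x hx => by
      refine (continuous_coshDist_left x1).continuousAt.eventually_lt
        (continuous_coshDist_left x).continuousAt ?_
      by_contra hc
      exact hx.2 ⟨hx.1.1, (mem_cell_iff _ _ _).2 fun z hz => (not_lt.1 hc).trans (c1 z hz)⟩
  filter_upwards [e1, e2, e3] with w a b c x hx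
  have d := (mem_cell_iff _ _ _).1 hx.2 x1 h1
  by_contra hn
  exact absurd (c x ⟨⟨hx.1, w, a.le, d.trans b.le⟩, hn⟩) (not_lt.2 d)

/-- The squared height along a straight line of the chart. -/
noncomputable def in2Q (y : Hyp n) (v : (Fin n → ℝ) × ℝ) (t : ℝ) : ℝ :=
  (∑ l, y.1.1 l ^ 2 + y.1.2 ^ 2) + t * v.2 - ∑ l, (y.1.1 l + t * v.1 l) ^ 2

theorem in2_half (y : Hyp n) : 0 < y.1.2 ^ 2 / 2 := half_pos (pow_pos y.2 2)

/-- A straight line of the chart, cut off below. -/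
noncomputable def in2G (y : Hyp n) (v : (Fin n → ℝ) × ℝ) (t : ℝ) : Hyp n :=
  ⟨(fun l => y.1.1 l + t * v.1 l, √(max (in2Q y v t) (y.1.2 ^ 2 / 2))),
    Real.sqrt_pos.2 ((in2_half y).trans_le (le_max_right _ _))⟩

theorem in2Q_cont (y : Hyp n) (v : (Fin n → ℝ) × ℝ) : Continuous (in2Q y v) := by
  unfold in2Q
  fun_prop

theorem in2Q_zero (y : Hyp n) (v : (Fin n → ℝ) × ℝ) : in2Q y v 0 = y.1.2 ^ 2 := by
  unfold in2Q
  simp only [zero_mul, add_zero]
  ring

theorem in2G_cont (y : Hyp n) (v : (Fin n → ℝ) × ℝ) : Continuous (in2G y v) := by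
  have := in2Q_cont y v
  unfold in2G
  refine Continuous.subtype_mk ?_ _
  fun_prop

theorem in2G_zero (y : Hyp n) (v : (Fin n → ℝ) × ℝ) : in2G y v 0 = y := by
  refine Subtype.ext (Prod.ext (funext fun l => ?_) ?_)
  · change y.1.1 l + 0 * v.1 l = y.1.1 l
    rw [zero_mul, add_zero]
  · change √(max (in2Q y v 0) (y.1.2 ^ 2 / 2)) = y.1.2
    rw [in2Q_zero, max_eq_left (by linarith [in2_half y]), Real.sqrt_sq y.2.le]

theorem in2G_psi (y : Hyp n) (v : (Fin n → ℝ) × ℝ) {t : ℝ} (h : y.1.2 ^ 2 / 2 < in2Q y v t) :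
    psi (in2G y v t) = psi y + t • v := by
  refine Prod.ext rfl ?_
  change ∑ l, (y.1.1 l + t * v.1 l) ^ 2 + √(max (in2Q y v t) (y.1.2 ^ 2 / 2)) ^ 2 =
    (∑ l, y.1.1 l ^ 2 + y.1.2 ^ 2) + t * v.2
  rw [max_eq_left h.le, Real.sq_sqrt ((in2_half y).trans h).le]
  unfold in2Q
  ring

theorem sIn2 : SIn2 := by
  intro n Z hZ
  refine ⟨in2_ne hZ, fun y v => ?_, fun x => ?_⟩
  · have e1 : ∀ᶠ t in 𝓝 (0 : ℝ), y.1.2 ^ 2 / 2 < in2Q y v t :=
      continuousAt_const.eventually_lt (in2Q_cont y v).continuousAt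
        (by rw [in2Q_zero]; linarith [in2_half y])
    have e2 : ∀ᶠ t in 𝓝 (0 : ℝ), near Z (in2G y v t) ⊆ near Z y :=
      ((in2G_cont y v).tendsto' 0 y (in2G_zero y v)).eventually (in2_nhds hZ y)
    obtain ⟨ε, hε, h⟩ := Metric.eventually_nhds_iff.1 (e1.and e2)
    refine ⟨ε / 2, half_pos hε, fun t h0 h1 => ?_⟩
    have ht : dist t 0 < ε := by
      rw [Real.dist_eq, sub_zero, abs_of_nonneg h0]
      linarith
    exact ⟨in2G y v t, in2G_psi y v (h ht).1, (h ht).2⟩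
  · by_cases hx : x ∈ Z
    · obtain ⟨R, hR⟩ := hZ.bdd x hx
      refine (in2_two hZ x (le_max_right R 1) (le_max_right R 1)).subset ?_
      rintro x' ⟨w, h1, h2⟩
      have a := (hR w h1.2).trans (le_max_left R 1)
      exact ⟨h2.1, w, (coshDist_comm x w).trans_le a,
        ((mem_cell_iff _ _ _).1 h2.2 x hx).trans a⟩
    · refine Set.finite_empty.subset ?_
      rintro x' ⟨w, h1, -⟩
      exact hx h1.1

end PV2c
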