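import Pool.Agent.P.MP_2c2d1a_pr.SkBlocks
import Pool.Agent.P.MP_2c2d1a_pr.Geo
import Pool.Agent.P.MP_2c2d1a_pr.Par

/-! Compactness of the cells and the choice of the parameters for the skeleton theorem. -/

open MeasureTheory Filter Topology

namespace PV2c

variable {n : ℕ}

theorem skIn3_cbox (c : Fin n → ℝ) (r α β : ℝ) (hα : 0 < α) : IsCompact (CBox c r α β) := by
  rw [Subtype.isCompact_iff]
  have e : Subtype.val '' CBox c r α β =
      (Set.pi Set.univ fun l => Set.Icc (c l - r) (c l + r)) ×ˢ Set.Icc α β := by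
    ext p
    constructor
    · rintro ⟨y, ⟨h1, h2, h3⟩, rfl⟩
      refine ⟨fun l _ => ?_, h2, h3⟩
      have := abs_le.1 (h1 l)
      exact ⟨by linarith [this.1], by linarith [this.2]⟩
    · rintro ⟨h1, h2, h3⟩
      refine ⟨⟨p, lt_of_lt_of_le hα h2⟩, ⟨fun l => ?_, h2, h3⟩, rfl⟩
      have := h1 l (Set.mem_univ l)
      exact abs_le.2 ⟨by linarith [this.1], by linarith [this.2]⟩
  rw [e]
  exact (isCompact_univ_pi fun _ => isCompact_Icc).prod isCompact_Icc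

theorem skIn3_fat (x : Hyp n) : ∃ T : ℝ, 1 ≤ T ∧ x ∈ Fat 0 0 T := by
  have hx := x.2
  have hs : 0 ≤ ∑ l, |x.1.1 l| := Finset.sum_nonneg fun _ _ => abs_nonneg _
  have hi : 0 < 1 / x.1.2 := by positivity
  refine ⟨1 + ∑ l, |x.1.1 l| + x.1.2 + 1 / x.1.2, by linarith, fun l => ?_, ?_, ?_⟩
  · have := Finset.single_le_sum (f := fun l => |x.1.1 l|) (fun _ _ => abs_nonneg _)
      (Finset.mem_univ l)
    simp only [Pi.zero_apply, sub_zero, pow_zero, mul_one]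
    linarith
  · rw [pow_zero, div_le_iff₀ (by linarith)]
    have e : x.1.2 * (1 / x.1.2) = 1 := by field_simp
    nlinarith [mul_nonneg hx.le hs, mul_pos hx hx]
  · rw [pow_zero, mul_one]
    linarith

theorem skIn3_cell {Z : Set (Hyp n)} (hZ : Tame Z) {x : Hyp n} (hx : x ∈ Z) :
    IsCompact (cell Z x) := by
  obtain ⟨R, hR⟩ := hZ.bdd x hx
  obtain ⟨T, hT, hxT⟩ := skIn3_fat x
  have hc : IsClosed (cell Z x) := by
    have e : cell Z x = ⋂ z ∈ Z, {y | coshDist y x ≤ coshDist y z} := by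
      ext y
      rw [mem_cell_iff, Set.mem_iInter₂]
      rfl
    rw [e]
    exact isClosed_biInter fun z _ =>
      isClosed_le (continuous_coshDist_left x) (continuous_coshDist_left z)
  have h1 : 1 ≤ max R 1 := le_max_right _ _
  refine (skIn3_cbox (0 : Fin n → ℝ) (4 * max R 1 * T * (1 / 2) ^ 0)
    ((1 / 2) ^ 0 / (4 * max R 1 * T)) (4 * max R 1 * T * (1 / 2) ^ 0)
    (by positivity)).of_isClosed_subset hc fun y hy => ?_
  refine fat_closure hT hxT ?_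
  rw [coshDist_comm]
  exact (hR y hy).trans (le_max_left _ _)

theorem sIn3 : SIn3 := by
  intro n Z hZ y x v hv hx
  have hp : Continuous fun w : Hyp n => psi w - psi y := by
    unfold psi
    fun_prop
  have hc := (isClosedEmbedding_smul_left (𝕜 := ℝ) hv).isCompact_preimage
    ((skIn3_cell hZ hx.1).image hp)
  have e : {t : ℝ | ∃ w, psi w = psi y + t • v ∧ x ∈ near Z w} =
      (fun t : ℝ => t • v) ⁻¹' ((fun w : Hyp n => psi w - psi y) '' cell Z x) := by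
    ext t
    constructor
    · rintro ⟨w, h1, h2⟩
      exact ⟨w, h2.2, sub_eq_iff_eq_add'.2 h1⟩
    · rintro ⟨w, h1, h2⟩
      exact ⟨w, sub_eq_iff_eq_add'.1 h2, hx.1, h1⟩
  rw [e]
  exact hc.exists_isGreatest ⟨0, y, hx.2, by simp⟩

theorem skIn3_cnt (n m r g e : ℕ) (hr : 4 * (n + 2) + 2 * m ≤ r)
    (he : e = (m + 1) * (g * (n + 2) + 4) + 1) :
    ∃ a : ℕ, (n + 2) * ((n + 2) * a) ≤ (r ^ e) ^ 2 ∧
      m * ((n + 2) * (((r ^ e * r + 1) * r ^ g + 2 * r ^ e) * (r ^ g) ^ (n + 1))) + m ≤ a ∧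
      ((n + 2) * (((r ^ e * r + 1) * r ^ g + 2 * r ^ e) * (r ^ g) ^ (n + 1))) ^ (2 * m) ≤
        a ^ (m + 1) := by
  obtain ⟨e', he'⟩ : ∃ e', e' = (m + 1) * (g * (n + 2) + 4) := ⟨_, rfl⟩
  rw [← he'] at he
  have hr1 : 1 ≤ r := by omega
  have hK : 1 ≤ r ^ g := Nat.one_le_pow _ _ hr1
  have hk1 : 1 ≤ r ^ e := Nat.one_le_pow _ _ hr1
  have h1 : 1 ≤ r ^ e * r := Nat.mul_pos hk1 hr1
  have h2 : r ^ e ≤ r ^ e * r * r ^ g := by
    calc r ^ e = r ^ e * 1 * 1 := by ring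
      _ ≤ r ^ e * r * r ^ g := by gcongr
  have h3 : (r ^ e * r + 1) * r ^ g + 2 * r ^ e ≤ 4 * (r ^ e * r * r ^ g) := by nlinarith
  have h4 : (n + 2) * (((r ^ e * r + 1) * r ^ g + 2 * r ^ e) * (r ^ g) ^ (n + 1)) ≤
      r ^ (e' + (g * (n + 2) + 3)) := by
    calc (n + 2) * (((r ^ e * r + 1) * r ^ g + 2 * r ^ e) * (r ^ g) ^ (n + 1))
        ≤ (n + 2) * (4 * (r ^ e * r * r ^ g) * (r ^ g) ^ (n + 1)) := by gcongr
      _ = 4 * (n + 2) * (r ^ e * r * r ^ g * (r ^ g) ^ (n + 1)) := by ring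
      _ ≤ r * (r ^ e * r * r ^ g * (r ^ g) ^ (n + 1)) := by gcongr; omega
      _ = r ^ (e' + (g * (n + 2) + 3)) := by rw [he]; ring
  refine ⟨r ^ (2 * e'), ?_, ?_, ?_⟩
  · calc (n + 2) * ((n + 2) * r ^ (2 * e')) ≤ r * (r * r ^ (2 * e')) := by gcongr <;> omega
      _ = (r ^ e) ^ 2 := by rw [he]; ring
  · have h5 : 1 ≤ r ^ (e' + (g * (n + 2) + 3)) := Nat.one_le_pow _ _ hr1
    have h6 : e' + (g * (n + 2) + 3) + 1 ≤ 2 * e' := by rw [he']; nlinarith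
    calc _ ≤ m * r ^ (e' + (g * (n + 2) + 3)) + m * r ^ (e' + (g * (n + 2) + 3)) :=
          add_le_add (Nat.mul_le_mul_left m h4) (Nat.le_mul_of_pos_right m h5)
      _ = 2 * m * r ^ (e' + (g * (n + 2) + 3)) := by ring
      _ ≤ r * r ^ (e' + (g * (n + 2) + 3)) := by gcongr; omega
      _ = r ^ (e' + (g * (n + 2) + 3) + 1) := by ring
      _ ≤ r ^ (2 * e') := Nat.pow_le_pow_right hr1 h6
  · refine (Nat.pow_le_pow_left h4 _).trans ?_
    rw [← pow_mul, ← pow_mul]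
    refine Nat.pow_le_pow_right hr1 ?_
    have h7 : m * (g * (n + 2) + 3) ≤ e' := by rw [he']; nlinarith
    nlinarith

theorem sPar : SPar := by
  intro n m lam δ L hn hm hlam hδ hL
  set B : ℝ := lam * (3 * 4 ^ n) with hB
  obtain ⟨e, he⟩ : ∃ e : ℕ, e = (m + 1) * ((14 * n + 16) * (n + 2) + 4) + 1 := ⟨_, rfl⟩
  have he1 : e ≠ 0 := by omega
  obtain ⟨r, h1, h2, h3, h4, h5, h6, h7⟩ := ((eventually_ge_atTop (4 * (n + 2) + 2 * m)).and
    ((par_lin (256 * ((n : ℝ) + 1) * (4 * n + 4) ^ 3 * (4 * m + 32) ^ 3)).and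
    ((par_lin (2 * (lam * 2 ^ n) + 2)).and
    ((par_ev (e * 2 * (2 * n + 2))
      ((L * Real.exp B + 1) * Real.exp B ^ 2 / lam ^ 2 * 1600 ^ (2 * n + 2)) 2 one_lt_two).and
    ((par_ev (e + 1 + 14 + 14 * n) (4 * 3 ^ n * Real.exp B / δ) (Real.exp (lam / 2))
      (Real.one_lt_exp_iff.2 (by linarith))).and
    ((par_ev (e + 1) (4 / δ) (Real.exp 1) (Real.one_lt_exp_iff.2 one_pos)).and
    (eventually_ge_atTop 1))))))).exists
  have hr1 : (1 : ℝ) ≤ r := by exact_mod_cast h7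
  have hk1 : 1 ≤ r ^ e := Nat.one_le_pow _ _ h7
  have hkr : r ≤ r ^ e := le_self_pow₀ h7 he1
  have hkk : r ^ e ≤ (r ^ e) ^ 2 := le_self_pow₀ hk1 (by omega)
  have hk0 : (0 : ℝ) < ((r ^ e : ℕ) : ℝ) := by exact_mod_cast hk1
  refine ⟨r ^ e * r, r ^ e, r ^ 7, r ^ (14 * n + 16), r,
    1 / (800 * ((r ^ e : ℕ) : ℝ) ^ 2), hk1, Nat.one_le_pow _ _ h7, by positivity,
    ?_, ?_, by positivity, par_T n m r hr1 h2, ?_, ?_, ?_⟩
  · rw [one_div, inv_mul_cancel₀ (by positivity)]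
  · rw [mul_one_div, div_le_one (by positivity)]
    have h8 : n ≤ 800 * (r ^ e) ^ 2 := by omega
    exact_mod_cast h8
  · exact skIn3_cnt n m r _ e h1 he
  · refine par_L n r _ lam L B hlam hL hk1 (le_trans (le_of_eq ?_) h4)
    push_cast
    rw [mul_pow, ← pow_mul, ← pow_mul, mul_assoc _ ((1600 : ℝ) ^ (2 * n + 2)), mul_assoc]
  · have a1 := par_d1 n r e lam δ B hn hlam hδ h7 h5
    have a2 := par_d2 n r e lam δ hδ h7 h3 h6
    linarith

end PV2c
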