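import Pool.Agent.P.MP_2c2d1a_pr.SkBlocks

/-! Degenerate tuples are null for the hyperbolic volume. -/

open MeasureTheory Filter Topology
open scoped ENNReal

namespace PV2c

/-- If every hyperplane pulls back to a null set, dependent tuples are null. -/
theorem skNull_gen {X E : Type} [TopologicalSpace X] [SecondCountableTopology X]
    [MeasurableSpace X] [BorelSpace X] [NormedAddCommGroup E] [NormedSpace ℝ E]
    [FiniteDimensional ℝ E] (μ : Measure X) [SigmaFinite μ] (g : X → E) (hg : Continuous g)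
    (h0 : ∀ φ : E →ₗ[ℝ] ℝ, φ ≠ 0 → μ {x | φ (g x) = 0} = 0) :
    ∀ m ≤ Module.finrank ℝ E, Measure.pi (fun _ : Fin m => μ)
      {x | ¬ LinearIndependent ℝ fun i => g (x i)} = 0 := by
  intro m
  induction m with
  | zero =>
    intro _
    have e : {x : Fin 0 → X | ¬ LinearIndependent ℝ fun i => g (x i)} = ∅ := by
      ext x
      simp only [Set.mem_ofPred_eq, Set.mem_empty_iff_false, iff_false, not_not]
      exact linearIndependent_empty_type
    rw [e, measure_empty]
  | succ m ih =>
    intro hm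
    have ih' := ih (by omega)
    have hop : IsOpen {x : Fin (m + 1) → X | LinearIndependent ℝ fun i => g (x i)} :=
      (isOpen_setOfPred_linearIndependent (𝕜 := ℝ) (E := E) (ι := Fin (m + 1))).preimage
        (continuous_pi fun i => hg.comp (continuous_apply i))
    have hms : MeasurableSet {x : Fin (m + 1) → X | ¬ LinearIndependent ℝ fun i => g (x i)} :=
      hop.measurableSet.compl
    have mp := (measurePreserving_piFinSuccAbove (fun _ : Fin (m + 1) => μ) 0).symm
    rw [← mp.measure_preimage hms.nullMeasurableSet,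
      Measure.prod_apply_symm (mp.measurable hms)]
    have hae : ∀ᵐ t ∂(Measure.pi fun _ : Fin m => μ), LinearIndependent ℝ fun i => g (t i) :=
      ih'
    rw [← lintegral_zero (μ := Measure.pi fun _ : Fin m => μ)]
    refine lintegral_congr_ae (hae.mono fun t ht => ?_)
    have hlt : Submodule.span ℝ (Set.range fun i => g (t i)) < ⊤ := by
      refine lt_top_iff_ne_top.2 fun h => ?_
      have := finrank_le_of_span_eq_top h
      simp only [Fintype.card_fin] at this
      omega
    obtain ⟨φ, hφ, hker⟩ := Submodule.exists_le_ker_of_lt_top _ hlt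
    refine measure_mono_null (fun a ha => ?_) (h0 φ hφ)
    have e : (fun i => g ((MeasurableEquiv.piFinSuccAbove (fun _ : Fin (m + 1) => X) 0).symm
        (a, t) i)) = (Fin.cons (g a) (fun i => g (t i)) : Fin (m + 1) → E) := by
      funext i
      refine Fin.cases ?_ (fun j => ?_) i <;> simp [MeasurableEquiv.piFinSuccAbove]
    have ha' : ¬ LinearIndependent ℝ fun i => g ((MeasurableEquiv.piFinSuccAbove
        (fun _ : Fin (m + 1) => X) 0).symm (a, t) i) := ha
    rw [e, linearIndependent_finCons] at ha'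
    have hin : g a ∈ Submodule.span ℝ (Set.range fun i => g (t i)) := by
      by_contra hn
      exact ha' ⟨ht, hn⟩
    exact hker hin

/-- A sphere or a hyperplane is Lebesgue null. -/
theorem skNull_quad (n : ℕ) (φ : (((Fin n → ℝ) × ℝ) × (ℝ × ℝ)) →ₗ[ℝ] ℝ) (hφ : φ ≠ 0) :
    volume {p : (Fin n → ℝ) × ℝ | φ (p, (1, ∑ l, p.1 l ^ 2 + p.2 ^ 2)) = 0} = 0 := by
  have split : ∀ (p : (Fin n → ℝ) × ℝ) (a b : ℝ),
      φ (p, (a, b)) = φ (p, 0) + a * φ (0, (1, 0)) + b * φ (0, (0, 1)) := fun p a b => by
    rw [← smul_eq_mul, ← smul_eq_mul, ← map_smul, ← map_smul, ← map_add, ← map_add]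
    simp
  by_cases he : φ (0, (0, 1)) = 0
  · by_cases hne : ∃ p0 : (Fin n → ℝ) × ℝ, φ (p0, 0) + φ (0, (1, 0)) = 0
    · obtain ⟨p0, hp0⟩ := hne
      have hk : LinearMap.ker (φ.comp (LinearMap.inl ℝ ((Fin n → ℝ) × ℝ) (ℝ × ℝ))) ≠ ⊤ := by
        intro h
        have h1 : ∀ p : (Fin n → ℝ) × ℝ, φ (p, 0) = 0 := fun p => by
          have : p ∈ LinearMap.ker (φ.comp (LinearMap.inl ℝ ((Fin n → ℝ) × ℝ) (ℝ × ℝ))) := by
            rw [h]; trivial
          exact this
        apply hφ
        refine LinearMap.ext fun ⟨p, a, b⟩ => ?_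
        have h2 := h1 p0
        rw [split, h1, he]
        have h3 : φ (0, (1, 0)) = 0 := by linarith
        simp [h3]
      have hz := Measure.addHaar_submodule
        ((volume : Measure (Fin n → ℝ)).prod (volume : Measure ℝ)) _ hk
      rw [← measure_preimage_add _ (-p0)] at hz
      rw [Measure.volume_eq_prod]
      refine measure_mono_null (fun p hp => ?_) hz
      have hp' : φ (p, (1, ∑ l, p.1 l ^ 2 + p.2 ^ 2)) = 0 := hp
      rw [split, he] at hp'
      show φ (-p0 + p, 0) = 0
      have e : ((-p0 + p, 0) : ((Fin n → ℝ) × ℝ) × (ℝ × ℝ)) = -(p0, 0) + (p, 0) := by simp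
      rw [e, map_add, map_neg]
      linarith
    · have e : {p : (Fin n → ℝ) × ℝ | φ (p, (1, ∑ l, p.1 l ^ 2 + p.2 ^ 2)) = 0} = ∅ := by
        ext p
        simp only [Set.mem_ofPred_eq, Set.mem_empty_iff_false, iff_false]
        intro hp
        rw [split, he] at hp
        exact hne ⟨p, by linarith⟩
      rw [e, measure_empty]
  · have hc : Continuous fun p : (Fin n → ℝ) × ℝ => φ (p, (1, ∑ l, p.1 l ^ 2 + p.2 ^ 2)) :=
      φ.continuous_of_finiteDimensional.comp (by fun_prop)
    have hms : MeasurableSet {p : (Fin n → ℝ) × ℝ | φ (p, (1, ∑ l, p.1 l ^ 2 + p.2 ^ 2)) = 0} :=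
      (isClosed_eq hc continuous_const).measurableSet
    rw [Measure.volume_eq_prod]
    refine Measure.measure_prod_null_of_ae_null hms (Eventually.of_forall fun u => ?_)
    let q : Polynomial ℝ := Polynomial.C (φ (0, (0, 1))) * Polynomial.X ^ 2 +
      Polynomial.C (φ ((0, 1), 0)) * Polynomial.X +
      Polynomial.C (φ ((u, 0), 0) + φ (0, (1, 0)) + (∑ l, u l ^ 2) * φ (0, (0, 1)))
    have hq : q ≠ 0 := fun h => by
      have := congrArg (fun r : Polynomial ℝ => r.coeff 2) h
      simp only [q, Polynomial.coeff_add, Polynomial.coeff_C_mul, Polynomial.coeff_X_pow,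
        Polynomial.coeff_X, Polynomial.coeff_C, Polynomial.coeff_zero] at this
      simp at this
      exact he this
    refine ((Polynomial.finite_setOfPred_isRoot hq).subset fun h hh => ?_).measure_zero _
    have hh' : φ ((u, h), (1, ∑ l, u l ^ 2 + h ^ 2)) = 0 := hh
    have e : φ ((u, h), 0) = φ ((u, 0), 0) + h * φ ((0, 1), 0) := by
      rw [← smul_eq_mul, ← map_smul, ← map_add]
      simp
    rw [split, e] at hh'
    show q.eval h = 0
    simp only [q, Polynomial.eval_add, Polynomial.eval_mul, Polynomial.eval_C,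
      Polynomial.eval_pow, Polynomial.eval_X]
    linarith

theorem skNull_loc (n : ℕ) : IsLocallyFiniteMeasure (hvol n) := by
  have hO : IsOpen {p : (Fin n → ℝ) × ℝ | 0 < p.2} := isOpen_lt continuous_const continuous_snd
  have hE : MeasurableEmbedding (Subtype.val : Hyp n → (Fin n → ℝ) × ℝ) :=
    MeasurableEmbedding.subtype_coe hO.measurableSet
  have h1 : IsLocallyFiniteMeasure
      (Measure.comap (Subtype.val : Hyp n → (Fin n → ℝ) × ℝ) volume) := by
    refine ⟨fun x => ?_⟩
    obtain ⟨s, hs, hv⟩ := (volume : Measure ((Fin n → ℝ) × ℝ)).finiteAt_nhds x.1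
    refine ⟨Subtype.val ⁻¹' s, continuous_subtype_val.continuousAt hs, ?_⟩
    rw [hE.comap_apply]
    exact (measure_mono (Set.image_preimage_subset _ _)).trans_lt hv
  refine IsLocallyFiniteMeasure.withDensity_ofReal ?_
  refine continuous_const.div ((continuous_snd.comp continuous_subtype_val).pow _) fun x => ?_
  exact (pow_pos x.2 _).ne'

theorem sNull : SNull := by
  intro n lam
  have h1 := skNull_loc n
  have h2 : IsLocallyFiniteMeasure (ENNReal.ofReal lam • hvol n) := by
    refine ⟨fun x => ?_⟩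
    obtain ⟨s, hs, hv⟩ := (hvol n).finiteAt_nhds x
    refine ⟨s, hs, ?_⟩
    rw [Measure.smul_apply, smul_eq_mul]
    exact ENNReal.mul_lt_top ENNReal.ofReal_lt_top hv
  refine ⟨h2, fun m hm => ?_⟩
  have hO : IsOpen {p : (Fin n → ℝ) × ℝ | 0 < p.2} := isOpen_lt continuous_const continuous_snd
  have hE : MeasurableEmbedding (Subtype.val : Hyp n → (Fin n → ℝ) × ℝ) :=
    MeasurableEmbedding.subtype_coe hO.measurableSet
  have hg : Continuous (lft : Hyp n → _) := by
    unfold lft
    fun_prop
  refine skNull_gen _ lft hg (fun φ hφ => ?_) m ?_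
  · have h3 : Measure.comap (Subtype.val : Hyp n → (Fin n → ℝ) × ℝ) volume
        {x | φ (lft x) = 0} = 0 := by
      rw [hE.comap_apply]
      refine measure_mono_null ?_ (skNull_quad n φ hφ)
      rintro _ ⟨x, hx, rfl⟩
      exact hx
    have h4 : hvol n {x | φ (lft x) = 0} = 0 := withDensity_absolutelyContinuous _ _ h3
    rw [Measure.smul_apply, h4, smul_zero]
  · simp only [Module.finrank_prod, Module.finrank_fin_fun, Module.finrank_self]
    omega

end PV2c
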