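import Pool.Agent.P.MP_2c2d1a_pr.SkBlocks

/-! A simple arrangement has simple combinatorics. -/

namespace PV2c

variable {X ι E : Type} [AddCommGroup E] [Module ℝ E] {ψ : X → E} {L : ι → E →ₗ[ℝ] ℝ}
  {c : ι → ℝ} {Z : Set ι} {N : X → Set ι} {d : ℕ}

theorem poly_fin (h : Arr ψ L c Z N) (y : X) : (N y).Finite := by
  obtain ⟨x, hx⟩ := h.ne y
  exact (h.fin x).subset fun x' hx' => ⟨y, hx, hx'⟩

theorem poly_Z (h : Arr ψ L c Z N) {y : X} {x : ι} (hx : x ∈ N y) : x ∈ Z := ((h.mem y x).1 hx).1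

theorem poly_le (h : Arr ψ L c Z N) {y : X} {x x' : ι} (hx : x ∈ N y) (hx' : x' ∈ Z) :
    L x (ψ y) + c x ≤ L x' (ψ y) + c x' := ((h.mem y x).1 hx).2 x' hx'

theorem poly_eq (h : Arr ψ L c Z N) {y : X} {x x' : ι} (hx : x ∈ N y) (hx' : x' ∈ N y) :
    L x (ψ y) + c x = L x' (ψ y) + c x' :=
  le_antisymm (poly_le h hx (poly_Z h hx')) (poly_le h hx' (poly_Z h hx))

theorem poly_mem (h : Arr ψ L c Z N) {y : X} {x x' : ι} (hx : x ∈ N y) (hx' : x' ∈ Z)
    (e : L x' (ψ y) + c x' ≤ L x (ψ y) + c x) : x' ∈ N y :=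
  (h.mem y x').2 ⟨hx', fun _ hz => e.trans (poly_le h hx hz)⟩

/-- The map `(v, c) ↦ (L x v - c)` over `x` in `B`. -/
noncomputable def polyPhi (L : ι → E →ₗ[ℝ] ℝ) (B : Set ι) : (E × ℝ) →ₗ[ℝ] (B → ℝ) :=
  LinearMap.pi fun x => (L x.1).comp (LinearMap.fst ℝ E ℝ) - LinearMap.snd ℝ E ℝ

theorem polyPhi_apply (L : ι → E →ₗ[ℝ] ℝ) (B : Set ι) (p : E × ℝ) (x : B) :
    polyPhi L B p x = L x.1 p.1 - p.2 := rfl

theorem poly_surj (h : Arr ψ L c Z N) (y : X) : Function.Surjective (polyPhi L (N y)) := by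
  classical
  intro a
  obtain ⟨v, c0, hv⟩ := h.sol y fun x => if hx : x ∈ N y then a ⟨x, hx⟩ else 0
  refine ⟨(v, c0), funext fun x => ?_⟩
  rw [polyPhi_apply, hv x x.2, dif_pos x.2]
  ring

theorem poly_rank {B : Set ι} (hB : B.Finite) :
    FiniteDimensional ℝ (B → ℝ) ∧ B.encard = (Module.finrank ℝ (B → ℝ) : ℕ) := by
  have := hB.fintype
  exact ⟨inferInstance, by rw [Module.finrank_fintype_fun_eq_card, Set.coe_fintypeCard]⟩

/-- The ray lemma. -/
theorem poly_ray (h : Arr ψ L c Z N) {y : X} {B : Set ι} {b : ι} (hb : b ∈ B) (hB : B ⊆ N y)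
    {v : E} (hv : v ≠ 0) {c0 : ℝ} (hc : ∀ x ∈ B, L x v = c0) :
    ∃ (t : ℝ) (w : X), ψ w = ψ y + t • v ∧ B ⊆ N w ∧ ¬ N w ⊆ B ∧
      ∀ (s : ℝ) (w' : X), ψ w' = ψ y + s • v → b ∈ N w' → s ≤ t := by
  obtain ⟨t, ⟨w, hw, hbw⟩, hup⟩ := h.cpt y b v hv (hB hb)
  have hconst : ∀ (s : ℝ) (w' : X), ψ w' = ψ y + s • v → ∀ x ∈ B,
      L x (ψ w') + c x = L b (ψ w') + c b := by
    intro s w' e x hx
    have := poly_eq h (hB hx) (hB hb)
    rw [e, map_add, map_add, map_smul, map_smul, hc x hx, hc b hb]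
    linarith
  refine ⟨t, w, hw, fun x hx => poly_mem h hbw (poly_Z h (hB hx)) (hconst t w hw x hx).le,
    fun hsub => ?_, fun s w' e hb' => hup ⟨w', e, hb'⟩⟩
  obtain ⟨ε, hε, H⟩ := h.us w v
  obtain ⟨w', e, hN⟩ := H ε hε.le le_rfl
  obtain ⟨x, hx⟩ := h.ne w'
  have e' : ψ w' = ψ y + (t + ε) • v := by rw [e, hw, add_smul, add_assoc]
  have hb' : b ∈ N w' :=
    poly_mem h hx (poly_Z h (hB hb)) (hconst _ w' e' x (hsub (hN hx))).ge
  have := hup ⟨w', e', hb'⟩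
  linarith

theorem poly_diff {A : Set ι} (hA : A.encard = (d + 1 : ℕ)) {x0 : ι} (hx0 : x0 ∈ A) :
    (A \ {x0}).encard = (d : ℕ) := by
  have h1 := Set.encard_sdiff_singleton_add_one hx0
  rw [hA, Nat.cast_add, Nat.cast_one] at h1
  exact WithTop.add_right_cancel ENat.one_ne_top h1

variable [FiniteDimensional ℝ E]

theorem poly_dim (hd : Module.finrank ℝ E = d) : Module.finrank ℝ (E × ℝ) = d + 1 := by
  rw [Module.finrank_prod, hd, Module.finrank_self]

theorem poly_card (hd : Module.finrank ℝ E = d) (h : Arr ψ L c Z N) (y : X) :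
    (N y).encard ≤ (d + 1 : ℕ) := by
  obtain ⟨_, e⟩ := poly_rank (poly_fin h y)
  rw [e, ← poly_dim hd]
  exact_mod_cast LinearMap.finrank_le_finrank_of_surjective (poly_surj h y)

theorem poly_ker0 (hd : Module.finrank ℝ E = d) (h : Arr ψ L c Z N) {y : X}
    (hy : (N y).encard = (d + 1 : ℕ)) {v : E} {c0 : ℝ} (hv : ∀ x ∈ N y, L x v = c0) : v = 0 := by
  obtain ⟨_, e⟩ := poly_rank (poly_fin h y)
  have e1 : Module.finrank ℝ (E × ℝ) = Module.finrank ℝ (N y → ℝ) := by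
    rw [poly_dim hd]
    exact_mod_cast hy.symm.trans e
  have hinj := (LinearMap.injective_iff_surjective_of_finrank_eq_finrank e1).2 (poly_surj h y)
  have h0 : polyPhi L (N y) (v, c0) = polyPhi L (N y) 0 := by
    rw [map_zero]
    funext x
    rw [polyPhi_apply, hv x x.2]
    simp
  exact congrArg Prod.fst (hinj h0)

theorem poly_ker1 (hd : Module.finrank ℝ E = d) (h : Arr ψ L c Z N) {y : X}
    (hy : (N y).encard ≠ (d + 1 : ℕ)) : ∃ (v : E) (c0 : ℝ), v ≠ 0 ∧ ∀ x ∈ N y, L x v = c0 := by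
  obtain ⟨_, e⟩ := poly_rank (poly_fin h y)
  have hni : ¬ Function.Injective (polyPhi L (N y)) := fun hinj => by
    have h1 := LinearMap.finrank_le_finrank_of_injective hinj
    rw [poly_dim hd] at h1
    refine hy (le_antisymm (poly_card hd h y) ?_)
    rw [e]
    exact_mod_cast h1
  rw [injective_iff_map_eq_zero] at hni
  push Not at hni
  obtain ⟨p, hp, hp0⟩ := hni
  have hv : ∀ x ∈ N y, L x p.1 = p.2 := fun x hx => by
    have := congrFun hp ⟨x, hx⟩
    rw [polyPhi_apply] at this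
    exact sub_eq_zero.1 this
  refine ⟨p.1, p.2, fun h0 => hp0 ?_, hv⟩
  obtain ⟨x, hx⟩ := h.ne y
  have h2 := hv x hx
  rw [h0, map_zero] at h2
  exact Prod.ext h0 h2.symm

theorem poly_ext (hd : Module.finrank ℝ E = d) (h : Arr ψ L c Z N) {y w : X}
    (hy : (N y).encard = (d + 1 : ℕ)) (hs : N y ⊆ N w) : w = y := by
  obtain ⟨b, hb⟩ := h.ne y
  refine h.inj (sub_eq_zero.1 (poly_ker0 hd h hy (c0 := L b (ψ w - ψ y)) fun x hx => ?_))
  have h1 := poly_eq h hx hb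
  have h2 := poly_eq h (hs hx) (hs hb)
  rw [map_sub, map_sub]
  linarith

theorem poly_up (hd : Module.finrank ℝ E = d) (h : Arr ψ L c Z N) (p : X) :
    ∃ y, (N y).encard = (d + 1 : ℕ) ∧ N p ⊆ N y := by
  have key : ∀ (k : ℕ) (p : X), ((d + 1 : ℕ) : ℕ∞) ≤ (N p).encard + k →
      ∃ y, (N y).encard = (d + 1 : ℕ) ∧ N p ⊆ N y := by
    intro k
    induction k with
    | zero =>
      intro p hp
      exact ⟨p, le_antisymm (poly_card hd h p) (by simpa using hp), subset_rfl⟩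
    | succ k ih =>
      intro p hp
      by_cases hy : (N p).encard = (d + 1 : ℕ)
      · exact ⟨p, hy, subset_rfl⟩
      obtain ⟨v, c0, hv, hc⟩ := poly_ker1 hd h hy
      obtain ⟨b, hb⟩ := h.ne p
      obtain ⟨t, w, -, h1, h2, -⟩ := poly_ray h hb subset_rfl hv hc
      obtain ⟨x, hx, hxp⟩ := Set.not_subset.1 h2
      have h3 : (N p).encard + 1 ≤ (N w).encard := by
        rw [← Set.encard_insert_of_notMem hxp]
        exact Set.encard_le_encard (Set.insert_subset hx h1)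
      obtain ⟨y, hy1, hy2⟩ := ih w (by
        refine hp.trans ?_
        rw [Nat.cast_add, Nat.cast_one, add_comm (k : ℕ∞), ← add_assoc]
        exact add_le_add h3 le_rfl)
      exact ⟨y, hy1, h1.trans hy2⟩
  exact key (d + 1) p le_add_self

theorem poly_flip (hd1 : 1 ≤ d) (hd : Module.finrank ℝ E = d) (h : Arr ψ L c Z N) {y : X}
    (hy : (N y).encard = (d + 1 : ℕ)) {x0 : ι} (hx0 : x0 ∈ N y) {v0 : E} {c0 : ℝ}
    (hv : ∀ x ∈ N y, x ≠ x0 → L x v0 = c0) (hv0 : L x0 v0 = c0 + 1) :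
    ∃ (t : ℝ) (w : X), 0 < t ∧ ψ w = ψ y + t • v0 ∧ (N w).encard = (d + 1 : ℕ) ∧ w ≠ y ∧
      N y \ {x0} ⊆ N w ∧
      (∀ w', (N w').encard = (d + 1 : ℕ) → w' ≠ y → N y \ {x0} ⊆ N w' → w' = w) ∧
      ∀ w', N y \ {x0} ⊆ N w' → ∃ s : ℝ, 0 ≤ s ∧ s ≤ t ∧ ψ w' = ψ y + s • v0 := by
  have hBc := poly_diff hy hx0
  obtain ⟨b, hb⟩ : (N y \ {x0}).Nonempty := by
    rw [← Set.one_le_encard_iff_nonempty, hBc]
    exact_mod_cast hd1
  have hc : ∀ x ∈ N y \ {x0}, L x v0 = c0 := fun x hx => hv x hx.1 hx.2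
  have hne : v0 ≠ 0 := fun h0 => by
    have h1 := hc b hb
    rw [h0, map_zero] at h1 hv0
    linarith
  obtain ⟨t, w, hw, h1, h2, hmax⟩ := poly_ray h hb Set.sdiff_subset hne hc
  have ht : 0 < t := by
    obtain ⟨ε, hε, H⟩ := h.us y v0
    obtain ⟨w', e, hN⟩ := H ε hε.le le_rfl
    obtain ⟨x, hx⟩ := h.ne w'
    refine hε.trans_le (hmax ε w' e (poly_mem h hx (poly_Z h hb.1) ?_))
    have h3 := poly_eq h (hN hx) hb.1
    have h4 : c0 ≤ L x v0 := by
      by_cases e1 : x = x0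
      · rw [e1, hv0]
        linarith
      · exact (hv x (hN hx) e1).ge
    rw [e, map_add, map_add, map_smul, map_smul, hc b hb, smul_eq_mul, smul_eq_mul]
    have := mul_le_mul_of_nonneg_left h4 hε.le
    linarith
  have hray : ∀ w', N y \ {x0} ⊆ N w' → ∃ s : ℝ, 0 ≤ s ∧ s ≤ t ∧ ψ w' = ψ y + s • v0 := by
    intro w' hsub
    set s : ℝ := L x0 (ψ w' - ψ y) - L b (ψ w' - ψ y) with hs
    have hs0 : 0 ≤ s := by
      have h3 := poly_eq h hx0 hb.1
      have h4 := poly_le h (hsub hb) (poly_Z h hx0)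
      rw [hs, map_sub, map_sub]
      linarith
    have h5 : ψ w' - ψ y - s • v0 = 0 := by
      refine poly_ker0 hd h hy (c0 := L b (ψ w' - ψ y) - s * c0) fun x hx => ?_
      rw [map_sub, map_smul, smul_eq_mul]
      by_cases e1 : x = x0
      · rw [e1, hv0]
        linarith
      · have h3 := poly_eq h hx hb.1
        have h4 := poly_eq h (hsub ⟨hx, e1⟩) (hsub hb)
        rw [hv x hx e1, map_sub, map_sub]
        linarith
    have e' : ψ w' = ψ y + s • v0 := by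
      rw [sub_sub, sub_eq_zero] at h5
      exact h5
    exact ⟨s, hs0, hmax s w' e' (hsub hb), e'⟩
  refine ⟨t, w, ht, hw, le_antisymm (poly_card hd h w) ?_, fun e => ?_, h1,
    fun w' hw' hne' hsub => ?_, hray⟩
  · obtain ⟨x, hx, hxp⟩ := Set.not_subset.1 h2
    refine le_trans (le_of_eq ?_) (Set.encard_le_encard (Set.insert_subset hx h1))
    rw [Set.encard_insert_of_notMem hxp, hBc, Nat.cast_add, Nat.cast_one]
  · rw [e, left_eq_add, smul_eq_zero] at hw
    exact hw.elim ht.ne' hne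
  · obtain ⟨s, hs0, hst, e'⟩ := hray w' hsub
    have hspos : 0 < s := lt_of_le_of_ne hs0 fun e => hne' (h.inj (by rw [e', ← e]; simp))
    rcases hst.eq_or_lt with e | hlt
    · exact h.inj (by rw [e', hw, e])
    · exfalso
      obtain ⟨x, hx, hxB⟩ : ∃ x ∈ N w', x ∉ N y \ {x0} := by
        refine Set.not_subset.1 fun hh => ?_
        have h6 := Set.encard_le_encard hh
        rw [hw', hBc] at h6
        have h7 : d + 1 ≤ d := by exact_mod_cast h6
        omega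
      have f0 := poly_le h hb.1 (poly_Z h hx)
      have f1 := poly_le h (h1 hb) (poly_Z h hx)
      have f2 := poly_eq h (hsub hb) hx
      rw [hw, map_add, map_add, map_smul, map_smul, hc b hb, smul_eq_mul, smul_eq_mul] at f1
      rw [e', map_add, map_add, map_smul, map_smul, hc b hb, smul_eq_mul, smul_eq_mul] at f2
      have f3 : L x (ψ y) + c x ≤ L b (ψ y) + c b := by
        by_contra hcon
        push Not at hcon
        have g1 : s * (L x v0 - c0) < 0 := by linarith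
        have g2 : L x v0 - c0 < 0 := by
          by_contra g3
          push Not at g3
          linarith [mul_nonneg hs0 g3]
        have g4 := mul_lt_mul_of_neg_right hlt g2
        linarith
      have f4 : x ∈ N y := poly_mem h hb.1 (poly_Z h hx) f3
      have f5 : x = x0 := by
        by_contra e1
        exact hxB ⟨f4, e1⟩
      rw [f5, hv0] at f2
      have f6 := poly_eq h hx0 hb.1
      linarith

omit [FiniteDimensional ℝ E] in
theorem poly_dir (h : Arr ψ L c Z N) (y : X) (x0 : ι) : ∃ (v0 : E) (c0 : ℝ), x0 ∈ N y →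
    (∀ x ∈ N y, x ≠ x0 → L x v0 = c0) ∧ L x0 v0 = c0 + 1 := by
  classical
  obtain ⟨v, c0, hv⟩ := h.sol y fun x => if x = x0 then 1 else 0
  refine ⟨v, c0, fun hx0 => ⟨fun x hx e => ?_, ?_⟩⟩
  · rw [hv x hx, if_neg e, add_zero]
  · rw [hv x0 hx0, if_pos rfl]

theorem poly_step (hd1 : 1 ≤ d) (hd : Module.finrank ℝ E = d) (h : Arr ψ L c Z N) {x : ι}
    {y : {y : X // (N y).encard = (d + 1 : ℕ)}} {z : X} (hy : x ∈ N y.1) (hz : x ∈ N z)
    (G : E →ₗ[ℝ] ℝ) (hG : G (ψ z) < G (ψ y.1)) :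
    ∃ y', (gsk d N).Adj y y' ∧ x ∈ N y'.1 ∧ G (ψ y'.1) < G (ψ y.1) := by
  classical
  choose v0 c0 hv using poly_dir h y.1
  set F := (poly_fin h y.1).toFinset with hF
  have hFm : ∀ x', x' ∈ F ↔ x' ∈ N y.1 := fun x' => (poly_fin h y.1).mem_toFinset
  set v : E := ψ z - ψ y.1 with hvd
  set a : ι → ℝ := fun x0 => L x0 v - L x v with ha
  have ha0 : ∀ x0 ∈ N y.1, 0 ≤ a x0 := fun x0 hx0 => by
    have h1 := poly_eq h hx0 hy
    have h2 := poly_le h hz (poly_Z h hx0)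
    simp only [ha, hvd, map_sub]
    linarith
  have h0 : v - ∑ x0 ∈ F, a x0 • v0 x0 = 0 := by
    refine poly_ker0 hd h y.2 (c0 := L x v - ∑ x0 ∈ F, a x0 * c0 x0) fun x1 hx1 => ?_
    have h1 : ∀ x0 ∈ F, L x1 (a x0 • v0 x0) = a x0 * c0 x0 + if x1 = x0 then a x0 else 0 := by
      intro x0 hx0
      obtain ⟨h2, h3⟩ := hv x0 ((hFm x0).1 hx0)
      rw [map_smul, smul_eq_mul]
      by_cases e : x1 = x0
      · rw [if_pos e, e, h3]
        ring
      · rw [if_neg e, h2 x1 hx1 e, add_zero]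
    rw [map_sub, map_sum, Finset.sum_congr rfl h1, Finset.sum_add_distrib, Finset.sum_ite_eq,
      if_pos ((hFm x1).2 hx1)]
    simp only [ha]
    ring
  have h1 : ∑ x0 ∈ F, a x0 * G (v0 x0) < ∑ _x0 ∈ F, (0 : ℝ) := by
    have h2 : G v = ∑ x0 ∈ F, a x0 * G (v0 x0) := by
      rw [sub_eq_zero.1 h0, map_sum]
      exact Finset.sum_congr rfl fun x0 _ => by rw [map_smul, smul_eq_mul]
    rw [← h2, Finset.sum_const_zero, hvd, map_sub]
    linarith
  obtain ⟨x0, hx0F, hx0⟩ := Finset.exists_lt_of_sum_lt h1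
  have hx0N := (hFm x0).1 hx0F
  have hGneg : G (v0 x0) < 0 := by
    by_contra g3
    push Not at g3
    linarith [mul_nonneg (ha0 x0 hx0N) g3]
  have hxx : x ≠ x0 := fun e => by
    have : a x0 = 0 := by simp only [ha, e, sub_self]
    rw [this, zero_mul] at hx0
    exact lt_irrefl _ hx0
  obtain ⟨t, w, ht, hw, hw1, hw2, hw3, -⟩ :=
    poly_flip hd1 hd h y.2 hx0N (hv x0 hx0N).1 (hv x0 hx0N).2
  refine ⟨⟨w, hw1⟩, ⟨fun e => hw2 (congrArg Subtype.val e).symm, ?_⟩, hw3 ⟨hy, hxx⟩, ?_⟩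
  · rw [← poly_diff y.2 hx0N]
    congr 1
    refine Set.Subset.antisymm (fun x' hx' => ⟨hx'.1, fun e => hw2 ?_⟩)
      fun x' hx' => ⟨hx'.1, hw3 hx'⟩
    refine poly_ext hd h y.2 fun x1 hx1 => ?_
    by_cases e1 : x1 = x0
    · rw [e1, ← Set.mem_singleton_iff.1 e]
      exact hx'.2
    · exact hw3 ⟨hx1, e1⟩
  · show G (ψ w) < _
    rw [hw, map_add, map_smul, smul_eq_mul]
    linarith [mul_neg_of_pos_of_neg ht hGneg]

theorem sPoly : SPoly := by
  intro X ι E _ _ _ ψ L c Z N d hd1 hd h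
  refine ⟨poly_card hd h, fun y w => poly_ext hd h, poly_up hd h, fun y hy x0 hx0 => ?_,
    fun x y z hy hz => ?_, h.fin⟩
  · obtain ⟨v0, c0, hv⟩ := poly_dir h y x0
    obtain ⟨t, w, -, -, h1, h2, h3, h4, -⟩ := poly_flip hd1 hd h hy hx0 (hv hx0).1 (hv hx0).2
    exact ⟨w, ⟨h1, h2, h3⟩, fun w' hw' => h4 w' hw'.1 hw'.2.1 hw'.2.2⟩
  · set G : E →ₗ[ℝ] ℝ := ∑ x' ∈ (poly_fin h z.1).toFinset, (L x' - L x) with hG
    have hV : {y : {y : X // (N y).encard = (d + 1 : ℕ)} | x ∈ N y.1}.Finite := by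
      refine ((h.fin x).finite_subsets.preimage (f := fun y : {y : X //
        (N y).encard = (d + 1 : ℕ)} => N y.1) fun a _ b _ e => ?_).subset ?_
      · exact Subtype.ext (poly_ext hd h b.2 (le_of_eq e.symm))
      · intro a ha x' hx'
        exact ⟨a.1, ha, hx'⟩
    by_contra hcon
    obtain ⟨a, ⟨ha, hna⟩, hmin⟩ := Set.exists_min_image
      {a : {y : X // (N y).encard = (d + 1 : ℕ)} | x ∈ N a.1 ∧
        ¬ Relation.ReflTransGen (fun a b => (gsk d N).Adj a b ∧ x ∈ N b.1) a z}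
      (fun a => G (ψ a.1)) (hV.subset fun _ ha => ha.1) ⟨y, hy, hcon⟩
    have hlt : G (ψ z.1) < G (ψ a.1) := by
      rw [hG, LinearMap.sum_apply, LinearMap.sum_apply]
      refine Finset.sum_lt_sum (fun x' hx' => ?_) ?_
      · have hx'' := (poly_fin h z.1).mem_toFinset.1 hx'
        have h1 := poly_eq h hx'' hz
        have h2 := poly_le h ha (poly_Z h hx'')
        rw [LinearMap.sub_apply, LinearMap.sub_apply]
        linarith
      · have hns : ¬ N z.1 ⊆ N a.1 := fun hs =>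
          hna (by rw [Subtype.ext (poly_ext hd h z.2 hs)])
        obtain ⟨x', hx', hxa⟩ := Set.not_subset.1 hns
        refine ⟨x', (poly_fin h z.1).mem_toFinset.2 hx', ?_⟩
        have h1 := poly_eq h hx' hz
        have h2 : L x (ψ a.1) + c x < L x' (ψ a.1) + c x' :=
          not_le.1 fun hle => hxa (poly_mem h ha (poly_Z h hx') hle)
        rw [LinearMap.sub_apply, LinearMap.sub_apply]
        linarith
    obtain ⟨b, hab, hb, hGb⟩ := poly_step hd1 hd h ha hz G hlt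
    by_cases hbz : Relation.ReflTransGen (fun a b => (gsk d N).Adj a b ∧ x ∈ N b.1) b z
    · exact hna (Relation.ReflTransGen.head ⟨hab, hb⟩ hbz)
    · exact absurd (hmin b ⟨hb, hbz⟩) (not_le.2 hGb)

end PV2c
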