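import Pool.Agent.P.MP_2c2d1a_pr.Blocks

/-! Volume of coordinate boxes. -/

open MeasureTheory Filter Topology
open scoped ENNReal

namespace PV2c

theorem vol_ms (n : ℕ) : MeasurableSet {p : (Fin n → ℝ) × ℝ | 0 < p.2} :=
  measurableSet_lt measurable_const measurable_snd

theorem vol_image {n : ℕ} (c : Fin n → ℝ) (r α β : ℝ) (hα : 0 < α) :
    Subtype.val '' (CBox c r α β : Set (Hyp n)) =
      (Set.pi Set.univ fun l => Set.Icc (c l - r) (c l + r)) ×ˢ Set.Icc α β := by
  ext p
  constructor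
  · rintro ⟨y, ⟨h1, h2, h3⟩, rfl⟩
    refine ⟨fun l _ => ?_, h2, h3⟩
    have := abs_le.1 (h1 l)
    exact ⟨by linarith [this.1], by linarith [this.2]⟩
  · rintro ⟨h1, h2, h3⟩
    refine ⟨⟨p, hα.trans_le h2⟩, ⟨fun l => ?_, h2, h3⟩, rfl⟩
    have := h1 l (Set.mem_univ l)
    exact abs_le.2 ⟨by linarith [this.1], by linarith [this.2]⟩

theorem vol_meas {n : ℕ} (c : Fin n → ℝ) (r α β : ℝ) :
    MeasurableSet (CBox c r α β : Set (Hyp n)) := by
  have h2 : Measurable fun y : Hyp n => y.1.2 := measurable_snd.comp measurable_subtype_coe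
  have h1 : ∀ l, Measurable fun y : Hyp n => |y.1.1 l - c l| := fun l =>
    (((measurable_pi_apply l).comp (measurable_fst.comp measurable_subtype_coe)).sub
      measurable_const).abs
  have e : (CBox c r α β : Set (Hyp n)) = (⋂ l, {y : Hyp n | |y.1.1 l - c l| ≤ r}) ∩
      ({y : Hyp n | α ≤ y.1.2} ∩ {y : Hyp n | y.1.2 ≤ β}) := by
    ext y
    simp [CBox]
  rw [e]
  exact (MeasurableSet.iInter fun l => measurableSet_le (h1 l) measurable_const).inter
    ((measurableSet_le measurable_const h2).inter (measurableSet_le h2 measurable_const))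

theorem vol_leb {n : ℕ} (c : Fin n → ℝ) (r α β : ℝ) (hr : 0 ≤ r) (hα : 0 < α) :
    Measure.comap (Subtype.val : Hyp n → (Fin n → ℝ) × ℝ) volume (CBox c r α β) =
      ENNReal.ofReal ((2 * r) ^ n * (β - α)) := by
  have hE : MeasurableEmbedding (Subtype.val : Hyp n → (Fin n → ℝ) × ℝ) :=
    MeasurableEmbedding.subtype_coe (vol_ms n)
  rw [hE.comap_apply, vol_image c r α β hα,
    Measure.volume_eq_prod, Measure.prod_prod, volume_pi_pi, Real.volume_Icc]
  simp only [Real.volume_Icc]
  have e : ∀ l, c l + r - (c l - r) = 2 * r := fun l => by ring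
  simp only [e, Finset.prod_const, Finset.card_univ, Fintype.card_fin]
  have h2 : (0 : ℝ) ≤ 2 * r := by positivity
  rw [← ENNReal.ofReal_pow h2, ← ENNReal.ofReal_mul (pow_nonneg h2 n)]

theorem bVol : BVol := by
  intro n c r α β hr hα hαβ
  have hm := vol_meas c r α β
  have hβ : 0 < β := hα.trans_le hαβ
  have key : ∀ γ : ℝ, 0 < γ → ENNReal.ofReal ((2 * r) ^ n * (β - α) / γ ^ (n + 1)) =
      ∫⁻ _ in (CBox c r α β : Set (Hyp n)), ENNReal.ofReal (1 / γ ^ (n + 1))
        ∂(Measure.comap (Subtype.val : Hyp n → (Fin n → ℝ) × ℝ) volume) := fun γ hγ => by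
    rw [setLIntegral_const, vol_leb c r α β hr hα, ← ENNReal.ofReal_mul (by positivity)]
    congr 1
    ring
  refine ⟨hm, ?_, ?_⟩
  · rw [hvol, withDensity_apply _ hm, key β hβ]
    refine setLIntegral_mono' hm fun y hy => ENNReal.ofReal_le_ofReal ?_
    have := y.2
    exact one_div_le_one_div_of_le (pow_pos this _) (pow_le_pow_left₀ this.le hy.2.2 _)
  · rw [hvol, withDensity_apply _ hm, key α hα]
    refine setLIntegral_mono' hm fun y hy => ENNReal.ofReal_le_ofReal ?_
    exact one_div_le_one_div_of_le (pow_pos hα _) (pow_le_pow_left₀ hα.le hy.2.1 _)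

end PV2c
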